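import Mathlib
set_option autoImplicit false
open Finset

namespace IdemCount

/-- undirected adjacency of an oriented graph -/
def Adj {V : Type*} (E : V → V → Prop) (x y : V) : Prop := E x y ∨ E y x

/-- `E` is an oriented graph with triangle-free underlying graph and without the two bad
orientations of a 4-cycle, `N` is a set of vertices independent in it. -/
structure Ok {V : Type*} (E : V → V → Prop) (N : V → Prop) : Prop where
  asymm : ∀ x y, E x y → ¬ E y x
  tri : ∀ x y z, Adj E x y → Adj E y z → Adj E z x → False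
  c4 : ∀ a b c d, E a b → E b c → E c d → ¬ E a d
  cyc : ∀ a b c d, E a b → E b c → E c d → ¬ E d a
  indep : ∀ x y, E x y → ¬ (N x ∧ N y)

/-- idempotent binary relations -/
def IsIdem {V : Type*} (R : V → V → Prop) : Prop := ∀ x y, R x y ↔ ∃ z, R x z ∧ R z y

/-- the asymptotic count -/
noncomputable def f (n : ℕ) : ℝ :=
  (1 / 2) * ∑ b ∈ range (n + 1),
    (n.choose b : ℝ) * 2 ^ (b * (n - b)) * ((2 : ℝ) ^ b + 2 ^ (n - b)) ^ 2

abbrev Str (V : Type*) := (V → V → Prop) × (V → Prop)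

def X (V : Type*) : Set (Str V) := {p | Ok p.1 p.2}

noncomputable def xn (n : ℕ) : ℕ := (X (Fin n)).ncard

lemma Adj.symm {V : Type*} {E : V → V → Prop} {x y : V} (h : Adj E x y) : Adj E y x := h.elim Or.inr Or.inl

/-- restriction to the complement of `S` -/
def res {V : Type*} (S : Finset V) (p : Str V) : Str V :=
  (fun a b => a ∉ S ∧ b ∉ S ∧ p.1 a b, fun a => a ∉ S ∧ p.2 a)

lemma res_adj {V : Type*} {S : Finset V} {p : Str V} {a b : V} :
    Adj (res S p).1 a b ↔ a ∉ S ∧ b ∉ S ∧ Adj p.1 a b := by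
  simp only [Adj, res]; tauto

lemma res_mem_X {V : Type*} {S : Finset V} {p : Str V} (hp : p ∈ X V) : res S p ∈ X V := by
  refine ⟨?_, ?_, ?_, ?_, ?_⟩
  · rintro x y ⟨_, _, h⟩ ⟨_, _, h'⟩; exact hp.asymm _ _ h h'
  · intro x y z h1 h2 h3
    exact hp.tri x y z (res_adj.1 h1).2.2 (res_adj.1 h2).2.2 (res_adj.1 h3).2.2
  · rintro a b c d ⟨_, _, h1⟩ ⟨_, _, h2⟩ ⟨_, _, h3⟩ ⟨_, _, h4⟩; exact hp.c4 _ _ _ _ h1 h2 h3 h4
  · rintro a b c d ⟨_, _, h1⟩ ⟨_, _, h2⟩ ⟨_, _, h3⟩ ⟨_, _, h4⟩; exact hp.cyc _ _ _ _ h1 h2 h3 h4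
  · rintro x y ⟨_, _, h⟩ ⟨⟨_, h1⟩, _, h2⟩; exact hp.indep _ _ h ⟨h1, h2⟩

/-- structures supported off `S` -/
def XS {V : Type*} (S : Finset V) : Set (Str V) :=
  {p | p ∈ X V ∧ (∀ a b, p.1 a b → a ∉ S ∧ b ∉ S) ∧ ∀ a, p.2 a → a ∉ S}

lemma res_mem_XS {V : Type*} {S : Finset V} {p : Str V} (hp : p ∈ X V) : res S p ∈ XS S :=
  ⟨res_mem_X hp, fun _ _ h => ⟨h.1, h.2.1⟩, fun _ h => h.1⟩

lemma pull_mem_X {V W : Type*} (g : W → V) {p : Str V} (hp : p ∈ X V) :
    ((fun i j => p.1 (g i) (g j), fun i => p.2 (g i)) : Str W) ∈ X W :=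
  ⟨fun _ _ => hp.asymm _ _, fun _ _ _ => hp.tri _ _ _, fun _ _ _ _ => hp.c4 _ _ _ _,
    fun _ _ _ _ => hp.cyc _ _ _ _, fun _ _ => hp.indep _ _⟩

lemma card_XS {n : ℕ} (S : Finset (Fin n)) : (XS S).ncard ≤ xn (n - S.card) := by
  classical
  set m := n - S.card with hm
  have hc : Sᶜ.card = m := by rw [Finset.card_compl, Fintype.card_fin]
  let g : Fin m → Fin n := fun i => Sᶜ.orderEmbOfFin hc i
  have hg : ∀ i, g i ∉ S := fun i => by
    exact Finset.mem_compl.1 (Finset.orderEmbOfFin_mem Sᶜ hc i)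
  have hg' : ∀ a, a ∉ S → ∃ i, g i = a := fun a ha => by
    have : a ∈ Set.range (Sᶜ.orderEmbOfFin hc) := by
      rw [Finset.range_orderEmbOfFin]; simpa using ha
    exact this
  refine Set.ncard_le_ncard_of_injOn
    (fun p => ((fun i j => p.1 (g i) (g j), fun i => p.2 (g i)) : Str (Fin m))) ?_ ?_ (Set.toFinite _)
  · intro p hp; exact pull_mem_X g hp.1
  · intro p hp p' hp' h
    obtain ⟨E, N⟩ := p
    obtain ⟨E', N'⟩ := p'
    simp only [Prod.mk.injEq] at h
    obtain ⟨h1, h2⟩ := h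
    have e1 : ∀ i j, E (g i) (g j) ↔ E' (g i) (g j) := fun i j => by
      have := congrFun (congrFun h1 i) j; exact iff_of_eq this
    have e2 : ∀ i, N (g i) ↔ N' (g i) := fun i => iff_of_eq (congrFun h2 i)
    have hE : E = E' := by
      funext a b
      apply propext
      by_cases ha : a ∈ S
      · exact ⟨fun h => absurd ha (hp.2.1 a b h).1, fun h => absurd ha (hp'.2.1 a b h).1⟩
      by_cases hb : b ∈ S
      · exact ⟨fun h => absurd hb (hp.2.1 a b h).2, fun h => absurd hb (hp'.2.1 a b h).2⟩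
      obtain ⟨i, rfl⟩ := hg' a ha
      obtain ⟨j, rfl⟩ := hg' b hb
      exact e1 i j
    have hN : N = N' := by
      funext a
      apply propext
      by_cases ha : a ∈ S
      · exact ⟨fun h => absurd ha (hp.2.2 a h), fun h => absurd ha (hp'.2.2 a h)⟩
      obtain ⟨i, rfl⟩ := hg' a ha
      exact e2 i
    rw [hE, hN]

/-- fibre counting -/
lemma ncard_le_fiber {α β : Type*} [Finite α] [Finite β] (A : Set α) (B : Set β) (f : α → β)
    (hf : ∀ a ∈ A, f a ∈ B) (m : ℕ) (h : ∀ b ∈ B, {a | a ∈ A ∧ f a = b}.ncard ≤ m) :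
    A.ncard ≤ B.ncard * m := by
  classical
  cases nonempty_fintype α
  cases nonempty_fintype β
  have := Finset.card_le_mul_card_image_of_maps_to (s := A.toFinset) (t := B.toFinset) (f := f)
    (by intro a ha; rw [Set.mem_toFinset] at ha ⊢; exact hf a ha) m (by
      intro b hb
      rw [Set.mem_toFinset] at hb
      have h1 := h b hb
      rw [Set.ncard_eq_toFinset_card'] at h1
      convert h1 using 2
      ext a
      simp)
  rw [Set.ncard_eq_toFinset_card', Set.ncard_eq_toFinset_card', mul_comm]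
  exact this

/-- union bound -/
lemma ncard_exists_le {α ι : Type*} [Finite α] [Fintype ι] (P : ι → α → Prop) (m : ℕ)
    (h : ∀ i, {a | P i a}.ncard ≤ m) : {a | ∃ i, P i a}.ncard ≤ Fintype.card ι * m := by
  classical
  cases nonempty_fintype α
  have e : {a | ∃ i, P i a} = ((Finset.univ : Finset ι).biUnion fun i => (Set.toFinset {a | P i a}) : Finset α) := by
    ext a; simp
  rw [e, Set.ncard_coe_finset]
  calc _ ≤ ∑ i, (Set.toFinset {a | P i a}).card := Finset.card_biUnion_le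
    _ ≤ ∑ _i : ι, m := Finset.sum_le_sum fun i _ => by
        have := h i; rwa [Set.ncard_eq_toFinset_card'] at this
    _ = _ := by simp

end IdemCount
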