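import Mathlib
import Pool.Agent.Idem.Basic
set_option autoImplicit false
open Finset

namespace IdemCount.Bip

theorem aux_card {V : Type*} [Fintype V] [DecidableEq V] (A B C : Finset V) :
    (A \ B).card + B.card + C.card ≤ (A ∩ C).card + Fintype.card V + (B ∩ C).card := by
  have h1 : A \ B ⊆ (A ∩ C) ∪ (B ∪ C)ᶜ := by
    intro x hx
    simp only [mem_sdiff, mem_union, mem_inter, mem_compl] at *
    tauto
  have h2 := (card_le_card h1).trans (card_union_le _ _)
  have h3 := card_compl (B ∪ C)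
  have h4 := card_union_add_card_inter B C
  have h5 := card_le_univ (B ∪ C)
  omega

theorem aux_inter {V : Type*} [Fintype V] [DecidableEq V] (A B A' B' : Finset V) :
    (A ∩ B).card ≤ (A \ A').card + (A' ∩ B').card + (B \ B').card := by
  have h1 : A ∩ B ⊆ ((A \ A') ∪ (A' ∩ B')) ∪ (B \ B') := by
    intro x hx
    simp only [mem_sdiff, mem_union, mem_inter] at *
    tauto
  have h2 := (card_le_card h1).trans (card_union_le _ _)
  have h3 := card_union_le (A \ A') (A' ∩ B')
  omega

theorem aux_three {V : Type*} [DecidableEq V] (W Z X : Finset V) :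
    W.card ≤ (W \ X).card + (W \ Z).card + (Z ∩ X).card := by
  have h1 : W ⊆ ((W \ X) ∪ (W \ Z)) ∪ (Z ∩ X) := by
    intro x hx
    simp only [mem_sdiff, mem_union, mem_inter] at *
    tauto
  have h2 := (card_le_card h1).trans (card_union_le _ _)
  have h3 := card_union_le (W \ X) (W \ Z)
  omega

theorem aux_inter' {V : Type*} [DecidableEq V] (Z W X : Finset V) :
    (Z ∩ X).card + (W ∩ X).card ≤ (Z ∩ W).card + X.card := by
  have h4 := card_union_add_card_inter (Z ∩ X) (W ∩ X)
  have h1 : (Z ∩ X) ∪ (W ∩ X) ⊆ X := by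
    intro x hx
    simp only [mem_union, mem_inter] at *
    tauto
  have h2 : (Z ∩ X) ∩ (W ∩ X) ⊆ Z ∩ W := by
    intro x hx
    simp only [mem_inter] at *
    tauto
  have h1' := card_le_card h1
  have h2' := card_le_card h2
  omega

/-- TARGET: pure finite set combinatorics with linear arithmetic.  `nb x` is the neighbourhood
of `x` in a triangle-free graph, `NB Q` the union of the neighbourhoods of `x ∈ Q`. -/
theorem exists_bipartition {V : Type*} [Fintype V] [DecidableEq V]
    (A : V → V → Prop) (symm : ∀ x y, A x y → A y x)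
    (nb : V → Finset V) (hnb : ∀ x y, y ∈ nb x ↔ A x y)
    (q : ℕ) (hn : 100 * q + 1000 ≤ Fintype.card V)
    (F0 : ∀ x, Fintype.card V < 16 * (nb x).card)
    (F1 : ∀ x, ∀ Q ⊆ nb x, Q.card = q →
      999 * Fintype.card V ≤ 2000 * (Q.biUnion nb).card)
    (F2 : ∀ x y, A x y → ∀ Q ⊆ nb x \ {y}, Q.card = q → ∀ Q' ⊆ nb y \ {x}, Q'.card = q →
      500 * (Q.biUnion nb ∩ Q'.biUnion nb).card < Fintype.card V) :
    ∃ V₁ : Finset V, ∀ x y, A x y → (x ∈ V₁ ↔ y ∉ V₁) := by
  classical
  -- existence of q-sets avoiding a vertex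
  have exQ : ∀ x y, ∃ Q ⊆ nb x \ {y}, Q.card = q := by
    intro x y
    apply exists_subset_card_eq
    have h1 := F0 x
    have h2 : (nb x).card ≤ (nb x \ {y}).card + ({y} : Finset V).card := by
      have := card_le_card_sdiff_add_card (s := nb x) (t := {y})
      omega
    simp only [card_singleton] at h2
    omega
  -- (b)
  have hb : ∀ x, ∀ Q1 ⊆ nb x, Q1.card = q → ∀ Q2 ⊆ nb x, Q2.card = q →
      2000 * (Q1.biUnion nb \ Q2.biUnion nb).card ≤ 10 * Fintype.card V := by
    intro x Q1 hQ1 c1 Q2 hQ2 c2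
    have : ∃ y ∈ nb x, y ∉ Q1 ∪ Q2 := by
      by_contra hcon
      push Not at hcon
      have h1 : nb x ⊆ Q1 ∪ Q2 := hcon
      have h2 := (card_le_card h1).trans (card_union_le _ _)
      have h3 := F0 x
      omega
    obtain ⟨y, hy, hyQ⟩ := this
    have hA : A x y := (hnb x y).1 hy
    obtain ⟨Q', hQ', c'⟩ := exQ y x
    have e1 : Q1 ⊆ nb x \ {y} := by
      intro z hz
      simp only [mem_sdiff, mem_singleton]
      refine ⟨hQ1 hz, ?_⟩
      rintro rfl
      exact hyQ (mem_union_left _ hz)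
    have e2 : Q2 ⊆ nb x \ {y} := by
      intro z hz
      simp only [mem_sdiff, mem_singleton]
      refine ⟨hQ2 hz, ?_⟩
      rintro rfl
      exact hyQ (mem_union_right _ hz)
    have f1 := F2 x y hA Q1 e1 c1 Q' hQ' c'
    have f2 := F2 x y hA Q2 e2 c2 Q' hQ' c'
    have g2 := F1 x Q2 hQ2 c2
    have g3 := F1 y Q' (hQ'.trans sdiff_subset) c'
    have h := aux_card (Q1.biUnion nb) (Q2.biUnion nb) (Q'.biUnion nb)
    omega
  -- (c)
  have hc : ∀ x y, A x y → ∀ Q ⊆ nb x, Q.card = q → ∀ Q' ⊆ nb y, Q'.card = q →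
      2000 * (Q.biUnion nb ∩ Q'.biUnion nb).card ≤ 24 * Fintype.card V := by
    intro x y hA Q hQ c Q' hQ' c'
    obtain ⟨Q1, hQ1, c1⟩ := exQ x y
    obtain ⟨Q1', hQ1', c1'⟩ := exQ y x
    have b1 := hb x Q hQ c Q1 (hQ1.trans sdiff_subset) c1
    have b2 := hb y Q' hQ' c' Q1' (hQ1'.trans sdiff_subset) c1'
    have b3 := F2 x y hA Q1 hQ1 c1 Q1' hQ1' c1'
    have h := aux_inter (Q.biUnion nb) (Q'.biUnion nb) (Q1.biUnion nb) (Q1'.biUnion nb)
    omega
  -- choose
  have exQ0 : ∀ x, ∃ Q ⊆ nb x, Q.card = q := by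
    intro x
    obtain ⟨Q, h, c⟩ := exQ x x
    exact ⟨Q, h.trans sdiff_subset, c⟩
  choose Q hQ cQ using exQ0
  set R : V → Finset V := fun z => (Q z).biUnion nb with hR
  have r1 : ∀ z, 999 * Fintype.card V ≤ 2000 * (R z).card := fun z => F1 z (Q z) (hQ z) (cQ z)
  have r2 : ∀ x y, A x y → 2000 * (R x ∩ R y).card ≤ 24 * Fintype.card V :=
    fun x y hA => hc x y hA (Q x) (hQ x) (cQ x) (Q y) (hQ y) (cQ y)
  have r3 : ∀ x w, w ∈ R x → 2000 * (R w \ R x).card ≤ 50 * Fintype.card V := by
    intro x w hw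
    obtain ⟨p, hp, hwp⟩ := mem_biUnion.1 hw
    have a1 : A x p := (hnb x p).1 (hQ x hp)
    have a2 : A w p := symm _ _ ((hnb p w).1 hwp)
    have b1 := r2 x p a1
    have b2 := r2 w p a2
    have b3 := r1 x
    have b4 := r1 p
    have h := aux_card (R w) (R x) (R p)
    omega
  have r4 : ∀ x z w, w ∈ R z → w ∈ R x → 899 * Fintype.card V ≤ 2000 * (R z ∩ R x).card := by
    intro x z w h1 h2
    have b1 := r3 x w h2
    have b2 := r3 z w h1
    have b3 := r1 w
    have h := aux_three (R w) (R z) (R x)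
    omega
  have r5 : ∀ x, 2000 * (R x).card ≤ 1025 * Fintype.card V := by
    intro x
    have hne : (nb x).Nonempty := by
      rw [← card_pos]
      have := F0 x
      omega
    obtain ⟨y, hy⟩ := hne
    have hA := (hnb x y).1 hy
    have b1 := r2 x y hA
    have b2 := r1 y
    have h4 := card_union_add_card_inter (R x) (R y)
    have h5 := card_le_univ (R x ∪ R y)
    omega
  have hpos : 0 < Fintype.card V := by omega
  obtain ⟨x0⟩ := Fintype.card_pos_iff.1 hpos
  refine ⟨univ.filter (fun z => (R z ∩ R x0).Nonempty), ?_⟩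
  intro z w hA
  simp only [mem_filter, mem_univ, true_and]
  have c0 := r2 z w hA
  constructor
  · intro hz hw
    obtain ⟨a, ha⟩ := hz
    obtain ⟨b, hb'⟩ := hw
    have e1 := r4 x0 z a (mem_inter.1 ha).1 (mem_inter.1 ha).2
    have e2 := r4 x0 w b (mem_inter.1 hb').1 (mem_inter.1 hb').2
    have e3 := r5 x0
    have h := aux_inter' (R z) (R w) (R x0)
    omega
  · intro hw
    by_contra hz
    rw [not_nonempty_iff_eq_empty] at hw hz
    have e1 := r1 x0
    have e2 := r1 z
    have e3 := r1 w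
    have h4 := card_union_add_card_inter (R z) (R w)
    have hd : Disjoint (R z ∪ R w) (R x0) := by
      rw [disjoint_union_left]
      exact ⟨disjoint_iff_inter_eq_empty.2 hz, disjoint_iff_inter_eq_empty.2 hw⟩
    have h5 := card_union_of_disjoint hd
    have h6 := card_le_univ (R z ∪ R w ∪ R x0)
    omega

end IdemCount.Bip
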