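import Mathlib
import Pool.Agent.Idem.Basic
set_option autoImplicit false
open Finset

namespace IdemCount

/-- orientation forced by a 4-cycle -/
lemma orient_determined {V : Type*} {E E' : V → V → Prop} {N N' : V → Prop}
    (h : Ok E N) (h' : Ok E' N') {s y t z : V}
    (hyt : Adj E y t) (htz : Adj E t z)
    (e1 : E y t ↔ E' y t) (e1' : E t y ↔ E' t y)
    (e2 : E t z ↔ E' t z) (e2' : E z t ↔ E' z t)
    (e3 : E s z ↔ E' s z) (e3' : E z s ↔ E' z s) (hsz : Adj E s z)
    (hs : E s y) (hs' : E' y s) : False := by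
  -- walk s y t z s
  rcases hyt with a | a <;> rcases htz with b | b <;> rcases hsz with c | c
  · -- s→y→t→z , s→z
    exact h.c4 s y t z hs a b c
  · exact h.cyc s y t z hs a b c
  · -- y→t, z→t, s→z ; E' : y→s→z→t, y→t
    exact h'.c4 y s z t hs' (e3.1 c) (e2'.1 b) (e1.1 a)
  · -- s→y→t, z→t, z→s : z→s→y→t, z→t
    exact h.c4 z s y t c hs a b
  · -- t→y, t→z, s→z ; E' : t→y→s→z, t→z
    exact h'.c4 t y s z (e1'.1 a) hs' (e3.1 c) (e2.1 b)
  · -- t→y, t→z, z→s : t→z→s→y, t→y
    exact h.c4 t z s y b c hs a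
  · -- t→y, z→t, s→z ; E': y→s→z→t→y
    exact h'.cyc y s z t hs' (e3.1 c) (e2'.1 b) (e1'.1 a)
  · -- t→y, z→t, z→s ; E' : z→t→y→s, z→s
    exact h'.c4 z t y s (e2'.1 b) (e1'.1 a) hs' (e3'.1 c)

/-- covering property: every `y ∈ Γ` equals some `z ∈ Z` or shares a neighbour with it. -/
def Cov {V : Type*} (A : V → V → Prop) (Γ : V → Prop) (Z : Finset V) : Prop :=
  (∀ z ∈ Z, Γ z) ∧ ∀ y, Γ y → ∃ z ∈ Z, y = z ∨ ∃ t, A y t ∧ A z t

/-- adjacency code of `S` -/
def code {V : Type*} (S : Finset V) (p : Str V) : V → V → Prop :=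
  fun a b => a ∈ S ∧ b ∉ S ∧ Adj p.1 a b

theorem ext_core {V : Type*} [Fintype V] [DecidableEq V] (S : Finset V) (z m : ℕ)
    (P : Set (Str V)) (hP : P ⊆ X V)
    (A : Str V → Set (V → V → Prop)) (hA : ∀ p', (A p').ncard ≤ m)
    (hcode : ∀ p ∈ P, code S p ∈ A (res S p))
    (hcov : ∀ p ∈ P, ∀ s ∈ S, ∃ Z : Finset V,
      Cov (Adj (res S p).1) (code S p s) Z ∧ Z.card ≤ z) :
    P.ncard ≤ (XS S).ncard * (m * (2 ^ (S.card * z) * 2 ^ (S.card * S.card) * 2 ^ S.card)) := by
  classical
  refine ncard_le_fiber P (XS S) (res S) (fun p hp => res_mem_XS (hP hp)) _ ?_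
  intro p' hp'
  refine (ncard_le_fiber _ (A p') (code S) (fun p hp => by rw [← hp.2]; exact hcode p hp.1)
    (2 ^ (S.card * z) * 2 ^ (S.card * S.card) * 2 ^ S.card) ?_).trans
    (Nat.mul_le_mul_right _ (hA p'))
  intro g hg
  -- choose covering sets depending only on p' and g
  by_cases hne : ∃ p, p ∈ P ∧ res S p = p' ∧ code S p = g
  swap
  · have : {a | a ∈ {a | a ∈ P ∧ res S a = p'} ∧ code S a = g} = ∅ := by
      ext a
      simp only [Set.mem_ofPred_eq, Set.mem_empty_iff_false, iff_false]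
      rintro ⟨⟨h1, h2⟩, h3⟩
      exact hne ⟨a, h1, h2, h3⟩
    rw [this]; simp
  obtain ⟨p0, hp0, hr0, hc0⟩ := hne
  have hZ : ∀ s : V, ∃ Z : Finset V, s ∈ S → (Cov (Adj p'.1) (g s) Z ∧ Z.card ≤ z) := by
    intro s
    by_cases hs : s ∈ S
    · obtain ⟨Z, h1, h2⟩ := hcov p0 hp0 s hs
      rw [hr0, hc0] at h1
      exact ⟨Z, fun _ => ⟨h1, h2⟩⟩
    · exact ⟨∅, fun h => absurd h hs⟩
  choose Z hZ using hZ
  let W : Finset (V × V) := S.biUnion fun s => (Z s).image fun y => (s, y)
  have hW : W.card ≤ S.card * z := by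
    refine Finset.card_biUnion_le_card_mul _ _ _ ?_
    intro s hs
    exact Finset.card_image_le.trans (hZ s hs).2
  let T : Finset (Finset (V × V) × Finset (V × V) × Finset V) :=
    W.powerset ×ˢ (S ×ˢ S).powerset ×ˢ S.powerset
  have hT : T.card ≤ 2 ^ (S.card * z) * 2 ^ (S.card * S.card) * 2 ^ S.card := by
    simp only [T, Finset.card_product, Finset.card_powerset]
    rw [mul_assoc]
    exact Nat.mul_le_mul_right _ (Nat.pow_le_pow_right (by norm_num) hW)
  refine le_trans ?_ hT
  rw [← Set.ncard_coe_finset]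
  refine Set.ncard_le_ncard_of_injOn
    (fun p => (W.filter fun w => p.1 w.1 w.2, (S ×ˢ S).filter fun w => p.1 w.1 w.2,
      S.filter fun s => p.2 s)) ?_ ?_ (Set.toFinite _)
  · intro p _
    simp only [T, Finset.coe_product, Set.mem_prod, Finset.mem_coe, Finset.mem_powerset]
    exact ⟨Finset.filter_subset _ _, Finset.filter_subset _ _, Finset.filter_subset _ _⟩
  · rintro ⟨E, N⟩ ⟨⟨hp1, hr1⟩, hc1⟩ ⟨E', N'⟩ ⟨⟨hp2, hr2⟩, hc2⟩ heq
    simp only [Prod.mk.injEq] at heq
    obtain ⟨hw, hin, hNN⟩ := heq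
    have hok1 : Ok E N := hP hp1
    have hok2 : Ok E' N' := hP hp2
    have R1 : ∀ a b, a ∉ S → b ∉ S → (E a b ↔ E' a b) := by
      intro a b ha hb
      have h1 := congrFun (congrFun (congrArg Prod.fst (hr1.trans hr2.symm)) a) b
      simp only [res, ha, hb, not_false_eq_true, true_and] at h1
      exact iff_of_eq h1
    have R2 : ∀ a, a ∉ S → (N a ↔ N' a) := by
      intro a ha
      have h1 := congrFun (congrArg Prod.snd (hr1.trans hr2.symm)) a
      simp only [res, ha, not_false_eq_true, true_and] at h1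
      exact iff_of_eq h1
    have R3 : ∀ a ∈ S, ∀ b, b ∉ S → (Adj E a b ↔ g a b) := by
      intro a ha b hb
      have h1 := congrFun (congrFun hc1 a) b
      simp only [code, ha, hb, not_false_eq_true, true_and] at h1
      exact iff_of_eq h1
    have R3' : ∀ a ∈ S, ∀ b, b ∉ S → (Adj E' a b ↔ g a b) := by
      intro a ha b hb
      have h1 := congrFun (congrFun hc2 a) b
      simp only [code, ha, hb, not_false_eq_true, true_and] at h1
      exact iff_of_eq h1
    have hgS : ∀ a b, g a b → a ∈ S ∧ b ∉ S := by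
      intro a b h
      rw [← hc1] at h
      exact ⟨h.1, h.2.1⟩
    have hp'adj : ∀ a b, Adj p'.1 a b → a ∉ S ∧ b ∉ S ∧ Adj E a b := by
      intro a b h
      rw [← hr1] at h
      exact res_adj.1 h
    -- on Z
    have RZ : ∀ s ∈ S, ∀ y ∈ Z s, (E s y ↔ E' s y) := by
      intro s hs y hy
      have hmem : ((s, y) : V × V) ∈ W :=
        Finset.mem_biUnion.2 ⟨s, hs, Finset.mem_image.2 ⟨y, hy, rfl⟩⟩
      have h1 := Finset.ext_iff.1 hw (s, y)
      simp only [Finset.mem_filter, hmem, true_and] at h1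
      exact h1
    -- on all of g s
    have key : ∀ s ∈ S, ∀ y, g s y → E s y → E' s y := by
      intro s hs y hgy hE
      by_contra hE'
      obtain ⟨w, hw1, hw2⟩ := (hZ s hs).1.2 y hgy
      have hyS := (hgS s y hgy).2
      have hE'' : E' y s := ((R3' s hs y hyS).2 hgy).resolve_left hE'
      rcases hw2 with rfl | ⟨t, ht1, ht2⟩
      · exact hE' ((RZ s hs y hw1).1 hE)
      · obtain ⟨h1, h2, h3⟩ := hp'adj _ _ ht1
        obtain ⟨h4, _, h6⟩ := hp'adj _ _ ht2
        have hgw := (hZ s hs).1.1 w hw1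
        have a1 := (R3 s hs w h4).2 hgw
        have a2 := (R3' s hs w h4).2 hgw
        have z1 := RZ s hs w hw1
        have z2 : E w s ↔ E' w s := by
          constructor
          · intro h
            exact a2.resolve_left fun h' => hok1.asymm _ _ h (z1.2 h')
          · intro h
            exact a1.resolve_left fun h' => hok2.asymm _ _ h (z1.1 h')
        exact orient_determined hok1 hok2 h3 h6.symm (R1 _ _ h1 h2) (R1 _ _ h2 h1)
          (R1 _ _ h2 h4) (R1 _ _ h4 h2) z1 z2 a1 hE hE''
    have key' : ∀ s ∈ S, ∀ y, g s y → E' s y → E s y := by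
      intro s hs y hgy hE'
      by_contra hE
      obtain ⟨w, hw1, hw2⟩ := (hZ s hs).1.2 y hgy
      have hyS := (hgS s y hgy).2
      have hE'' : E y s := ((R3 s hs y hyS).2 hgy).resolve_left hE
      rcases hw2 with rfl | ⟨t, ht1, ht2⟩
      · exact hE ((RZ s hs y hw1).2 hE')
      · obtain ⟨h1, h2, h3⟩ := hp'adj _ _ ht1
        obtain ⟨h4, _, h6⟩ := hp'adj _ _ ht2
        have hgw := (hZ s hs).1.1 w hw1
        have a1 := (R3 s hs w h4).2 hgw
        have a2 := (R3' s hs w h4).2 hgw
        have z1 := RZ s hs w hw1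
        have z2 : E w s ↔ E' w s := by
          constructor
          · intro h
            exact a2.resolve_left fun h' => hok1.asymm _ _ h (z1.2 h')
          · intro h
            exact a1.resolve_left fun h' => hok2.asymm _ _ h (z1.1 h')
        have q1 := R1 _ _ h1 h2
        have q2 := R1 _ _ h2 h1
        have q3 := R1 _ _ h2 h4
        have q4 := R1 _ _ h4 h2
        have h3' : Adj E' y t := h3.imp q1.1 q2.1
        have h6' : Adj E' t w := h6.symm.imp q3.1 q4.1
        exact orient_determined hok2 hok1 h3' h6' q1.symm q2.symm q3.symm q4.symm z1.symm z2.symm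
          a2 hE' hE''
    have R4 : ∀ a ∈ S, ∀ b, b ∉ S → (E a b ↔ E' a b) := by
      intro a ha b hb
      constructor
      · intro h
        exact key a ha b ((R3 a ha b hb).1 (Or.inl h)) h
      · intro h
        exact key' a ha b ((R3' a ha b hb).1 (Or.inl h)) h
    have hEE : E = E' := by
      funext a b
      apply propext
      by_cases ha : a ∈ S
      · by_cases hb : b ∈ S
        · have h1 := Finset.ext_iff.1 hin (a, b)
          simp only [Finset.mem_filter, Finset.mem_product, ha, hb, and_self, true_and] at h1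
          exact h1
        · exact R4 a ha b hb
      · by_cases hb : b ∈ S
        · constructor
          · intro h
            have h1 : Adj E' b a := (R3' b hb a ha).2 ((R3 b hb a ha).1 (Or.inr h))
            exact h1.resolve_left fun h' => hok1.asymm _ _ h ((R4 b hb a ha).2 h')
          · intro h
            have h1 : Adj E b a := (R3 b hb a ha).2 ((R3' b hb a ha).1 (Or.inr h))
            exact h1.resolve_left fun h' => hok2.asymm _ _ h ((R4 b hb a ha).1 h')
        · exact R1 a b ha hb
    have hNN' : N = N' := by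
      funext a
      apply propext
      by_cases ha : a ∈ S
      · have h1 := Finset.ext_iff.1 hNN a
        simp only [Finset.mem_filter, ha, true_and] at h1
        exact h1
      · exact R2 a ha
    rw [hEE, hNN']

/-- existence of a small covering set when degrees are at least `d` -/
lemma exists_cov {V : Type*} [Fintype V] [DecidableEq V] (A : V → V → Prop) (Γ : V → Prop)
    (nb : V → Finset V) (hnb : ∀ x y, y ∈ nb x ↔ A x y) (d : ℕ) (hd : 0 < d)
    (hdeg : ∀ y, Γ y → d ≤ (nb y).card) :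
    ∃ Z : Finset V, Cov A Γ Z ∧ Z.card * d ≤ Fintype.card V := by
  classical
  -- maximal family with pairwise disjoint neighbourhoods
  let F : Finset (Finset V) := Finset.univ.filter fun Z =>
    (∀ z ∈ Z, Γ z) ∧ ((Z : Set V).PairwiseDisjoint nb)
  have hF : F.Nonempty := ⟨∅, by simp [F]⟩
  obtain ⟨Z, hZ, hmax⟩ := Finset.exists_max_image F Finset.card hF
  simp only [F, Finset.mem_filter, Finset.mem_univ, true_and] at hZ hmax
  refine ⟨Z, ⟨hZ.1, ?_⟩, ?_⟩
  · intro y hy
    by_contra hcon
    push Not at hcon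
    have hyZ : y ∉ Z := fun h => (hcon y h).1 rfl
    have hd2 : ((insert y Z : Finset V) : Set V).PairwiseDisjoint nb := by
      rw [Finset.coe_insert]
      refine hZ.2.insert ?_
      intro z hz _
      refine Finset.disjoint_left.2 ?_
      intro t ht1 ht2
      exact (hcon z hz).2 t ((hnb _ _).1 ht1) ((hnb _ _).1 ht2)
    have := hmax (insert y Z) ⟨by
      intro z hz
      rcases Finset.mem_insert.1 hz with rfl | h
      · exact hy
      · exact hZ.1 z h, hd2⟩
    rw [Finset.card_insert_of_notMem hyZ] at this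
    omega
  · have h1 : (Z.biUnion nb).card = ∑ z ∈ Z, (nb z).card := Finset.card_biUnion hZ.2
    have h2 : (Z.biUnion nb).card ≤ Fintype.card V := Finset.card_le_univ _
    have h3 : Z.card * d ≤ ∑ z ∈ Z, (nb z).card := by
      rw [← smul_eq_mul]
      exact Finset.card_nsmul_le_sum _ _ _ fun z hz => hdeg z (hZ.1 z hz)
    omega

end IdemCount
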