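import Mathlib
import Pool.Agent.Idem.Ext
set_option autoImplicit false
open Finset

namespace IdemCount

variable {n : ℕ}

open Classical in
noncomputable def nb (p : Str (Fin n)) (x : Fin n) : Finset (Fin n) :=
  univ.filter fun y => Adj p.1 x y

open Classical in
noncomputable def NB (p : Str (Fin n)) (Q : Finset (Fin n)) : Finset (Fin n) := Q.biUnion (nb p)

lemma mem_nb {p : Str (Fin n)} {x y : Fin n} : y ∈ nb p x ↔ Adj p.1 x y := by
  simp [nb]

lemma mem_nb_symm {p : Str (Fin n)} {x y : Fin n} : y ∈ nb p x ↔ x ∈ nb p y := by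
  rw [mem_nb, mem_nb]; exact ⟨Adj.symm, Adj.symm⟩

lemma mem_NB {p : Str (Fin n)} {Q : Finset (Fin n)} {y : Fin n} :
    y ∈ NB p Q ↔ ∃ x ∈ Q, Adj p.1 x y := by
  simp [NB, mem_nb]

lemma adj_irrefl {p : Str (Fin n)} (hp : p ∈ X (Fin n)) (x : Fin n) : ¬ Adj p.1 x x := by
  rintro (h | h) <;> exact hp.asymm _ _ h h

lemma adj_ne {p : Str (Fin n)} (hp : p ∈ X (Fin n)) {x y : Fin n} (h : Adj p.1 x y) : x ≠ y := by
  rintro rfl; exact adj_irrefl hp x h

lemma nb_res {p : Str (Fin n)} {S : Finset (Fin n)} {x : Fin n} (hx : x ∉ S) :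
    nb (res S p) x = nb p x \ S := by
  ext y
  rw [mem_nb, res_adj, Finset.mem_sdiff, mem_nb]
  tauto

lemma NB_res {p : Str (Fin n)} {S Q : Finset (Fin n)} (hQ : Disjoint Q S) :
    NB (res S p) Q = NB p Q \ S := by
  ext y
  rw [mem_NB, Finset.mem_sdiff, mem_NB]
  constructor
  · rintro ⟨x, hx, h⟩
    rw [res_adj] at h
    exact ⟨⟨x, hx, h.2.2⟩, h.2.1⟩
  · rintro ⟨⟨x, hx, h⟩, h2⟩
    exact ⟨x, hx, res_adj.2 ⟨Finset.disjoint_left.1 hQ hx, h2, h⟩⟩

/-- degree condition -/
def Deg (p : Str (Fin n)) : Prop := ∀ y, n < 16 * (nb p y).card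

lemma cov_of_deg {p : Str (Fin n)} {S : Finset (Fin n)} (hdeg : Deg p)
    (hS : 32 * S.card ≤ n) : ∀ s ∈ S, ∃ Z : Finset (Fin n),
      Cov (Adj (res S p).1) (code S p s) Z ∧ Z.card ≤ 32 := by
  intro s hs
  obtain ⟨Z, h1, h2⟩ := exists_cov (Adj (res S p).1) (code S p s) (nb (res S p))
    (fun x y => mem_nb) (n / 32 + 1) (Nat.succ_pos _) (by
      intro y hy
      have hyS : y ∉ S := hy.2.1
      rw [nb_res hyS]
      have h1 := hdeg y
      have h2 : (nb p y).card ≤ (nb p y \ S).card + S.card := by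
        have := Finset.card_le_card_sdiff_add_card (s := nb p y) (t := S)
        omega
      omega)
  refine ⟨Z, h1, ?_⟩
  rw [Fintype.card_fin] at h2
  by_contra hcon
  push Not at hcon
  have h3 : 33 * (n / 32 + 1) ≤ Z.card * (n / 32 + 1) := Nat.mul_le_mul_right _ hcon
  omega

theorem single_bound (x : Fin n) (z m : ℕ) (P : Set (Str (Fin n))) (hP : P ⊆ X (Fin n))
    (F : Str (Fin n) → Finset (Finset (Fin n))) (hF : ∀ p', (F p').card ≤ m)
    (h : ∀ p ∈ P, nb p x ∈ F (res {x} p))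
    (hcov : ∀ p ∈ P, ∃ Z : Finset (Fin n),
      Cov (Adj (res {x} p).1) (code {x} p x) Z ∧ Z.card ≤ z) :
    P.ncard ≤ xn (n - 1) * (m * (2 ^ z * 4)) := by
  classical
  have := ext_core ({x} : Finset (Fin n)) z m P hP
    (fun p' => (fun (Γ : Finset (Fin n)) (a b : Fin n) => a = x ∧ b ≠ x ∧ b ∈ Γ) ''
      (F p' : Set (Finset (Fin n)))) (by
      intro p'
      refine (Set.ncard_image_le (Finset.finite_toSet _)).trans ?_
      rw [Set.ncard_coe_finset]
      exact hF p') (by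
      intro p hp
      refine ⟨nb p x, h p hp, ?_⟩
      funext a b
      apply propext
      simp only [code, Finset.mem_singleton, mem_nb]
      constructor
      · rintro ⟨rfl, h1, h2⟩; exact ⟨rfl, h1, h2⟩
      · rintro ⟨rfl, h1, h2⟩; exact ⟨rfl, h1, h2⟩) (by
      intro p hp s hs
      rw [Finset.mem_singleton] at hs
      subst hs
      exact hcov p hp)
  refine this.trans ?_
  refine Nat.mul_le_mul ?_ ?_
  · have := card_XS ({x} : Finset (Fin n))
    simpa using this
  · refine Nat.mul_le_mul_left _ ?_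
    simp only [Finset.card_singleton, one_mul, mul_one]
    rw [mul_assoc]
    norm_num

/-- small sets -/
def small (n k : ℕ) : Finset (Finset (Fin n)) := univ.filter fun Γ => k * Γ.card ≤ n

/-! ### class A -/

def clA (n : ℕ) : Set (Str (Fin n)) := {p | p ∈ X (Fin n) ∧ ∃ x, 16 * (nb p x).card ≤ n}

theorem card_clA (n : ℕ) :
    (clA n).ncard ≤ n * (xn (n - 1) * ((small n 16).card * (2 ^ (n / 16) * 4))) := by
  have h := ncard_exists_le (fun (x : Fin n) (p : Str (Fin n)) =>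
    p ∈ X (Fin n) ∧ 16 * (nb p x).card ≤ n)
    (xn (n - 1) * ((small n 16).card * (2 ^ (n / 16) * 4))) (by
      intro x
      refine single_bound x (n / 16) _ _ (fun p hp => hp.1) (fun _ => small n 16)
        (fun _ => le_rfl) ?_ ?_
      · rintro p ⟨_, h2⟩
        simp only [small, Finset.mem_filter, Finset.mem_univ, true_and]
        exact h2
      · rintro p ⟨h1, h2⟩
        refine ⟨nb p x, ⟨?_, ?_⟩, ?_⟩
        · intro z hz
          rw [mem_nb] at hz
          exact ⟨Finset.mem_singleton_self _, by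
            rw [Finset.mem_singleton]; exact (adj_ne h1 hz).symm, hz⟩
        · rintro y ⟨_, _, hy⟩
          exact ⟨y, mem_nb.2 hy, Or.inl rfl⟩
        · omega)
  rw [Fintype.card_fin] at h
  refine le_trans (Set.ncard_le_ncard ?_ (Set.toFinite _)) h
  rintro p ⟨h1, x, h2⟩
  exact ⟨x, h1, h2⟩

/-! ### class B -/

def clB (n q : ℕ) : Set (Str (Fin n)) := {p | p ∈ X (Fin n) ∧ Deg p ∧
  ∃ x, ∃ Q ⊆ nb p x, Q.card = q ∧ 2000 * (NB p Q).card < 999 * n}

lemma ncard_rel_le {n : ℕ} (Q R : Finset (Fin n)) :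
    {g : Fin n → Fin n → Prop | ∀ a b, g a b → a ∈ Q ∧ b ∈ R}.ncard ≤ 2 ^ (Q.card * R.card) := by
  classical
  have : 2 ^ (Q.card * R.card) = (Q ×ˢ R).powerset.card := by
    rw [Finset.card_powerset, Finset.card_product]
  rw [this, ← Set.ncard_coe_finset]
  refine Set.ncard_le_ncard_of_injOn (fun g => (Q ×ˢ R).filter fun w => g w.1 w.2) ?_ ?_
    (Set.toFinite _)
  · intro g _
    simp only [Finset.mem_coe, Finset.mem_powerset]
    exact Finset.filter_subset _ _
  · intro g hg g' hg' heq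
    funext a b
    apply propext
    have h1 := Finset.ext_iff.1 heq (a, b)
    simp only [Finset.mem_filter, Finset.mem_product] at h1
    constructor
    · intro h; exact (h1.1 ⟨hg a b h, h⟩).2
    · intro h; exact (h1.2 ⟨hg' a b h, h⟩).2

theorem card_clB (n q : ℕ) (hq : 32 * q ≤ n) :
    (clB n q).ncard ≤ (n.choose q * 2 ^ n) * (xn (n - q) *
      (2 ^ (q * (999 * n / 2000)) * (2 ^ (q * 32) * 2 ^ (q * q) * 2 ^ q))) := by
  classical
  have h := ncard_exists_le (ι := {Q : Finset (Fin n) // Q ∈ powersetCard q (univ : Finset (Fin n))} × Finset (Fin n))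
    (fun i (p : Str (Fin n)) =>
    p ∈ X (Fin n) ∧ Deg p ∧ (∃ x, (i.1 : Finset (Fin n)) ⊆ nb p x) ∧ NB p i.1 = i.2 ∧ 2000 * (i.2).card < 999 * n)
    (xn (n - q) * (2 ^ (q * (999 * n / 2000)) * (2 ^ (q * 32) * 2 ^ (q * q) * 2 ^ q))) (by
      rintro ⟨⟨Q, hQ⟩, R⟩
      simp only
      rw [Finset.mem_powersetCard] at hQ
      obtain ⟨-, hQ⟩ := hQ
      by_cases hR : 2000 * R.card < 999 * n
      swap
      · have : {p : Str (Fin n) | p ∈ X (Fin n) ∧ Deg p ∧ (∃ x, Q ⊆ nb p x) ∧ NB p Q = R ∧ 2000 * R.card < 999 * n} = ∅ := by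
          ext p; simp only [Set.mem_ofPred_eq, Set.mem_empty_iff_false, iff_false]
          rintro ⟨_, _, _, _, h⟩; exact hR h
        rw [this]; simp
      have := ext_core Q 32 (2 ^ (q * (999 * n / 2000)))
        {p : Str (Fin n) | p ∈ X (Fin n) ∧ Deg p ∧ (∃ x, Q ⊆ nb p x) ∧ NB p Q = R ∧ 2000 * R.card < 999 * n}
        (fun p hp => hp.1) (fun _ => {g | ∀ a b, g a b → a ∈ Q ∧ b ∈ R}) (by
          intro _
          refine (ncard_rel_le Q R).trans (Nat.pow_le_pow_right (by norm_num) ?_)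
          rw [hQ]
          refine Nat.mul_le_mul_left _ ?_
          omega) (by
          rintro p ⟨_, _, _, h4, _⟩ a b ⟨h5, _, h6⟩
          refine ⟨h5, ?_⟩
          rw [← h4, mem_NB]
          exact ⟨a, h5, h6⟩) (by
          rintro p ⟨h1, h2, _⟩ s hs
          exact cov_of_deg h2 (by rw [hQ]; exact hq) s hs)
      refine this.trans ?_
      rw [hQ]
      refine Nat.mul_le_mul_right _ ?_
      have := card_XS Q
      rwa [hQ] at this)
  have hc : Fintype.card ({Q : Finset (Fin n) // Q ∈ powersetCard q (univ : Finset (Fin n))} × Finset (Fin n))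
      = n.choose q * 2 ^ n := by
    rw [Fintype.card_prod, Fintype.card_coe, Finset.card_powersetCard, Finset.card_univ,
      Fintype.card_fin, Fintype.card_finset, Fintype.card_fin]
  rw [hc] at h
  refine le_trans (Set.ncard_le_ncard ?_ (Set.toFinite _)) h
  rintro p ⟨h1, h2, x, Q, hQ, hQ', h3⟩
  exact ⟨(⟨Q, Finset.mem_powersetCard.2 ⟨Finset.subset_univ _, hQ'⟩⟩, NB p Q), h1, h2, ⟨x, hQ⟩, rfl, h3⟩

end IdemCount
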