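import Mathlib
import Pool.Agent.Idem.Classes
set_option autoImplicit false
open Finset

namespace IdemCount

variable {n : ℕ}

/-- Condition F1 -/
def F1 (q : ℕ) (p : Str (Fin n)) : Prop :=
  ∀ x, ∀ Q ⊆ nb p x, Q.card = q → 999 * n ≤ 2000 * (NB p Q).card

lemma nb_disjoint_NB {p : Str (Fin n)} (hp : p ∈ X (Fin n)) {x : Fin n} {Q : Finset (Fin n)}
    (hQ : Q ⊆ nb p x) : Disjoint (nb p x) (NB p Q) := by
  rw [Finset.disjoint_left]
  intro y hy hy'
  rw [mem_NB] at hy'
  obtain ⟨z, hz, hzy⟩ := hy'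
  exact hp.tri x z y (mem_nb.1 (hQ hz)) hzy (mem_nb.1 hy).symm

/-! ### class C -/

def clC (n q : ℕ) : Set (Str (Fin n)) := {p | p ∈ X (Fin n) ∧ Deg p ∧ F1 q p ∧
  ∃ x y, Adj p.1 x y ∧ ∃ Q ⊆ nb p x \ {y}, Q.card = q ∧ ∃ Q' ⊆ nb p y \ {x}, Q'.card = q ∧
    n ≤ 500 * (NB p Q ∩ NB p Q').card}

/-- two-vertex adjacency codes -/
lemma ncard_two_le {n : ℕ} (x y : Fin n) (hxy : x ≠ y) (R R' : Finset (Fin n)) :
    {g : Fin n → Fin n → Prop | (∀ a b, g a b → (a = x ∧ b ∉ R) ∨ (a = y ∧ b ∉ R')) ∧
      ∀ b, ¬ (g x b ∧ g y b)}.ncard ≤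
    2 ^ (R \ R').card * 2 ^ (R' \ R).card * 3 ^ ((R ∪ R')ᶜ).card := by
  classical
  -- encode by: subset of R' \ R (for x), subset of R \ R' (for y), function on the rest to Fin 3
  have hcard : 2 ^ (R \ R').card * 2 ^ (R' \ R).card * 3 ^ ((R ∪ R')ᶜ).card =
      Nat.card ((R \ R').powerset × (R' \ R).powerset × (((R ∪ R')ᶜ : Finset (Fin n)) → Fin 3)) := by
    rw [Nat.card_prod, Nat.card_prod, Nat.card_eq_fintype_card, Nat.card_eq_fintype_card,
      Nat.card_eq_fintype_card, Fintype.card_coe, Fintype.card_coe, Finset.card_powerset,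
      Finset.card_powerset, Fintype.card_fun, Fintype.card_fin, Fintype.card_coe, mul_assoc]
  rw [hcard, ← Set.ncard_univ]
  refine Set.ncard_le_ncard_of_injOn
    (fun g => (⟨(R \ R').filter fun b => g y b, Finset.mem_powerset.2 (Finset.filter_subset _ _)⟩,
      ⟨(R' \ R).filter fun b => g x b, Finset.mem_powerset.2 (Finset.filter_subset _ _)⟩,
      fun b => if g x b then 0 else if g y b then 1 else 2)) (fun _ _ => Set.mem_univ _) ?_
    (Set.toFinite _)
  rintro g ⟨hg1, hg2⟩ g' ⟨hg1', hg2'⟩ heq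
  simp only [Prod.mk.injEq, Subtype.mk.injEq] at heq
  obtain ⟨h1, h2, h3⟩ := heq
  have hx : ∀ b, g x b ↔ g' x b := by
    intro b
    by_cases hb : b ∈ R
    · constructor
      · intro h; rcases hg1 x b h with h' | h'
        · exact absurd hb h'.2
        · exact absurd h'.1 hxy
      · intro h; rcases hg1' x b h with h' | h'
        · exact absurd hb h'.2
        · exact absurd h'.1 hxy
    · by_cases hb' : b ∈ R'
      · have := Finset.ext_iff.1 h2 b
        simp only [Finset.mem_filter, Finset.mem_sdiff, hb, hb', not_false_eq_true, and_self,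
          true_and] at this
        exact this
      · have := congrFun h3 ⟨b, by simp [hb, hb']⟩
        simp only at this
        by_cases c1 : g x b
        · by_cases c2 : g' x b
          · exact ⟨fun _ => c2, fun _ => c1⟩
          · rw [if_pos c1, if_neg c2] at this
            split_ifs at this <;> simp at this
        · by_cases c2 : g' x b
          · rw [if_pos c2, if_neg c1] at this
            split_ifs at this <;> simp at this
          · exact ⟨fun h => absurd h c1, fun h => absurd h c2⟩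
  have hy : ∀ b, g y b ↔ g' y b := by
    intro b
    by_cases hb : b ∈ R'
    · constructor
      · intro h; rcases hg1 y b h with h' | h'
        · exact absurd h'.1.symm hxy
        · exact absurd hb h'.2
      · intro h; rcases hg1' y b h with h' | h'
        · exact absurd h'.1.symm hxy
        · exact absurd hb h'.2
    · by_cases hb' : b ∈ R
      · have := Finset.ext_iff.1 h1 b
        simp only [Finset.mem_filter, Finset.mem_sdiff, hb, hb', not_false_eq_true, and_self,
          true_and] at this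
        exact this
      · have := congrFun h3 ⟨b, by simp [hb, hb']⟩
        simp only at this
        by_cases c0 : g x b
        · have c0' := (hx b).1 c0
          exact ⟨fun h => absurd ⟨c0, h⟩ (hg2 b), fun h => absurd ⟨c0', h⟩ (hg2' b)⟩
        · have c0' : ¬ g' x b := fun h => c0 ((hx b).2 h)
          rw [if_neg c0, if_neg c0'] at this
          by_cases c1 : g y b
          · by_cases c2 : g' y b
            · exact ⟨fun _ => c2, fun _ => c1⟩
            · rw [if_pos c1, if_neg c2] at this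
              simp at this
          · by_cases c2 : g' y b
            · rw [if_pos c2, if_neg c1] at this
              simp at this
            · exact ⟨fun h => absurd h c1, fun h => absurd h c2⟩
  funext a b
  apply propext
  constructor
  · intro h
    rcases hg1 a b h with h' | h'
    · rw [h'.1] at h ⊢; exact (hx b).1 h
    · rw [h'.1] at h ⊢; exact (hy b).1 h
  · intro h
    rcases hg1' a b h with h' | h'
    · rw [h'.1] at h ⊢; exact (hx b).2 h
    · rw [h'.1] at h ⊢; exact (hy b).2 h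

/-- arithmetic for class C. -/
lemma class_C_arith {n : ℕ} (R R' : Finset (Fin n)) (h1 : 999 * n ≤ 2000 * R.card + 4000)
    (h2 : 999 * n ≤ 2000 * R'.card + 4000) (h3 : n ≤ 500 * (R ∩ R').card + 1000) :
    ∃ e : ℕ, 1000 * e ≤ 4999 * n + 20000 ∧
    (2 ^ (R \ R').card * 2 ^ (R' \ R).card * 3 ^ ((R ∪ R')ᶜ).card) ^ 5 ≤ 2 ^ e := by
  classical
  have e1 : (R \ R').card + (R ∩ R').card = R.card := Finset.card_sdiff_add_card_inter R R'
  have e2 : (R' \ R).card + (R ∩ R').card = R'.card := by
    rw [Finset.inter_comm]; exact Finset.card_sdiff_add_card_inter R' R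
  have e3 : (R ∪ R').card + (R ∩ R').card = R.card + R'.card := Finset.card_union_add_card_inter R R'
  have e4 : ((R ∪ R')ᶜ).card + (R ∪ R').card = n := by
    rw [Finset.card_compl, Fintype.card_fin]
    have : (R ∪ R').card ≤ n := (Finset.card_le_univ _).trans_eq (Fintype.card_fin n)
    omega
  set a := (R \ R').card
  set b := (R' \ R).card
  set c := ((R ∪ R')ᶜ).card
  have h5 : (3 ^ c) ^ 5 ≤ (2 ^ c) ^ 8 := by
    rw [← pow_mul, ← pow_mul, mul_comm c 5, mul_comm c 8, pow_mul, pow_mul]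
    exact Nat.pow_le_pow_left (by norm_num) c
  refine ⟨5 * a + 5 * b + 8 * c, by omega, ?_⟩
  calc (2 ^ a * 2 ^ b * 3 ^ c) ^ 5 = (2 ^ a) ^ 5 * (2 ^ b) ^ 5 * (3 ^ c) ^ 5 := by
        rw [mul_pow, mul_pow]
    _ ≤ (2 ^ a) ^ 5 * (2 ^ b) ^ 5 * (2 ^ c) ^ 8 := Nat.mul_le_mul_left _ h5
    _ = 2 ^ (5 * a + 5 * b + 8 * c) := by
        rw [← pow_mul, ← pow_mul, ← pow_mul, ← pow_add, ← pow_add]; congr 1; ring

/-- bound for class C -/
noncomputable def rootC (n : ℕ) : ℕ := Nat.floor ((2 : ℝ) ^ ((4999 * (n : ℝ) + 20000) / 5000))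

lemma le_rootC {n a : ℕ} (h : ∃ e : ℕ, 1000 * e ≤ 4999 * n + 20000 ∧ a ^ 5 ≤ 2 ^ e) :
    a ≤ rootC n := by
  obtain ⟨e, he, h⟩ := h
  refine Nat.le_floor ?_
  have h1 : ((a : ℝ)) ^ (5 : ℕ) ≤ ((2 : ℝ) ^ ((4999 * (n : ℝ) + 20000) / 5000)) ^ (5 : ℕ) := by
    rw [← Real.rpow_natCast ((2 : ℝ) ^ ((4999 * (n : ℝ) + 20000) / 5000)), ← Real.rpow_mul (by norm_num)]
    have h2 : ((a : ℝ)) ^ (5 : ℕ) ≤ (2 : ℝ) ^ ((e : ℕ) : ℝ) := by
      rw [Real.rpow_natCast]; exact_mod_cast h
    refine h2.trans (Real.rpow_le_rpow_of_exponent_le (by norm_num) ?_)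
    have h3 : (1000 : ℝ) * e ≤ 4999 * n + 20000 := by exact_mod_cast he
    push_cast
    linarith
  exact le_of_pow_le_pow_left₀ (by norm_num) (by positivity) h1

theorem card_clC (n q : ℕ) (hq : 64 ≤ n) :
    (clC n q).ncard ≤ (n * n * (n.choose q * n.choose q)) * (xn (n - 2) *
      (rootC n * (2 ^ (2 * 32) * 2 ^ (2 * 2) * 2 ^ 2))) := by
  classical
  have h := ncard_exists_le (ι := (Fin n × Fin n) × ({Q : Finset (Fin n) // Q ∈ powersetCard q (univ : Finset (Fin n))} ×
      {Q : Finset (Fin n) // Q ∈ powersetCard q (univ : Finset (Fin n))}))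
    (fun i (p : Str (Fin n)) =>
    p ∈ X (Fin n) ∧ Deg p ∧ F1 q p ∧ Adj p.1 i.1.1 i.1.2 ∧ (i.2.1 : Finset (Fin n)) ⊆ nb p i.1.1 \ {i.1.2} ∧
      (i.2.2 : Finset (Fin n)) ⊆ nb p i.1.2 \ {i.1.1} ∧ n ≤ 500 * (NB p i.2.1 ∩ NB p i.2.2).card)
    (xn (n - 2) * (rootC n * (2 ^ (2 * 32) * 2 ^ (2 * 2) * 2 ^ 2))) (by
      rintro ⟨⟨x, y⟩, ⟨Q, hQ⟩, ⟨Q', hQ'⟩⟩
      simp only
      rw [Finset.mem_powersetCard] at hQ hQ'
      obtain ⟨-, hQ⟩ := hQ
      obtain ⟨-, hQ'⟩ := hQ'
      set P : Set (Str (Fin n)) := {p | p ∈ X (Fin n) ∧ Deg p ∧ F1 q p ∧ Adj p.1 x y ∧ Q ⊆ nb p x \ {y} ∧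
        Q' ⊆ nb p y \ {x} ∧ n ≤ 500 * (NB p Q ∩ NB p Q').card} with hP
      by_cases hxy : x = y
      · have : P = ∅ := by
          ext p; simp only [hP, Set.mem_ofPred_eq, Set.mem_empty_iff_false, iff_false]
          rintro ⟨h1, _, _, h4, _⟩
          exact adj_ne h1 h4 hxy
        rw [this]; simp
      have hS : ({x, y} : Finset (Fin n)).card = 2 := Finset.card_pair hxy
      have := ext_core ({x, y} : Finset (Fin n)) 32 (rootC n) P
        (fun p hp => hp.1) (fun p' => {g | (999 * n ≤ 2000 * (NB p' Q).card + 4000 ∧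
          999 * n ≤ 2000 * (NB p' Q').card + 4000 ∧ n ≤ 500 * (NB p' Q ∩ NB p' Q').card + 1000) ∧
          (∀ a b, g a b → (a = x ∧ b ∉ NB p' Q) ∨ (a = y ∧ b ∉ NB p' Q')) ∧
            ∀ b, ¬ (g x b ∧ g y b)}) (by
          intro p'
          by_cases hc : (999 * n ≤ 2000 * (NB p' Q).card + 4000 ∧
            999 * n ≤ 2000 * (NB p' Q').card + 4000 ∧ n ≤ 500 * (NB p' Q ∩ NB p' Q').card + 1000)
          · refine le_trans ?_ ((ncard_two_le x y hxy (NB p' Q) (NB p' Q')).trans
              (le_rootC (class_C_arith _ _ hc.1 hc.2.1 hc.2.2)))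
            exact Set.ncard_le_ncard (fun g hg => hg.2) (Set.toFinite _)
          · have : {g : Fin n → Fin n → Prop | (999 * n ≤ 2000 * (NB p' Q).card + 4000 ∧
              999 * n ≤ 2000 * (NB p' Q').card + 4000 ∧ n ≤ 500 * (NB p' Q ∩ NB p' Q').card + 1000) ∧
              (∀ a b, g a b → (a = x ∧ b ∉ NB p' Q) ∨ (a = y ∧ b ∉ NB p' Q')) ∧
                ∀ b, ¬ (g x b ∧ g y b)} = ∅ := by
              ext g; simp only [Set.mem_ofPred_eq, Set.mem_empty_iff_false, iff_false]
              rintro ⟨h, _⟩; exact hc h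
            rw [this]; simp) (by
          rintro p ⟨h1, h2, h3, h4, h5, h6, h7⟩
          have hxQ : Disjoint Q ({x, y} : Finset (Fin n)) := by
            rw [Finset.disjoint_left]
            intro z hz hz'
            have h8 := h5 hz
            rw [Finset.mem_sdiff, mem_nb, Finset.mem_singleton] at h8
            rw [Finset.mem_insert, Finset.mem_singleton] at hz'
            rcases hz' with rfl | h9
            · exact adj_irrefl h1 _ h8.1
            · exact h8.2 h9
          have hyQ : Disjoint Q' ({x, y} : Finset (Fin n)) := by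
            rw [Finset.disjoint_left]
            intro z hz hz'
            have h8 := h6 hz
            rw [Finset.mem_sdiff, mem_nb, Finset.mem_singleton] at h8
            rw [Finset.mem_insert, Finset.mem_singleton] at hz'
            rcases hz' with h9 | rfl
            · exact h8.2 h9
            · exact adj_irrefl h1 _ h8.1
          have hQx : Q ⊆ nb p x := h5.trans Finset.sdiff_subset
          have hQy : Q' ⊆ nb p y := h6.trans Finset.sdiff_subset
          rw [Set.mem_ofPred_eq, NB_res hxQ, NB_res hyQ]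
          refine ⟨⟨?_, ?_, ?_⟩, ?_, ?_⟩
          · have h8 := h3 x Q hQx hQ
            have h9 := Finset.card_le_card_sdiff_add_card (s := NB p Q) (t := ({x, y} : Finset (Fin n)))
            omega
          · have h8 := h3 y Q' hQy hQ'
            have h9 := Finset.card_le_card_sdiff_add_card (s := NB p Q') (t := ({x, y} : Finset (Fin n)))
            omega
          · have h9 := Finset.card_le_card_sdiff_add_card (s := NB p Q ∩ NB p Q') (t := ({x, y} : Finset (Fin n)))
            have h10 : (NB p Q ∩ NB p Q') \ {x, y} = (NB p Q \ {x, y}) ∩ (NB p Q' \ {x, y}) := by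
              ext z; simp only [Finset.mem_sdiff, Finset.mem_inter]; tauto
            rw [h10] at h9
            omega
          · rintro a b ⟨h8, h9, h10⟩
            rw [Finset.mem_insert, Finset.mem_singleton] at h8
            rcases h8 with rfl | rfl
            · refine Or.inl ⟨rfl, fun h11 => ?_⟩
              exact Finset.disjoint_left.1 (nb_disjoint_NB h1 hQx) (mem_nb.2 h10) (Finset.mem_sdiff.1 h11).1
            · refine Or.inr ⟨rfl, fun h11 => ?_⟩
              exact Finset.disjoint_left.1 (nb_disjoint_NB h1 hQy) (mem_nb.2 h10) (Finset.mem_sdiff.1 h11).1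
          · rintro b ⟨⟨_, _, h8⟩, ⟨_, _, h9⟩⟩
            exact h1.tri x y b h4 h9 h8.symm) (by
          rintro p ⟨h1, h2, _⟩ s hs
          exact cov_of_deg h2 (by rw [hS]; omega) s hs)
      refine this.trans ?_
      rw [hS]
      refine Nat.mul_le_mul_right _ ?_
      have := card_XS ({x, y} : Finset (Fin n))
      rwa [hS] at this)
  have hc : Fintype.card ((Fin n × Fin n) × ({Q : Finset (Fin n) // Q ∈ powersetCard q (univ : Finset (Fin n))} ×
      {Q : Finset (Fin n) // Q ∈ powersetCard q (univ : Finset (Fin n))}))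
      = n * n * (n.choose q * n.choose q) := by
    rw [Fintype.card_prod, Fintype.card_prod, Fintype.card_prod, Fintype.card_coe,
      Finset.card_powersetCard, Finset.card_univ, Fintype.card_fin]
  rw [hc] at h
  refine le_trans (Set.ncard_le_ncard ?_ (Set.toFinite _)) h
  rintro p ⟨h1, h2, h3, x, y, h4, Q, hQ, hQ', R, hR, hR', h5⟩
  exact ⟨((x, y), (⟨Q, Finset.mem_powersetCard.2 ⟨Finset.subset_univ _, hQ'⟩⟩,
    ⟨R, Finset.mem_powersetCard.2 ⟨Finset.subset_univ _, hR'⟩⟩)), h1, h2, h3, h4, hQ, hR, h5⟩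

end IdemCount
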