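import Mathlib
import Pool.Agent.Idem.Classes2
set_option autoImplicit false
open Finset

namespace IdemCount

variable {n : ℕ}

/-- common set-up of classes E2, E3 -/
def clE2 (n q : ℕ) : Set (Str (Fin n)) := {p | p ∈ X (Fin n) ∧ Deg p ∧ F1 q p ∧
  ∃ x x', x ≠ x' ∧ ∃ Q ⊆ nb p x, Q.card = q ∧ Disjoint (nb p x') (NB p Q) ∧
    512 * (nb p x ∩ nb p x').card ≤ n}

def clE3 (n q : ℕ) : Set (Str (Fin n)) := {p | p ∈ X (Fin n) ∧ Deg p ∧ F1 q p ∧
  ∃ x x' x'', x ≠ x' ∧ x ≠ x'' ∧ ∃ Q ⊆ nb p x, Q.card = q ∧ Disjoint (nb p x') (NB p Q) ∧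
    n < 512 * (nb p x' ∩ nb p x'').card ∧ nb p x ∩ (nb p x' ∩ nb p x'') = ∅}

lemma card_disj_small (R M : Finset (Fin n)) :
    (univ.filter fun Γ : Finset (Fin n) => Disjoint Γ R ∧ 512 * (Γ ∩ M).card ≤ n).card ≤
      (small n 512).card * 2 ^ ((R ∪ M)ᶜ).card := by
  classical
  have : (small n 512).card * 2 ^ ((R ∪ M)ᶜ).card = (small n 512 ×ˢ ((R ∪ M)ᶜ).powerset).card := by
    rw [Finset.card_product, Finset.card_powerset]
  rw [this]
  refine Finset.card_le_card_of_injOn (fun Γ => (Γ ∩ M, Γ \ M)) ?_ ?_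
  · intro Γ hΓ
    simp only [Finset.coe_filter, Finset.mem_univ, true_and, Set.mem_setOf_eq] at hΓ
    simp only [Finset.coe_product, Set.mem_prod, Finset.mem_coe, Finset.mem_powerset, small,
      Finset.mem_filter, Finset.mem_univ, true_and]
    refine ⟨hΓ.2, ?_⟩
    intro y hy
    rw [Finset.mem_sdiff] at hy
    rw [Finset.mem_compl, Finset.mem_union]
    rintro (h | h)
    · exact Finset.disjoint_left.1 hΓ.1 hy.1 h
    · exact hy.2 h
  · intro Γ _ Γ' _ h
    simp only [Prod.mk.injEq] at h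
    ext y
    have h1 := Finset.ext_iff.1 h.1 y
    have h2 := Finset.ext_iff.1 h.2 y
    simp only [Finset.mem_inter, Finset.mem_sdiff] at h1 h2
    tauto

lemma card_disj (R : Finset (Fin n)) :
    (univ.filter fun Γ : Finset (Fin n) => Disjoint Γ R).card ≤ 2 ^ (Rᶜ).card := by
  classical
  rw [← Finset.card_powerset]
  refine Finset.card_le_card ?_
  intro Γ hΓ
  simp only [Finset.mem_filter, Finset.mem_univ, true_and] at hΓ
  rw [Finset.mem_powerset]
  intro y hy
  rw [Finset.mem_compl]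
  exact Finset.disjoint_left.1 hΓ hy

lemma card_compl_union {R M : Finset (Fin n)} (h : Disjoint R M) :
    ((R ∪ M)ᶜ).card + R.card + M.card = n := by
  classical
  have h1 : (R ∪ M).card = R.card + M.card := Finset.card_union_of_disjoint h
  have h2 : ((R ∪ M)ᶜ).card + (R ∪ M).card = n := by
    rw [Finset.card_compl, Fintype.card_fin]
    have : (R ∪ M).card ≤ n := (Finset.card_le_univ _).trans_eq (Fintype.card_fin n)
    omega
  omega

theorem card_clE2 (n q : ℕ) (hn : 32 ≤ n) (hq1 : 1 ≤ q) :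
    (clE2 n q).ncard ≤ (n * n * n.choose q) * (xn (n - 1) *
      (((small n 512).card * 2 ^ (n - 999 * n / 2000 - n / 16 + 1)) * (2 ^ 32 * 4))) := by
  classical
  have h := ncard_exists_le (ι := (Fin n × Fin n) × {Q : Finset (Fin n) // Q ∈ powersetCard q (univ : Finset (Fin n))})
    (fun i (p : Str (Fin n)) =>
    p ∈ X (Fin n) ∧ Deg p ∧ F1 q p ∧ i.1.1 ≠ i.1.2 ∧ (i.2 : Finset (Fin n)) ⊆ nb p i.1.1 ∧
      Disjoint (nb p i.1.2) (NB p i.2) ∧ 512 * (nb p i.1.1 ∩ nb p i.1.2).card ≤ n)
    (xn (n - 1) *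
      (((small n 512).card * 2 ^ (n - 999 * n / 2000 - n / 16 + 1)) * (2 ^ 32 * 4))) (by
      rintro ⟨⟨x, x'⟩, ⟨Q, hQ⟩⟩
      simp only
      rw [Finset.mem_powersetCard] at hQ
      obtain ⟨-, hQ⟩ := hQ
      refine single_bound x 32 _ _ (fun p hp => hp.1)
        (fun p' => if (999 * n ≤ 2000 * (NB p' Q).card + 2000 ∧ n < 16 * (nb p' x').card ∧
          Disjoint (NB p' Q) (nb p' x')) then
            univ.filter fun Γ : Finset (Fin n) => Disjoint Γ (NB p' Q) ∧ 512 * (Γ ∩ nb p' x').card ≤ n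
          else ∅) ?_ ?_ ?_
      · intro p'
        split_ifs with hc
        · refine (card_disj_small _ _).trans (Nat.mul_le_mul_left _ (Nat.pow_le_pow_right (by norm_num) ?_))
          have := card_compl_union hc.2.2
          omega
        · simp
      · rintro p ⟨h1, h2, h3, h4, h5, h6, h7⟩
        have hxQ : Disjoint Q ({x} : Finset (Fin n)) := by
          rw [Finset.disjoint_singleton_right]
          intro hx
          exact adj_irrefl h1 x (mem_nb.1 (h5 hx))
        have hne : Q.Nonempty := by rw [← Finset.card_pos]; omega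
        have hxNB : x ∈ NB p Q := by
          obtain ⟨z, hz⟩ := hne
          exact mem_NB.2 ⟨z, hz, (mem_nb.1 (h5 hz)).symm⟩
        have hxx' : x ∉ nb p x' := fun h => Finset.disjoint_left.1 h6 h hxNB
        have e1 : nb (res {x} p) x' = nb p x' := by
          rw [nb_res (by rw [Finset.mem_singleton]; exact h4.symm)]
          exact Finset.sdiff_eq_self_of_disjoint (by rw [Finset.disjoint_singleton_right]; exact hxx')
        have e2 : NB (res {x} p) Q = NB p Q \ {x} := NB_res hxQ
        rw [e1, e2]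
        rw [if_pos]
        · simp only [Finset.mem_filter, Finset.mem_univ, true_and]
          exact ⟨(nb_disjoint_NB h1 h5).mono_right Finset.sdiff_subset, h7⟩
        · refine ⟨?_, h2 x', (h6.symm).mono_left Finset.sdiff_subset⟩
          have h8 := h3 x Q h5 hQ
          have h9 := Finset.card_le_card_sdiff_add_card (s := NB p Q) (t := ({x} : Finset (Fin n)))
          rw [Finset.card_singleton] at h9
          omega
      · rintro p ⟨h1, h2, _⟩
        exact cov_of_deg h2 (by rw [Finset.card_singleton]; omega) x (Finset.mem_singleton_self x))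
  have hc : Fintype.card ((Fin n × Fin n) × {Q : Finset (Fin n) // Q ∈ powersetCard q (univ : Finset (Fin n))})
      = n * n * n.choose q := by
    rw [Fintype.card_prod, Fintype.card_prod, Fintype.card_coe,
      Finset.card_powersetCard, Finset.card_univ, Fintype.card_fin]
  rw [hc] at h
  refine le_trans (Set.ncard_le_ncard ?_ (Set.toFinite _)) h
  rintro p ⟨h1, h2, h3, x, x', h4, Q, hQ, hQ', h5, h6⟩
  exact ⟨((x, x'), ⟨Q, Finset.mem_powersetCard.2 ⟨Finset.subset_univ _, hQ'⟩⟩), h1, h2, h3, h4, hQ, h5, h6⟩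

theorem card_clE3 (n q : ℕ) (hn : 32 ≤ n) (hq1 : 1 ≤ q) :
    (clE3 n q).ncard ≤ (n * n * n * n.choose q) * (xn (n - 1) *
      ((2 ^ (n - 999 * n / 2000 - n / 512 + 1)) * (2 ^ 32 * 4))) := by
  classical
  have h := ncard_exists_le (ι := (Fin n × Fin n × Fin n) × {Q : Finset (Fin n) // Q ∈ powersetCard q (univ : Finset (Fin n))})
    (fun i (p : Str (Fin n)) =>
    p ∈ X (Fin n) ∧ Deg p ∧ F1 q p ∧ i.1.1 ≠ i.1.2.1 ∧ i.1.1 ≠ i.1.2.2 ∧ (i.2 : Finset (Fin n)) ⊆ nb p i.1.1 ∧
      Disjoint (nb p i.1.2.1) (NB p i.2) ∧ n < 512 * (nb p i.1.2.1 ∩ nb p i.1.2.2).card ∧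
      nb p i.1.1 ∩ (nb p i.1.2.1 ∩ nb p i.1.2.2) = ∅)
    (xn (n - 1) *
      ((2 ^ (n - 999 * n / 2000 - n / 512 + 1)) * (2 ^ 32 * 4))) (by
      rintro ⟨⟨x, x', x''⟩, ⟨Q, hQ⟩⟩
      simp only
      rw [Finset.mem_powersetCard] at hQ
      obtain ⟨-, hQ⟩ := hQ
      refine single_bound x 32 _ _ (fun p hp => hp.1)
        (fun p' => if (999 * n ≤ 2000 * (NB p' Q).card + 2000 ∧ n < 512 * (nb p' x' ∩ nb p' x'').card ∧
          Disjoint (NB p' Q) (nb p' x' ∩ nb p' x'')) then
            univ.filter fun Γ : Finset (Fin n) => Disjoint Γ (NB p' Q ∪ (nb p' x' ∩ nb p' x''))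
          else ∅) ?_ ?_ ?_
      · intro p'
        split_ifs with hc
        · refine (card_disj _).trans (Nat.pow_le_pow_right (by norm_num) ?_)
          have := card_compl_union hc.2.2
          omega
        · simp
      · rintro p ⟨h1, h2, h3, h4, h4', h5, h6, h7, h8⟩
        have hxQ : Disjoint Q ({x} : Finset (Fin n)) := by
          rw [Finset.disjoint_singleton_right]
          intro hx
          exact adj_irrefl h1 x (mem_nb.1 (h5 hx))
        have hne : Q.Nonempty := by rw [← Finset.card_pos]; omega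
        have hxNB : x ∈ NB p Q := by
          obtain ⟨z, hz⟩ := hne
          exact mem_NB.2 ⟨z, hz, (mem_nb.1 (h5 hz)).symm⟩
        have hxx' : x ∉ nb p x' := fun h => Finset.disjoint_left.1 h6 h hxNB
        have e1 : nb (res {x} p) x' ∩ nb (res {x} p) x'' = nb p x' ∩ nb p x'' := by
          rw [nb_res (by rw [Finset.mem_singleton]; exact h4.symm),
            nb_res (by rw [Finset.mem_singleton]; exact h4'.symm)]
          ext z
          simp only [Finset.mem_inter, Finset.mem_sdiff, Finset.mem_singleton]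
          constructor
          · rintro ⟨⟨a, _⟩, b, _⟩; exact ⟨a, b⟩
          · rintro ⟨a, b⟩
            have : z ≠ x := fun hz => hxx' (hz ▸ a)
            exact ⟨⟨a, this⟩, b, this⟩
        have e2 : NB (res {x} p) Q = NB p Q \ {x} := NB_res hxQ
        rw [e1, e2]
        rw [if_pos]
        · simp only [Finset.mem_filter, Finset.mem_univ, true_and]
          rw [Finset.disjoint_union_right]
          exact ⟨(nb_disjoint_NB h1 h5).mono_right Finset.sdiff_subset, Finset.disjoint_iff_inter_eq_empty.2 h8⟩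
        · refine ⟨?_, h7, ((h6.symm).mono_left Finset.sdiff_subset).mono_right Finset.inter_subset_left⟩
          have h8 := h3 x Q h5 hQ
          have h9 := Finset.card_le_card_sdiff_add_card (s := NB p Q) (t := ({x} : Finset (Fin n)))
          rw [Finset.card_singleton] at h9
          omega
      · rintro p ⟨h1, h2, _⟩
        exact cov_of_deg h2 (by rw [Finset.card_singleton]; omega) x (Finset.mem_singleton_self x))
  have hc : Fintype.card ((Fin n × Fin n × Fin n) × {Q : Finset (Fin n) // Q ∈ powersetCard q (univ : Finset (Fin n))})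
      = n * n * n * n.choose q := by
    rw [Fintype.card_prod, Fintype.card_prod, Fintype.card_prod, Fintype.card_coe,
      Finset.card_powersetCard, Finset.card_univ, Fintype.card_fin]
    ring
  rw [hc] at h
  refine le_trans (Set.ncard_le_ncard ?_ (Set.toFinite _)) h
  rintro p ⟨h1, h2, h3, x, x', x'', h4, h4', Q, hQ, hQ', h5, h6, h7⟩
  exact ⟨((x, x', x''), ⟨Q, Finset.mem_powersetCard.2 ⟨Finset.subset_univ _, hQ'⟩⟩), h1, h2, h3, h4, h4', hQ, h5, h6, h7⟩

end IdemCount
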