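import Mathlib
import Pool.Agent.Idem.Basic
set_option autoImplicit false
open Finset Filter Topology

namespace IdemCount.Clo


/-- the theta constants `∑ 2^{-j²}` (j integer, n even) and `∑ 2^{-(j+1/2)²}` (n odd) -/
noncomputable def thetaC (n : ℕ) : ℝ :=
  if Even n then ∑' j : ℤ, (2 : ℝ) ^ (-((j : ℝ) ^ 2)) else ∑' j : ℤ, (2 : ℝ) ^ (-(((j : ℝ) + 1 / 2) ^ 2))

/-- closed form -/
noncomputable def g (n : ℕ) : ℝ :=
  3 * thetaC n * Real.sqrt (2 / (Real.pi * n)) * (2 : ℝ) ^ ((n : ℝ) ^ 2 / 4 + 2 * n)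

/-- Gaussian-type weights -/
noncomputable def ph (c : ℝ) (j : ℤ) : ℝ := (2 : ℝ) ^ (-(((j : ℝ) + c) ^ 2))

theorem ph_pos (c : ℝ) (j : ℤ) : 0 < ph c j := Real.rpow_pos_of_pos (by norm_num) _

theorem ph_le (c : ℝ) (j : ℤ) : ph c j ≤ (2 : ℝ) ^ (|c| + 1 / 4) * (1 / 2 : ℝ) ^ j.natAbs := by
  have h1 : (1 / 2 : ℝ) ^ j.natAbs = (2 : ℝ) ^ (-(|(j : ℝ)|)) := by
    rw [Real.rpow_neg (by norm_num), ← Int.cast_abs, Int.abs_eq_natAbs]
    rw [Int.cast_natCast, Real.rpow_natCast, one_div, inv_pow]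
  rw [h1, ← Real.rpow_add (by norm_num)]
  unfold ph
  apply Real.rpow_le_rpow_of_exponent_le (by norm_num)
  have h2 : |(j : ℝ)| ≤ |(j : ℝ) + c| + |c| := by
    have := abs_sub ((j : ℝ) + c) c
    simpa using this
  have h3 : |(j : ℝ) + c| ^ 2 = ((j : ℝ) + c) ^ 2 := sq_abs _
  nlinarith [sq_nonneg (|(j : ℝ) + c| - 1 / 2)]

theorem half_summable : Summable (fun j : ℤ => (1 / 2 : ℝ) ^ j.natAbs) := by
  apply Summable.of_nat_of_neg
  · simpa using summable_geometric_two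
  · simpa using summable_geometric_two

theorem ph_summable (c : ℝ) : Summable (ph c) :=
  Summable.of_nonneg_of_le (fun j => (ph_pos c j).le) (ph_le c) (half_summable.mul_left _)

theorem ph_shift (c : ℝ) : ∑' j, ph (c + 1) j = ∑' j, ph c j := by
  rw [← (Equiv.addRight (1 : ℤ)).tsum_eq (ph c)]
  congr 1
  funext j
  unfold ph
  simp only [Equiv.coe_addRight, Int.cast_add, Int.cast_one]
  congr 3
  ring

/-- three-term weights -/
noncomputable def wt (c : ℝ) (j : ℤ) : ℝ := ph (c - 1) j + ph c j + ph (c + 1) j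

theorem wt_pos (c : ℝ) (j : ℤ) : 0 < wt c j := by
  unfold wt
  have h1 := ph_pos (c - 1) j
  have h2 := ph_pos c j
  have h3 := ph_pos (c + 1) j
  linarith

theorem wt_summable (c : ℝ) : Summable (wt c) :=
  ((ph_summable (c - 1)).add (ph_summable c)).add (ph_summable (c + 1))

theorem wt_tsum (c : ℝ) : ∑' j, wt c j = 3 * ∑' j, ph c j := by
  unfold wt
  rw [((ph_summable (c - 1)).add (ph_summable c)).tsum_add (ph_summable (c + 1)),
    (ph_summable (c - 1)).tsum_add (ph_summable c), ph_shift]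
  have := ph_shift (c - 1)
  rw [sub_add_cancel] at this
  rw [this]
  ring

/-- binomial coefficients with integer lower index -/
noncomputable def cz (n : ℕ) (k : ℤ) : ℝ := if 0 ≤ k then (n.choose k.toNat : ℝ) else 0

theorem cz_nonneg (n : ℕ) (k : ℤ) : 0 ≤ cz n k := by
  unfold cz
  split_ifs
  · positivity
  · exact le_refl _

theorem cz_le (n : ℕ) (k : ℤ) : cz n k ≤ n.choose (n / 2) := by
  unfold cz
  split_ifs
  · exact_mod_cast Nat.choose_le_middle _ _
  · positivity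

theorem sum_cz (n m : ℕ) (w : ℤ → ℝ) :
    ∑ b ∈ range (n + 1), (n.choose b : ℝ) * w ((b : ℤ) - m) = ∑' j : ℤ, cz n (m + j) * w j := by
  rw [tsum_eq_sum (s := (range (n + 1)).image (fun b : ℕ => (b : ℤ) - m))]
  · rw [Finset.sum_image]
    · refine Finset.sum_congr rfl fun b _ => ?_
      unfold cz
      rw [if_pos (by omega)]
      congr 3
      omega
    · intro a _ b _ h
      simp only at h
      omega
  · intro j hj
    unfold cz
    split_ifs with h
    · have : n < ((m : ℤ) + j).toNat := by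
        by_contra hcon
        apply hj
        rw [Finset.mem_image]
        refine ⟨((m : ℤ) + j).toNat, Finset.mem_range.2 (by omega), by omega⟩
      rw [Nat.choose_eq_zero_of_lt this]
      simp
    · simp

theorem f_eq (m e : ℕ) : f (2 * m + e) = (2 : ℝ) ^ (((2 * m + e : ℕ) : ℝ) ^ 2 / 4 + (2 * m + e : ℕ)) *
    ∑' j : ℤ, cz (2 * m + e) (m + j) * wt (-(e : ℝ) / 2) j := by
  rw [← sum_cz]
  unfold f
  rw [Finset.mul_sum, Finset.mul_sum]
  refine Finset.sum_congr rfl fun b hb => ?_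
  rw [Finset.mem_range] at hb
  set n := 2 * m + e with hn
  have hbn : b ≤ n := by omega
  have hNe : (e : ℝ) = n - 2 * m := by rw [hn]; push_cast; ring
  have e1 : (2 : ℝ) ^ (b * (n - b)) = (2 : ℝ) ^ ((b : ℝ) * (n - b)) := by
    rw [← Real.rpow_natCast]
    push_cast [Nat.cast_sub hbn]
    rfl
  have e2 : (2 : ℝ) ^ b = (2 : ℝ) ^ (b : ℝ) := (Real.rpow_natCast _ _).symm
  have e3 : (2 : ℝ) ^ (n - b) = (2 : ℝ) ^ ((n : ℝ) - b) := by
    rw [← Real.rpow_natCast]
    push_cast [Nat.cast_sub hbn]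
    rfl
  rw [e1, e2, e3]
  have p1 : (2 : ℝ) ^ ((n : ℝ) ^ 2 / 4 + n) * ph (-(e : ℝ) / 2 - 1) ((b : ℤ) - m) =
      (2 : ℝ) ^ ((b : ℝ) * (n - b)) * (2 : ℝ) ^ (b : ℝ) * (2 : ℝ) ^ (b : ℝ) * (1 / 2) := by
    unfold ph
    have : (1 / 2 : ℝ) = (2 : ℝ) ^ (-1 : ℝ) := by
      rw [Real.rpow_neg_one]; norm_num
    rw [this, ← Real.rpow_add (by norm_num), ← Real.rpow_add (by norm_num),
      ← Real.rpow_add (by norm_num), ← Real.rpow_add (by norm_num), hNe]
    congr 1
    push_cast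
    ring
  have p2 : (2 : ℝ) ^ ((n : ℝ) ^ 2 / 4 + n) * ph (-(e : ℝ) / 2) ((b : ℤ) - m) =
      (2 : ℝ) ^ ((b : ℝ) * (n - b)) * (2 : ℝ) ^ (b : ℝ) * (2 : ℝ) ^ ((n : ℝ) - b) := by
    unfold ph
    rw [← Real.rpow_add (by norm_num), ← Real.rpow_add (by norm_num),
      ← Real.rpow_add (by norm_num), hNe]
    congr 1
    push_cast
    ring
  have p3 : (2 : ℝ) ^ ((n : ℝ) ^ 2 / 4 + n) * ph (-(e : ℝ) / 2 + 1) ((b : ℤ) - m) =
      (2 : ℝ) ^ ((b : ℝ) * (n - b)) * (2 : ℝ) ^ ((n : ℝ) - b) * (2 : ℝ) ^ ((n : ℝ) - b) *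
        (1 / 2) := by
    unfold ph
    have : (1 / 2 : ℝ) = (2 : ℝ) ^ (-1 : ℝ) := by
      rw [Real.rpow_neg_one]; norm_num
    rw [this, ← Real.rpow_add (by norm_num), ← Real.rpow_add (by norm_num),
      ← Real.rpow_add (by norm_num), ← Real.rpow_add (by norm_num), hNe]
    congr 1
    push_cast
    ring
  unfold wt
  have : (2 : ℝ) ^ ((n : ℝ) ^ 2 / 4 + n) * ((n.choose b : ℝ) *
      (ph (-(e : ℝ) / 2 - 1) ((b : ℤ) - m) + ph (-(e : ℝ) / 2) ((b : ℤ) - m) +
        ph (-(e : ℝ) / 2 + 1) ((b : ℤ) - m))) = (n.choose b : ℝ) *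
      ((2 : ℝ) ^ ((n : ℝ) ^ 2 / 4 + n) * ph (-(e : ℝ) / 2 - 1) ((b : ℤ) - m) +
       (2 : ℝ) ^ ((n : ℝ) ^ 2 / 4 + n) * ph (-(e : ℝ) / 2) ((b : ℤ) - m) +
       (2 : ℝ) ^ ((n : ℝ) ^ 2 / 4 + n) * ph (-(e : ℝ) / 2 + 1) ((b : ℤ) - m)) := by ring
  rw [this, p1, p2, p3]
  ring

theorem ratio_lim (a b : ℝ) : Tendsto (fun m : ℕ => ((m : ℝ) + a) / (m + b)) atTop (𝓝 1) := by
  have h1 : Tendsto (fun m : ℕ => (m : ℝ) + b) atTop atTop :=
    tendsto_atTop_add_const_right _ _ tendsto_natCast_atTop_atTop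
  have h2 : Tendsto (fun m : ℕ => 1 + (a - b) / ((m : ℝ) + b)) atTop (𝓝 (1 + 0)) :=
    tendsto_const_nhds.add (tendsto_const_nhds.div_atTop h1)
  rw [add_zero] at h2
  refine h2.congr' ?_
  filter_upwards [h1.eventually_gt_atTop 0] with m hm
  field_simp
  ring

theorem choose_ratio (e i : ℕ) : Tendsto (fun m : ℕ =>
    ((2 * m + e).choose (m + i) : ℝ) / ((2 * m + e).choose m : ℝ)) atTop (𝓝 1) := by
  induction i with
  | zero =>
    refine tendsto_const_nhds.congr fun m => ?_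
    rw [add_zero, div_self]
    exact_mod_cast (Nat.choose_pos (by omega : m ≤ 2 * m + e)).ne'
  | succ i ih =>
    have h1 := ih.mul (ratio_lim ((e : ℝ) - i) ((i : ℝ) + 1))
    rw [one_mul] at h1
    refine h1.congr' ?_
    filter_upwards [eventually_ge_atTop i] with m hm
    have h2 := Nat.choose_succ_right_eq (2 * m + e) (m + i)
    have h3 : (((2 * m + e).choose (m + i + 1) : ℕ) : ℝ) * ((m : ℝ) + i + 1) =
        ((2 * m + e).choose (m + i) : ℝ) * ((m : ℝ) + e - i) := by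
      have : ((2 * m + e - (m + i) : ℕ) : ℝ) = (m : ℝ) + e - i := by
        rw [Nat.cast_sub (by omega)]
        push_cast
        ring
      rw [← this]
      exact_mod_cast h2
    have hpos : (0 : ℝ) < (m : ℝ) + i + 1 := by positivity
    have hc : (0 : ℝ) < ((2 * m + e).choose m : ℝ) := by
      exact_mod_cast Nat.choose_pos (by omega : m ≤ 2 * m + e)
    have e4 : m + (i + 1) = m + i + 1 := by ring
    rw [e4]
    have e5 : (m : ℝ) + (i + 1) = (m : ℝ) + i + 1 := by ring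
    rw [e5, div_mul_div_comm, div_eq_div_iff (by positivity) hc.ne']
    have e6 : (m : ℝ) + (e - i) = (m : ℝ) + e - i := by ring
    rw [e6, ← h3]
    ring

theorem cz_ratio (e : ℕ) (j : ℤ) : Tendsto (fun m : ℕ =>
    cz (2 * m + e) (m + j) / ((2 * m + e).choose m : ℝ)) atTop (𝓝 1) := by
  rcases Int.eq_nat_or_neg j with ⟨i, rfl | rfl⟩
  · refine (choose_ratio e i).congr fun m => ?_
    unfold cz
    rw [if_pos (by omega)]
    congr 3
  · refine (choose_ratio e (e + i)).congr' ?_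
    filter_upwards [eventually_ge_atTop i] with m hm
    unfold cz
    rw [if_pos (by omega)]
    congr 2
    apply Nat.choose_symm_of_eq_add
    omega

theorem F_lim (e : ℕ) (he : e ≤ 1) : Tendsto (fun m : ℕ =>
    f (2 * m + e) / ((2 : ℝ) ^ (((2 * m + e : ℕ) : ℝ) ^ 2 / 4 + (2 * m + e : ℕ)) *
      ((2 * m + e).choose m : ℝ))) atTop (𝓝 (3 * ∑' j, ph (-(e : ℝ) / 2) j)) := by
  have h1 : Tendsto (fun m : ℕ => ∑' j : ℤ,
      cz (2 * m + e) (m + j) / ((2 * m + e).choose m : ℝ) * wt (-(e : ℝ) / 2) j) atTop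
      (𝓝 (∑' j : ℤ, wt (-(e : ℝ) / 2) j)) := by
    apply tendsto_tsum_of_dominated_convergence (wt_summable (-(e : ℝ) / 2))
    · intro j
      have := (cz_ratio e j).mul_const (wt (-(e : ℝ) / 2) j)
      rwa [one_mul] at this
    · refine Eventually.of_forall fun m j => ?_
      have hw := wt_pos (-(e : ℝ) / 2) j
      have hc : (0 : ℝ) < ((2 * m + e).choose m : ℝ) := by
        exact_mod_cast Nat.choose_pos (by omega : m ≤ 2 * m + e)
      have h2 : (2 * m + e) / 2 = m := by omega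
      have h3 := cz_le (2 * m + e) (m + j)
      rw [h2] at h3
      have h4 := cz_nonneg (2 * m + e) (m + j)
      rw [Real.norm_of_nonneg (by positivity)]
      have h5 : cz (2 * m + e) (m + j) / ((2 * m + e).choose m : ℝ) ≤ 1 := by
        rw [div_le_one hc]
        exact h3
      calc _ ≤ 1 * wt (-(e : ℝ) / 2) j := mul_le_mul_of_nonneg_right h5 hw.le
        _ = _ := one_mul _
  rw [wt_tsum] at h1
  refine h1.congr fun m => ?_
  have hc : (0 : ℝ) < ((2 * m + e).choose m : ℝ) := by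
    exact_mod_cast Nat.choose_pos (by omega : m ≤ 2 * m + e)
  have h2 : (0 : ℝ) < (2 : ℝ) ^ (((2 * m + e : ℕ) : ℝ) ^ 2 / 4 + (2 * m + e : ℕ)) :=
    Real.rpow_pos_of_pos (by norm_num) _
  rw [f_eq, mul_div_mul_left _ _ h2.ne', ← tsum_div_const]
  refine tsum_congr fun j => ?_
  ring

theorem cb0 : Tendsto (fun m : ℕ => ((2 * m).choose m : ℝ) * Real.sqrt m / 4 ^ m) atTop
    (𝓝 (1 / Real.sqrt Real.pi)) := by
  have h1 := Stirling.tendsto_stirlingSeq_sqrt_pi
  have h2 : Tendsto (fun m : ℕ => Stirling.stirlingSeq (2 * m)) atTop (𝓝 (Real.sqrt Real.pi)) :=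
    h1.comp (tendsto_id.const_mul_atTop' (by norm_num))
  have hpi : 0 < Real.sqrt Real.pi := Real.sqrt_pos.2 Real.pi_pos
  have h3 := h2.div (h1.mul h1) (by positivity)
  have h4 : Real.sqrt Real.pi / (Real.sqrt Real.pi * Real.sqrt Real.pi) = 1 / Real.sqrt Real.pi := by
    field_simp
  rw [h4] at h3
  refine h3.congr' ?_
  filter_upwards [eventually_gt_atTop 0] with m hm
  have hm' : (0 : ℝ) < m := by exact_mod_cast hm
  simp only [Pi.div_apply, Stirling.stirlingSeq]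
  have hfac : ((2 * m).choose m : ℝ) = ((2 * m).factorial : ℝ) / ((m.factorial : ℝ) * m.factorial) := by
    rw [Nat.cast_choose ℝ (by omega : m ≤ 2 * m)]
    congr 3
    have : 2 * m - m = m := by omega
    rw [this]
  rw [hfac]
  have hs : Real.sqrt (2 * ((2 * m : ℕ) : ℝ)) = 2 * Real.sqrt m := by
    have : (2 * ((2 * m : ℕ) : ℝ)) = 2 ^ 2 * m := by push_cast; ring
    rw [this, Real.sqrt_mul (by norm_num), Real.sqrt_sq (by norm_num)]
  have hs2 : Real.sqrt (2 * (m : ℝ)) * Real.sqrt (2 * (m : ℝ)) = 2 * m :=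
    Real.mul_self_sqrt (by positivity)
  have hs3 : Real.sqrt m * Real.sqrt m = m := Real.mul_self_sqrt hm'.le
  have hsm : 0 < Real.sqrt m := Real.sqrt_pos.2 hm'
  have hf1 : (0 : ℝ) < (m.factorial : ℝ) := by exact_mod_cast Nat.factorial_pos m
  have hx : (0 : ℝ) < ((m : ℝ) / Real.exp 1) ^ m := by positivity
  have hpw : (((2 * m : ℕ) : ℝ) / Real.exp 1) ^ (2 * m) =
      4 ^ m * (((m : ℝ) / Real.exp 1) ^ m * ((m : ℝ) / Real.exp 1) ^ m) := by
    have : (((2 * m : ℕ) : ℝ) / Real.exp 1) = 2 * ((m : ℝ) / Real.exp 1) := by push_cast; ring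
    rw [this, mul_pow, pow_mul, ← pow_add]
    congr 2
    · norm_num
    · ring
  rw [hs, hpw]
  set X := ((m : ℝ) / Real.exp 1) ^ m with hX
  set Fm := (m.factorial : ℝ) with hFm
  set G := ((2 * m).factorial : ℝ) with hG
  have : (Fm / (Real.sqrt (2 * (m : ℝ)) * X)) * (Fm / (Real.sqrt (2 * (m : ℝ)) * X)) =
      Fm * Fm / (2 * m * (X * X)) := by
    rw [div_mul_div_comm]
    have : Real.sqrt (2 * (m : ℝ)) * X * (Real.sqrt (2 * (m : ℝ)) * X) =
        (Real.sqrt (2 * (m : ℝ)) * Real.sqrt (2 * (m : ℝ))) * (X * X) := by ring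
    rw [this, hs2]
  rw [this]
  have h4m : (0 : ℝ) < 4 ^ m := by positivity
  rw [div_div_div_eq, div_mul_eq_mul_div, div_div, div_eq_div_iff (by positivity) (by positivity)]
  have h9 : G * (2 * (m : ℝ) * (X * X)) * (Fm * Fm * 4 ^ m) =
      G * (2 * (Real.sqrt m * Real.sqrt m) * (X * X)) * (Fm * Fm * 4 ^ m) := by rw [hs3]
  first
    | (rw [h9]; ring)
    | (linear_combination h9)

theorem cb (e : ℕ) (he : e ≤ 1) : Tendsto (fun m : ℕ =>
    ((2 * m + e).choose m : ℝ) * Real.sqrt ((2 * m + e : ℕ) : ℝ) / 2 ^ (2 * m + e)) atTop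
    (𝓝 (Real.sqrt (2 / Real.pi))) := by
  have hpi : 0 < Real.sqrt Real.pi := Real.sqrt_pos.2 Real.pi_pos
  have h2 : Real.sqrt (2 / Real.pi) = Real.sqrt 2 * (1 / Real.sqrt Real.pi) := by
    rw [Real.sqrt_div (by norm_num)]; ring
  rw [h2]
  interval_cases e
  · refine (cb0.const_mul (Real.sqrt 2)).congr fun m => ?_
    have e1 : Real.sqrt (((2 * m + 0 : ℕ) : ℝ)) = Real.sqrt 2 * Real.sqrt m := by
      rw [← Real.sqrt_mul (by norm_num)]
      congr 1
      push_cast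
      ring
    rw [e1, add_zero, pow_mul]
    norm_num
    ring
  · have h3 : Tendsto (fun m : ℕ => Real.sqrt (((m : ℝ) + 1 / 2) / (m + 0))) atTop (𝓝 1) := by
      have := (Real.continuous_sqrt.tendsto 1).comp (ratio_lim (1 / 2) 0)
      rwa [Real.sqrt_one] at this
    have h4 := ((cb0.mul (ratio_lim (1 / 2) 1)).mul h3).const_mul (Real.sqrt 2)
    rw [mul_one, mul_one] at h4
    refine h4.congr' ?_
    filter_upwards [eventually_gt_atTop 0] with m hm
    have hm' : (0 : ℝ) < m := by exact_mod_cast hm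
    have hc : ((2 * m + 1).choose m : ℝ) * (m + 1) = (2 * m + 1) * ((2 * m).choose m : ℝ) := by
      have h5 := Nat.add_one_mul_choose_eq (2 * m) m
      have h6 : (2 * m + 1).choose (m + 1) = (2 * m + 1).choose m :=
        Nat.choose_symm_of_eq_add (by omega)
      rw [h6] at h5
      have h7 : ((2 * m + 1 : ℕ) : ℝ) * ((2 * m).choose m : ℝ) =
        ((2 * m + 1).choose m : ℝ) * ((m + 1 : ℕ) : ℝ) := by exact_mod_cast h5
      push_cast at h7
      linarith
    have hc2 : ((2 * m + 1).choose m : ℝ) = (2 * m + 1) * ((2 * m).choose m : ℝ) / (m + 1) := by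
      rw [eq_div_iff (by positivity)]
      exact hc
    have e1 : Real.sqrt (((2 * m + 1 : ℕ) : ℝ)) =
        Real.sqrt 2 * Real.sqrt m * Real.sqrt (((m : ℝ) + 1 / 2) / (m + 0)) := by
      rw [← Real.sqrt_mul (by norm_num), ← Real.sqrt_mul (by positivity)]
      congr 1
      push_cast
      field_simp
      ring
    rw [e1, hc2, pow_succ, pow_mul]
    have : ((2 : ℝ) ^ 2) ^ m = 4 ^ m := by norm_num
    rw [this]
    field_simp

theorem theta_eq (e m : ℕ) (he : e ≤ 1) : thetaC (2 * m + e) = ∑' j, ph (-(e : ℝ) / 2) j := by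
  unfold thetaC
  interval_cases e
  · rw [if_pos (by simp)]
    refine tsum_congr fun j => ?_
    unfold ph
    simp
  · rw [if_neg (by rw [Nat.not_even_iff_odd]; exact ⟨m, rfl⟩)]
    have := ph_shift (-((1 : ℕ) : ℝ) / 2)
    rw [← this]
    refine tsum_congr fun j => ?_
    unfold ph
    congr 3
    push_cast
    ring

theorem theta_pos (c : ℝ) : 0 < ∑' j, ph c j :=
  (ph_summable c).tsum_pos (fun j => (ph_pos c j).le) 0 (ph_pos c 0)

theorem sub_lim (e : ℕ) (he : e ≤ 1) :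
    Tendsto (fun m : ℕ => f (2 * m + e) / g (2 * m + e)) atTop (𝓝 1) := by
  have hθ := theta_pos (-(e : ℝ) / 2)
  set θ := ∑' j, ph (-(e : ℝ) / 2) j with hθd
  have hs : 0 < Real.sqrt (2 / Real.pi) := Real.sqrt_pos.2 (by positivity)
  have h1 := ((F_lim e he).div_const (3 * θ)).mul ((cb e he).div_const (Real.sqrt (2 / Real.pi)))
  rw [← hθd, div_self (by positivity), div_self hs.ne', one_mul] at h1
  refine h1.congr' ?_
  filter_upwards [eventually_gt_atTop 0] with m hm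
  have hm' : (0 : ℝ) < m := by exact_mod_cast hm
  unfold g
  rw [theta_eq e m he, ← hθd]
  set n : ℕ := 2 * m + e with hn
  have hn0 : (0 : ℝ) < n := by
    have : 0 < n := by omega
    exact_mod_cast this
  have hc : (0 : ℝ) < (n.choose m : ℝ) := by
    exact_mod_cast Nat.choose_pos (by omega : m ≤ n)
  have e1 : Real.sqrt (2 / (Real.pi * n)) = Real.sqrt (2 / Real.pi) / Real.sqrt n := by
    rw [← Real.sqrt_div (by positivity), div_div]
  have e2 : (2 : ℝ) ^ ((n : ℝ) ^ 2 / 4 + 2 * n) = (2 : ℝ) ^ ((n : ℝ) ^ 2 / 4 + n) * 2 ^ n := by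
    rw [← Real.rpow_natCast (2 : ℝ) n, ← Real.rpow_add (by norm_num)]
    congr 1
    ring
  rw [e1, e2]
  have h5 : (0 : ℝ) < (2 : ℝ) ^ ((n : ℝ) ^ 2 / 4 + n) := Real.rpow_pos_of_pos (by norm_num) _
  have h6 : 0 < Real.sqrt (n : ℝ) := Real.sqrt_pos.2 hn0
  have h7 : (0 : ℝ) < 2 ^ n := by positivity
  field_simp

/-- TARGET -/
theorem tendsto_f_div_g : Tendsto (fun n : ℕ => f n / g n) atTop (𝓝 1) := by
  rw [Metric.tendsto_atTop]
  intro ε hε
  obtain ⟨N0, h0⟩ := (Metric.tendsto_atTop.1 (sub_lim 0 (by norm_num))) ε hε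
  obtain ⟨N1, h1⟩ := (Metric.tendsto_atTop.1 (sub_lim 1 (by norm_num))) ε hε
  refine ⟨2 * (N0 + N1) + 2, fun n hn => ?_⟩
  rcases Nat.even_or_odd' n with ⟨m, rfl | rfl⟩
  · exact h0 m (by omega)
  · exact h1 m (by omega)

end IdemCount.Clo
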