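import Mathlib
import Pool.Agent.Idem.Basic
set_option autoImplicit false
open Finset

namespace IdemCount.Ori


/-- the set of mixed independent pairs of a bipartite graph `A` with parts `V₁`, `V₁ᶜ` -/
def mixed {V : Type*} [Fintype V] [DecidableEq V] (A : V → V → Prop) (V₁ : Finset V) :
    Set (Finset V × Finset V) :=
  {I | I.1 ⊆ V₁ ∧ I.2 ⊆ V₁ᶜ ∧ I.1.Nonempty ∧ I.2.Nonempty ∧ ∀ x ∈ I.1, ∀ y ∈ I.2, ¬ A x y}

open Classical in
/-- sign of an edge -/
noncomputable def sg {V : Type*} (E : V → V → Prop) (x y : V) : ℤ := if E x y then 1 else -1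

theorem sg_cases {V : Type*} {A E : V → V → Prop} {N : V → Prop} (ok : Ok E N)
    (hA : ∀ x y, Adj E x y ↔ A x y) (x y : V) (h : A x y) :
    (E x y ∧ sg E x y = 1) ∨ (E y x ∧ sg E x y = -1) := by
  unfold sg
  rcases (hA x y).2 h with h1 | h1
  · left; exact ⟨h1, if_pos h1⟩
  · right; exact ⟨h1, if_neg (ok.asymm _ _ h1)⟩

theorem sg_symm {V : Type*} {A E : V → V → Prop} {N : V → Prop} (ok : Ok E N)
    (hA : ∀ x y, Adj E x y ↔ A x y) (x y : V) (h : A x y) : sg E y x = - sg E x y := by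
  unfold sg
  rcases (hA x y).2 h with h1 | h1
  · rw [if_pos h1, if_neg (ok.asymm _ _ h1)]
  · rw [if_pos h1, if_neg (ok.asymm _ _ h1)]; norm_num

theorem four {V : Type*} {A E : V → V → Prop} {N : V → Prop} (ok : Ok E N)
    (hA : ∀ x y, Adj E x y ↔ A x y) (a b c d : V) (h1 : A a b) (h2 : A b c) (h3 : A c d)
    (h4 : A d a) : sg E a b + sg E b c + sg E c d + sg E d a = 0 := by
  rcases sg_cases ok hA a b h1 with ⟨e1, s1⟩ | ⟨e1, s1⟩ <;>
  rcases sg_cases ok hA b c h2 with ⟨e2, s2⟩ | ⟨e2, s2⟩ <;>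
  rcases sg_cases ok hA c d h3 with ⟨e3, s3⟩ | ⟨e3, s3⟩ <;>
  rcases sg_cases ok hA d a h4 with ⟨e4, s4⟩ | ⟨e4, s4⟩ <;>
  first
  | (rw [s1, s2, s3, s4]; norm_num; done)
  | exact absurd e4 (ok.cyc a b c d e1 e2 e3)
  | exact absurd e4 (ok.c4 a b c d e1 e2 e3)
  | exact absurd e3 (ok.c4 d a b c e4 e1 e2)
  | exact absurd e2 (ok.c4 c d a b e3 e4 e1)
  | exact absurd e1 (ok.c4 b c d a e2 e3 e4)
  | exact absurd e1 (ok.cyc a d c b e4 e3 e2)
  | exact absurd e4 (ok.c4 d c b a e3 e2 e1)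
  | exact absurd e3 (ok.c4 c b a d e2 e1 e4)
  | exact absurd e2 (ok.c4 b a d c e1 e4 e3)
  | exact absurd e1 (ok.c4 a d c b e4 e3 e2)

theorem height {V : Type*} [Fintype V] [DecidableEq V]
    (A : V → V → Prop) (V₁ : Finset V)
    (symm : ∀ x y, A x y → A y x)
    (bip : ∀ x y, A x y → (x ∈ V₁ ↔ y ∉ V₁))
    (hne : V₁.Nonempty)
    (common : ∀ x y z, (x ∈ V₁ ↔ y ∈ V₁) → (y ∈ V₁ ↔ z ∈ V₁) → ∃ w, A x w ∧ A y w ∧ A z w)
    {E : V → V → Prop} {N : V → Prop} (ok : Ok E N) (hA : ∀ x y, Adj E x y ↔ A x y) :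
    ∃ h : V → ℤ, ∀ x y, A x y → h y - h x = sg E x y := by
  obtain ⟨v0, hv0⟩ := hne
  have h1 : ∀ x, ∃ w, x ∈ V₁ → A v0 w ∧ A x w := by
    intro x
    by_cases hx : x ∈ V₁
    · obtain ⟨w, a, _, b⟩ := common v0 v0 x Iff.rfl (by simp [hx, hv0])
      exact ⟨w, fun _ => ⟨a, b⟩⟩
    · exact ⟨x, fun h => absurd h hx⟩
  choose z hz using h1
  have h2 : ∀ y, ∃ v, A v y := by
    intro y
    obtain ⟨w, a, _, _⟩ := common y y y Iff.rfl Iff.rfl
    exact ⟨w, symm _ _ a⟩
  choose nb hnb using h2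
  have key1 : ∀ x ∈ V₁, ∀ w, A v0 w → A x w →
      sg E v0 w + sg E w x = sg E v0 (z x) + sg E (z x) x := by
    intro x hx w ha hb
    obtain ⟨hc, hd⟩ := hz x hx
    have := four ok hA v0 w x (z x) ha (symm _ _ hb) hd (symm _ _ hc)
    rw [sg_symm ok hA (z x) x (symm _ _ hd), sg_symm ok hA v0 (z x) hc] at this
    linarith
  set g : V → ℤ := fun x => sg E v0 (z x) + sg E (z x) x with hg
  have key2 : ∀ x ∈ V₁, ∀ v ∈ V₁, ∀ y, A x y → A v y → g v + sg E v y = g x + sg E x y := by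
    intro x hx v hv y hxy hvy
    obtain ⟨w, a, b, c⟩ := common v0 v x (by simp [hv0, hv]) (by simp [hv, hx])
    have e1 := key1 v hv w a b
    have e2 := key1 x hx w a c
    have e3 := four ok hA w v y x (symm _ _ b) hvy (symm _ _ hxy) c
    rw [sg_symm ok hA x y hxy, sg_symm ok hA w x (symm _ _ c)] at e3
    rw [hg]
    simp only
    linarith
  refine ⟨fun x => if x ∈ V₁ then g x else g (nb x) + sg E (nb x) x, ?_⟩
  have key3 : ∀ x y, x ∈ V₁ → A x y → (if y ∈ V₁ then g y else g (nb y) + sg E (nb y) y) -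
      (if x ∈ V₁ then g x else g (nb x) + sg E (nb x) x) = sg E x y := by
    intro x y hx hxy
    have hy : y ∉ V₁ := (bip x y hxy).1 hx
    rw [if_pos hx, if_neg hy]
    have hn : nb y ∈ V₁ := (bip _ _ (hnb y)).2 hy
    have := key2 x hx (nb y) hn y hxy (hnb y)
    linarith
  intro x y hxy
  by_cases hx : x ∈ V₁
  · exact key3 x y hx hxy
  · have hy : y ∈ V₁ := by
      by_contra h
      exact hx ((bip x y hxy).2 h)
    have := key3 y x hy (symm _ _ hxy)
    rw [sg_symm ok hA x y hxy] at this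
    simp only
    linarith

/-- orientation of `A` by a height function -/
def Eh {V : Type*} (A : V → V → Prop) (h : V → ℤ) : V → V → Prop := fun x y => A x y ∧ h y = h x + 1

/-- two-level height functions -/
def hf {V : Type*} [DecidableEq V] (V₁ : Finset V) (a b c d : ℤ) (I : Finset V × Finset V) :
    V → ℤ := fun x => if x ∈ V₁ then (if x ∈ I.1 then a else b) else (if x ∈ I.2 then c else d)

theorem orient_cover {V : Type*} [Fintype V] [DecidableEq V]
    (A : V → V → Prop) (V₁ : Finset V)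
    (symm : ∀ x y, A x y → A y x)
    (bip : ∀ x y, A x y → (x ∈ V₁ ↔ y ∉ V₁))
    (hne : V₁.Nonempty)
    (common : ∀ x y z, (x ∈ V₁ ↔ y ∈ V₁) → (y ∈ V₁ ↔ z ∈ V₁) → ∃ w, A x w ∧ A y w ∧ A z w)
    {E : V → V → Prop} {N : V → Prop} (ok : Ok E N) (hA : ∀ x y, Adj E x y ↔ A x y) :
    (∃ B ⊆ V₁ᶜ, E = Eh A (hf V₁ 0 0 1 (-1) (∅, B))) ∨
    (∃ H ⊆ V₁, E = Eh A (hf V₁ 2 0 1 1 (H, ∅))) ∨
    (∃ I ∈ mixed A V₁, E = Eh A (hf V₁ 2 0 (-1) 1 I)) ∨
    (∃ I ∈ mixed A V₁, E = Eh A (hf V₁ 0 2 3 1 I)) := by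
  obtain ⟨h0, hh0⟩ := height A V₁ symm bip hne common ok hA
  obtain ⟨v0, hv0, hmin⟩ := V₁.exists_min_image h0 hne
  set h : V → ℤ := fun x => h0 x - h0 v0 with hh
  have hs : ∀ x y, A x y → (E x y ↔ h y = h x + 1) ∧ (h y = h x + 1 ∨ h y = h x - 1) := by
    intro x y hxy
    have h1 := hh0 x y hxy
    rcases sg_cases ok hA x y hxy with ⟨e1, s1⟩ | ⟨e1, s1⟩
    · rw [s1] at h1
      refine ⟨⟨fun _ => ?_, fun _ => e1⟩, Or.inl ?_⟩ <;> simp only [hh] <;> linarith
    · rw [s1] at h1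
      refine ⟨⟨fun e2 => absurd e1 (ok.asymm _ _ e2), fun e2 => ?_⟩, Or.inr ?_⟩
      · simp only [hh] at e2
        exfalso
        linarith
      · simp only [hh]; linarith
  have hE : E = Eh A h := by
    funext x y
    apply propext
    unfold Eh
    constructor
    · intro e
      have hxy : A x y := (hA x y).1 (Or.inl e)
      exact ⟨hxy, (hs x y hxy).1.1 e⟩
    · rintro ⟨hxy, e⟩
      exact (hs x y hxy).1.2 e
  have hv00 : h v0 = 0 := by simp [hh]
  have hnn : ∀ v ∈ V₁, 0 ≤ h v := by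
    intro v hv
    have := hmin v hv
    simp only [hh]
    linarith
  have hside : ∀ x y, (x ∈ V₁ ↔ y ∈ V₁) → h x = h y ∨ h x = h y + 2 ∨ h x = h y - 2 := by
    intro x y hxy
    obtain ⟨w, a, b, _⟩ := common x y y hxy Iff.rfl
    rcases (hs x w a).2 with e | e <;> rcases (hs y w b).2 with e' | e' <;> omega
  have hV1 : ∀ v ∈ V₁, h v = 0 ∨ h v = 2 := by
    intro v hv
    have h1 := hside v v0 (by simp [hv, hv0])
    have h2 := hnn v hv
    rw [hv00] at h1
    omega
  have hV2 : ∀ y, y ∉ V₁ → h y = -1 ∨ h y = 1 ∨ h y = 3 := by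
    intro y hy
    obtain ⟨w, a, _, _⟩ := common y y y Iff.rfl Iff.rfl
    have hw : w ∈ V₁ := by
      by_contra hw
      exact hy ((bip y w a).2 hw)
    have h1 := hV1 w hw
    rcases (hs y w a).2 with e | e <;> omega
  have hodd : ∀ x, (x ∈ V₁ → h x = 0 ∨ h x = 2) ∧ (x ∉ V₁ → h x = -1 ∨ h x = 1 ∨ h x = 3) :=
    fun x => ⟨hV1 x, hV2 x⟩
  by_cases c1 : ∀ v ∈ V₁, h v = 0
  · left
    refine ⟨univ.filter (fun y => y ∉ V₁ ∧ h y = 1), ?_, ?_⟩
    · intro y hy
      rw [mem_filter] at hy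
      rw [mem_compl]
      exact hy.2.1
    · rw [hE]
      congr 1
      funext x
      unfold hf
      by_cases hx : x ∈ V₁
      · rw [if_pos hx, c1 x hx]; simp
      · rw [if_neg hx]
        obtain ⟨w, a, _, _⟩ := common x x x Iff.rfl Iff.rfl
        have hw : w ∈ V₁ := by
          by_contra hw
          exact hx ((bip x w a).2 hw)
        have h1 := c1 w hw
        have h2 := (hs x w a).2
        by_cases h3 : h x = 1
        · rw [if_pos (by simp [hx, h3]), h3]
        · rw [if_neg (by simp [h3])]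
          omega
  · push Not at c1
    obtain ⟨v1, hv1, hv1'⟩ := c1
    have hv12 : h v1 = 2 := by
      rcases hV1 v1 hv1 with e | e
      · exact absurd e hv1'
      · exact e
    right
    by_cases c2 : ∀ y, y ∉ V₁ → h y = 1
    · left
      refine ⟨univ.filter (fun y => y ∈ V₁ ∧ h y = 2), ?_, ?_⟩
      · intro y hy
        rw [mem_filter] at hy
        exact hy.2.1
      · rw [hE]
        congr 1
        funext x
        unfold hf
        by_cases hx : x ∈ V₁
        · rw [if_pos hx]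
          rcases hV1 x hx with e | e
          · rw [if_neg (by simp [e]), e]
          · rw [if_pos (by simp [e, hx]), e]
        · rw [if_neg hx, c2 x hx]; simp
    · right
      push Not at c2
      obtain ⟨y1, hy1, hy1'⟩ := c2
      rcases hV2 y1 hy1 with hy | hy | hy
      · left
        have hall : ∀ y, y ∉ V₁ → h y = -1 ∨ h y = 1 := by
          intro y hyy
          have h1 := hside y y1 (by simp [hyy, hy1])
          have h2 := hV2 y hyy
          omega
        refine ⟨(univ.filter (fun y => y ∈ V₁ ∧ h y = 2),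
          univ.filter (fun y => y ∉ V₁ ∧ h y = -1)), ⟨?_, ?_, ?_, ?_, ?_⟩, ?_⟩
        · intro y hy
          rw [mem_filter] at hy
          exact hy.2.1
        · intro y hy
          rw [mem_filter] at hy
          rw [mem_compl]
          exact hy.2.1
        · exact ⟨v1, by simp [hv1, hv12]⟩
        · exact ⟨y1, by simp [hy1, hy]⟩
        · intro x hx y hy hxy
          simp only [mem_filter, mem_univ, true_and] at hx hy
          have := (hs x y hxy).2
          omega
        · rw [hE]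
          congr 1
          funext x
          unfold hf
          by_cases hx : x ∈ V₁
          · rw [if_pos hx]
            rcases hV1 x hx with e | e
            · rw [if_neg (by simp [e]), e]
            · rw [if_pos (by simp [e, hx]), e]
          · rw [if_neg hx]
            rcases hall x hx with e | e
            · rw [if_pos (by simp [e, hx]), e]
            · rw [if_neg (by simp [e]), e]
      · exact absurd hy hy1'
      · right
        have hall : ∀ y, y ∉ V₁ → h y = 3 ∨ h y = 1 := by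
          intro y hyy
          have h1 := hside y y1 (by simp [hyy, hy1])
          have h2 := hV2 y hyy
          omega
        refine ⟨(univ.filter (fun y => y ∈ V₁ ∧ h y = 0),
          univ.filter (fun y => y ∉ V₁ ∧ h y = 3)), ⟨?_, ?_, ?_, ?_, ?_⟩, ?_⟩
        · intro y hy
          rw [mem_filter] at hy
          exact hy.2.1
        · intro y hy
          rw [mem_filter] at hy
          rw [mem_compl]
          exact hy.2.1
        · exact ⟨v0, by simp [hv0, hv00]⟩
        · exact ⟨y1, by simp [hy1, hy]⟩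
        · intro x hx y hy hxy
          simp only [mem_filter, mem_univ, true_and] at hx hy
          have := (hs x y hxy).2
          omega
        · rw [hE]
          congr 1
          funext x
          unfold hf
          by_cases hx : x ∈ V₁
          · rw [if_pos hx]
            rcases hV1 x hx with e | e
            · rw [if_pos (by simp [e, hx]), e]
            · rw [if_neg (by simp [e]), e]
          · rw [if_neg hx]
            rcases hall x hx with e | e
            · rw [if_pos (by simp [e, hx]), e]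
            · rw [if_neg (by simp [e]), e]

theorem card_orient {V : Type*} [Fintype V] [DecidableEq V]
    (A : V → V → Prop) (V₁ : Finset V)
    (symm : ∀ x y, A x y → A y x)
    (bip : ∀ x y, A x y → (x ∈ V₁ ↔ y ∉ V₁))
    (hne : V₁.Nonempty)
    (common : ∀ x y z, (x ∈ V₁ ↔ y ∈ V₁) → (y ∈ V₁ ↔ z ∈ V₁) → ∃ w, A x w ∧ A y w ∧ A z w) :
    {E : V → V → Prop | ∃ N, Ok E N ∧ ∀ x y, Adj E x y ↔ A x y}.ncard
      ≤ 2 ^ V₁.card + 2 ^ V₁ᶜ.card + 2 * (mixed A V₁).ncard := by
  set S1 : Set (V → V → Prop) :=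
    (fun B : Finset V => Eh A (hf V₁ 0 0 1 (-1) (∅, B))) '' (V₁ᶜ.powerset : Set (Finset V)) with hS1
  set S2 : Set (V → V → Prop) :=
    (fun H : Finset V => Eh A (hf V₁ 2 0 1 1 (H, ∅))) '' (V₁.powerset : Set (Finset V)) with hS2
  set S3 : Set (V → V → Prop) := (fun I => Eh A (hf V₁ 2 0 (-1) 1 I)) '' (mixed A V₁) with hS3
  set S4 : Set (V → V → Prop) := (fun I => Eh A (hf V₁ 0 2 3 1 I)) '' (mixed A V₁) with hS4
  have hsub : {E : V → V → Prop | ∃ N, Ok E N ∧ ∀ x y, Adj E x y ↔ A x y} ⊆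
      (S1 ∪ S2) ∪ (S3 ∪ S4) := by
    rintro E ⟨N, ok, hA⟩
    rcases orient_cover A V₁ symm bip hne common ok hA with ⟨B, hB, e⟩ | ⟨B, hB, e⟩ | ⟨B, hB, e⟩ |
      ⟨B, hB, e⟩
    · exact Or.inl (Or.inl ⟨B, mem_coe.2 (mem_powerset.2 hB), e.symm⟩)
    · exact Or.inl (Or.inr ⟨B, mem_coe.2 (mem_powerset.2 hB), e.symm⟩)
    · exact Or.inr (Or.inl ⟨B, hB, e.symm⟩)
    · exact Or.inr (Or.inr ⟨B, hB, e.symm⟩)
  have h1 : S1.ncard ≤ 2 ^ V₁ᶜ.card := by
    refine (Set.ncard_image_le (Set.toFinite _)).trans ?_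
    rw [Set.ncard_coe_finset, card_powerset]
  have h2 : S2.ncard ≤ 2 ^ V₁.card := by
    refine (Set.ncard_image_le (Set.toFinite _)).trans ?_
    rw [Set.ncard_coe_finset, card_powerset]
  have h3 : S3.ncard ≤ (mixed A V₁).ncard := Set.ncard_image_le (Set.toFinite _)
  have h4 : S4.ncard ≤ (mixed A V₁).ncard := Set.ncard_image_le (Set.toFinite _)
  have h5 := Set.ncard_le_ncard hsub (Set.toFinite _)
  have h6 := Set.ncard_union_le (S1 ∪ S2) (S3 ∪ S4)
  have h7 := Set.ncard_union_le S1 S2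
  have h8 := Set.ncard_union_le S3 S4
  omega

/-- predicate from a pair of finsets -/
def ofPair {V : Type*} (I : Finset V × Finset V) : V → Prop := fun x => x ∈ I.1 ∨ x ∈ I.2

theorem card_indep {V : Type*} [Fintype V] [DecidableEq V]
    (A : V → V → Prop) (V₁ : Finset V) :
    {N : V → Prop | ∀ x y, A x y → ¬ (N x ∧ N y)}.ncard
      ≤ 2 ^ V₁.card + 2 ^ V₁ᶜ.card + (mixed A V₁).ncard := by
  classical
  set S1 : Set (V → Prop) :=
    (fun B : Finset V => ofPair (∅, B)) '' (V₁ᶜ.powerset : Set (Finset V)) with hS1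
  set S2 : Set (V → Prop) :=
    (fun B : Finset V => ofPair (B, ∅)) '' (V₁.powerset : Set (Finset V)) with hS2
  set S3 : Set (V → Prop) := ofPair '' (mixed A V₁) with hS3
  have hsub : {N : V → Prop | ∀ x y, A x y → ¬ (N x ∧ N y)} ⊆ (S1 ∪ S2) ∪ S3 := by
    intro N hN
    set P : Finset V := univ.filter (fun x => x ∈ V₁ ∧ N x) with hP
    set Q : Finset V := univ.filter (fun x => x ∉ V₁ ∧ N x) with hQ
    have hPs : P ⊆ V₁ := fun x hx => (mem_filter.1 hx).2.1
    have hQs : Q ⊆ V₁ᶜ := fun x hx => mem_compl.2 (mem_filter.1 hx).2.1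
    have hNe : N = ofPair (P, Q) := by
      funext x
      apply propext
      unfold ofPair
      simp only [hP, hQ, mem_filter, mem_univ, true_and]
      tauto
    rcases P.eq_empty_or_nonempty with h1 | h1
    · left; left
      refine ⟨Q, mem_coe.2 (mem_powerset.2 hQs), ?_⟩
      rw [hNe, h1]
    · rcases Q.eq_empty_or_nonempty with h2 | h2
      · left; right
        refine ⟨P, mem_coe.2 (mem_powerset.2 hPs), ?_⟩
        rw [hNe, h2]
      · right
        refine ⟨(P, Q), ⟨hPs, hQs, h1, h2, ?_⟩, hNe.symm⟩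
        intro x hx y hy hxy
        exact hN x y hxy ⟨(mem_filter.1 hx).2.2, (mem_filter.1 hy).2.2⟩
  have h1 : S1.ncard ≤ 2 ^ V₁ᶜ.card := by
    refine (Set.ncard_image_le (Set.toFinite _)).trans ?_
    rw [Set.ncard_coe_finset, card_powerset]
  have h2 : S2.ncard ≤ 2 ^ V₁.card := by
    refine (Set.ncard_image_le (Set.toFinite _)).trans ?_
    rw [Set.ncard_coe_finset, card_powerset]
  have h3 : S3.ncard ≤ (mixed A V₁).ncard := Set.ncard_image_le (Set.toFinite _)
  have h5 := Set.ncard_le_ncard hsub (Set.toFinite _)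
  have h6 := Set.ncard_union_le (S1 ∪ S2) S3
  have h7 := Set.ncard_union_le S1 S2
  omega

/-- TARGET: count of `Ok` structures with given underlying bipartite graph `A`. -/
theorem card_with_graph_le {V : Type*} [Fintype V] [DecidableEq V]
    (A : V → V → Prop) (V₁ : Finset V)
    (symm : ∀ x y, A x y → A y x)
    (bip : ∀ x y, A x y → (x ∈ V₁ ↔ y ∉ V₁))
    (hne : V₁.Nonempty) (hne' : V₁ᶜ.Nonempty)
    (common : ∀ x y z, (x ∈ V₁ ↔ y ∈ V₁) → (y ∈ V₁ ↔ z ∈ V₁) → ∃ w, A x w ∧ A y w ∧ A z w) :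
    {p : (V → V → Prop) × (V → Prop) | Ok p.1 p.2 ∧ ∀ x y, Adj p.1 x y ↔ A x y}.ncard
      ≤ (2 ^ V₁.card + 2 ^ V₁ᶜ.card + 2 * (mixed A V₁).ncard)
        * (2 ^ V₁.card + 2 ^ V₁ᶜ.card + (mixed A V₁).ncard) := by
  have hsub : {p : (V → V → Prop) × (V → Prop) | Ok p.1 p.2 ∧ ∀ x y, Adj p.1 x y ↔ A x y} ⊆
      {E : V → V → Prop | ∃ N, Ok E N ∧ ∀ x y, Adj E x y ↔ A x y} ×ˢ
        {N : V → Prop | ∀ x y, A x y → ¬ (N x ∧ N y)} := by
    rintro ⟨E, N⟩ ⟨ok, hA⟩
    refine ⟨⟨N, ok, hA⟩, ?_⟩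
    intro x y hxy
    rcases (hA x y).2 hxy with e | e
    · exact ok.indep x y e
    · exact fun h => ok.indep y x e ⟨h.2, h.1⟩
  have h1 := Set.ncard_le_ncard hsub (Set.toFinite _)
  rw [Set.ncard_prod] at h1
  exact h1.trans (Nat.mul_le_mul (card_orient A V₁ symm bip hne common) (card_indep A V₁))

end IdemCount.Ori
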