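import Mathlib
import Pool.Agent.Idem.Classes3
import Pool.Agent.Idem.Bip
import Pool.Agent.Idem.Orient
set_option autoImplicit false
open Finset

namespace IdemCount

variable {n : ℕ}

def clG (n q : ℕ) : Set (Str (Fin n)) :=
  {p | p ∈ X (Fin n) ∧ p ∉ clA n ∧ p ∉ clB n q ∧ p ∉ clC n q ∧ p ∉ clE2 n q ∧ p ∉ clE3 n q}

/-- `V₁` is one side of a bipartition with common neighbours -/
structure Side (p : Str (Fin n)) (V₁ : Finset (Fin n)) : Prop where
  bip : ∀ x y, Adj p.1 x y → (x ∈ V₁ ↔ y ∉ V₁)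
  hne : V₁.Nonempty
  hne' : V₁ᶜ.Nonempty
  common : ∀ x y z, (x ∈ V₁ ↔ y ∈ V₁) → (y ∈ V₁ ↔ z ∈ V₁) →
    ∃ w, Adj p.1 x w ∧ Adj p.1 y w ∧ Adj p.1 z w

lemma Side.compl {p : Str (Fin n)} {V₁ : Finset (Fin n)} (h : Side p V₁) : Side p V₁ᶜ := by
  refine ⟨?_, h.hne', by rw [compl_compl]; exact h.hne, ?_⟩
  · intro x y hxy
    have := h.bip x y hxy
    simp only [Finset.mem_compl]; tauto
  · intro x y z h1 h2
    simp only [Finset.mem_compl] at h1 h2
    exact h.common x y z (by tauto) (by tauto)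

lemma clG_props {q : ℕ} {p : Str (Fin n)} (hp : p ∈ clG n q) : Deg p ∧ F1 q p := by
  obtain ⟨h1, h2, h3, _⟩ := hp
  have hD : Deg p := by
    intro y
    by_contra hcon
    push Not at hcon
    exact h2 ⟨h1, y, hcon⟩
  refine ⟨hD, ?_⟩
  intro x Q hQ hQ'
  by_contra hcon
  push Not at hcon
  exact h3 ⟨h1, hD, x, Q, hQ, hQ', hcon⟩

lemma clG_side {q : ℕ} (hn : 100 * q + 1000 ≤ n) {p : Str (Fin n)} (hp : p ∈ clG n q) :
    ∃ V₁, Side p V₁ := by
  classical
  obtain ⟨hD, hF⟩ := clG_props hp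
  obtain ⟨h1, h2, h3, h4, h5, h6⟩ := hp
  obtain ⟨V₁, hV⟩ := Bip.exists_bipartition (V := Fin n) (Adj p.1) (fun x y h => h.symm) (nb p)
    (fun x y => mem_nb) q (by rw [Fintype.card_fin]; exact hn) (by
      intro x; rw [Fintype.card_fin]; exact hD x) (by
      intro x Q hQ hQ'
      rw [Fintype.card_fin]
      have := hF x Q hQ hQ'
      unfold NB at this
      convert this) (by
      intro x y hxy Q hQ hQ' R hR hR'
      rw [Fintype.card_fin]
      by_contra hcon
      push Not at hcon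
      refine h4 ⟨h1, hD, hF, x, y, hxy, Q, ?_, hQ', R, ?_, hR', ?_⟩
      · convert hQ
      · convert hR
      · unfold NB
        convert hcon)
  have hnbr : ∀ x, ∃ y, Adj p.1 x y := by
    intro x
    have := hD x
    have h7 : 0 < (nb p x).card := by omega
    obtain ⟨y, hy⟩ := Finset.card_pos.1 h7
    exact ⟨y, mem_nb.1 hy⟩
  have hQ : ∀ x, ∃ Q ⊆ nb p x, Q.card = q := by
    intro x
    refine Finset.exists_subset_card_eq ?_
    have := hD x
    omega
  have hdisj : ∀ x x', (x ∈ V₁ ↔ x' ∈ V₁) → ∀ Q ⊆ nb p x, Disjoint (nb p x') (NB p Q) := by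
    intro x x' hxx Q hQ
    rw [Finset.disjoint_left]
    intro y hy hy'
    rw [mem_NB] at hy'
    obtain ⟨z, hz, hzy⟩ := hy'
    have e1 := hV _ _ (mem_nb.1 hy)
    have e2 := hV _ _ (mem_nb.1 (hQ hz))
    have e3 := hV _ _ hzy
    tauto
  have hpair : ∀ x x', x ≠ x' → (x ∈ V₁ ↔ x' ∈ V₁) → n < 512 * (nb p x ∩ nb p x').card := by
    intro x x' hne hxx
    by_contra hcon
    push Not at hcon
    obtain ⟨Q, hQ1, hQ2⟩ := hQ x
    refine h5 ⟨h1, hD, hF, x, x', hne, Q, hQ1, hQ2, hdisj x x' hxx Q hQ1, ?_⟩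
    convert hcon
  refine ⟨V₁, hV, ?_, ?_, ?_⟩
  · obtain ⟨y, hy⟩ := hnbr ⟨0, by omega⟩
    have := hV _ _ hy
    by_cases h : (⟨0, by omega⟩ : Fin n) ∈ V₁
    · exact ⟨_, h⟩
    · exact ⟨y, by tauto⟩
  · obtain ⟨y, hy⟩ := hnbr ⟨0, by omega⟩
    have := hV _ _ hy
    by_cases h : (⟨0, by omega⟩ : Fin n) ∈ V₁
    · exact ⟨y, by rw [Finset.mem_compl]; tauto⟩
    · exact ⟨_, by rw [Finset.mem_compl]; exact h⟩
  · -- common neighbours
    have pair : ∀ x x', (x ∈ V₁ ↔ x' ∈ V₁) → ∃ w, Adj p.1 x w ∧ Adj p.1 x' w := by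
      intro x x' hxx
      by_cases hne : x = x'
      · subst hne
        obtain ⟨w, hw⟩ := hnbr x
        exact ⟨w, hw, hw⟩
      · have := hpair x x' hne hxx
        have h7 : 0 < (nb p x ∩ nb p x').card := by omega
        obtain ⟨w, hw⟩ := Finset.card_pos.1 h7
        rw [Finset.mem_inter, mem_nb, mem_nb] at hw
        exact ⟨w, hw⟩
    intro x y z hxy hyz
    by_cases e1 : x = y
    · subst e1
      obtain ⟨w, hw1, hw2⟩ := pair x z hyz
      exact ⟨w, hw1, hw1, hw2⟩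
    by_cases e2 : x = z
    · subst e2
      obtain ⟨w, hw1, hw2⟩ := pair x y hxy
      exact ⟨w, hw1, hw2, hw1⟩
    have h7 : n < 512 * (nb p y ∩ nb p z).card := by
      by_cases e3 : y = z
      · subst e3
        rw [Finset.inter_self]
        have := hD y
        omega
      · exact hpair y z e3 hyz
    by_contra hcon
    push Not at hcon
    obtain ⟨Q, hQ1, hQ2⟩ := hQ x
    refine h6 ⟨h1, hD, hF, x, y, z, e1, e2, Q, hQ1, hQ2, hdisj x y hxy Q hQ1, ?_, ?_⟩
    · convert h7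
    · rw [Finset.eq_empty_iff_forall_notMem]
      intro w hw
      rw [Finset.mem_inter, Finset.mem_inter, mem_nb, mem_nb, mem_nb] at hw
      exact hcon w hw.1 hw.2.1 hw.2.2

/-- no large hole -/
def NoHole (p : Str (Fin n)) (V₁ : Finset (Fin n)) : Prop :=
  ∀ I₁ I₂ : Finset (Fin n), I₁ ⊆ V₁ → I₂ ⊆ V₁ᶜ → n ≤ 512 * I₁.card → n ≤ 512 * I₂.card →
    ∃ x ∈ I₁, ∃ y ∈ I₂, Adj p.1 x y

lemma mixed_le {p : Str (Fin n)} (hD : Deg p) {V₁ : Finset (Fin n)} (hs : Side p V₁)
    (hh : NoHole p V₁) : (Ori.mixed (Adj p.1) V₁).ncard ≤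
      (small n 512).card * (2 ^ (V₁ᶜ.card - n / 16) + 2 ^ (V₁.card - n / 16)) := by
  classical
  -- split
  have hsub : Ori.mixed (Adj p.1) V₁ ⊆
      ({I | I.1 ∈ small n 512 ∧ I ∈ Ori.mixed (Adj p.1) V₁} ∪
        {I | I.2 ∈ small n 512 ∧ I ∈ Ori.mixed (Adj p.1) V₁}) := by
    intro I hI
    by_cases h1 : 512 * I.1.card ≤ n
    · left; exact ⟨by simp [small, h1], hI⟩
    · by_cases h2 : 512 * I.2.card ≤ n
      · right; exact ⟨by simp [small, h2], hI⟩
      · exfalso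
        obtain ⟨x, hx, y, hy, hxy⟩ := hh I.1 I.2 hI.1 hI.2.1 (by omega) (by omega)
        exact hI.2.2.2.2 x hx y hy hxy
  have hA : ({I | I.1 ∈ small n 512 ∧ I ∈ Ori.mixed (Adj p.1) V₁} : Set _).ncard ≤
      (small n 512).card * 2 ^ (V₁ᶜ.card - n / 16) := by
    have := ncard_le_fiber {I | I.1 ∈ small n 512 ∧ I ∈ Ori.mixed (Adj p.1) V₁}
      (small n 512 : Set (Finset (Fin n))) Prod.fst (fun I hI => hI.1) (2 ^ (V₁ᶜ.card - n / 16)) (by
        intro J hJ
        by_cases hJ' : J.Nonempty ∧ J ⊆ V₁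
        · obtain ⟨⟨x, hx⟩, hJ2⟩ := hJ'
          have hnx : nb p x ⊆ V₁ᶜ := by
            intro y hy
            rw [Finset.mem_compl]
            exact (hs.bip _ _ (mem_nb.1 hy)).1 (hJ2 hx)
          have hc : (V₁ᶜ \ nb p x).card ≤ V₁ᶜ.card - n / 16 := by
            rw [Finset.card_sdiff_of_subset hnx]
            have := hD x
            omega
          refine le_trans ?_ (Nat.pow_le_pow_right (by norm_num : 0 < 2) hc)
          rw [← Finset.card_powerset, ← Set.ncard_coe_finset]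
          refine Set.ncard_le_ncard_of_injOn Prod.snd ?_ ?_ (Set.toFinite _)
          · rintro ⟨I1, I2⟩ ⟨⟨_, h2⟩, h3⟩
            simp only at h3
            subst h3
            simp only [Finset.mem_coe, Finset.mem_powerset]
            intro y hy
            rw [Finset.mem_sdiff, mem_nb]
            exact ⟨h2.2.1 hy, h2.2.2.2.2 x hx y hy⟩
          · rintro ⟨I1, I2⟩ ⟨_, h3⟩ ⟨I1', I2'⟩ ⟨_, h3'⟩ h
            simp only at h3 h3' h
            rw [h3, h3', h]
        · have : {a | a ∈ {I | I.1 ∈ small n 512 ∧ I ∈ Ori.mixed (Adj p.1) V₁} ∧ a.1 = J} = ∅ := by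
            ext I
            simp only [Set.mem_ofPred_eq, Set.mem_empty_iff_false, iff_false]
            rintro ⟨⟨_, h2⟩, rfl⟩
            exact hJ' ⟨h2.2.2.1, h2.1⟩
          rw [this]; simp)
    rwa [Set.ncard_coe_finset] at this
  have hB : ({I | I.2 ∈ small n 512 ∧ I ∈ Ori.mixed (Adj p.1) V₁} : Set _).ncard ≤
      (small n 512).card * 2 ^ (V₁.card - n / 16) := by
    have := ncard_le_fiber {I | I.2 ∈ small n 512 ∧ I ∈ Ori.mixed (Adj p.1) V₁}
      (small n 512 : Set (Finset (Fin n))) Prod.snd (fun I hI => hI.1) (2 ^ (V₁.card - n / 16)) (by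
        intro J hJ
        by_cases hJ' : J.Nonempty ∧ J ⊆ V₁ᶜ
        · obtain ⟨⟨x, hx⟩, hJ2⟩ := hJ'
          have hnx : nb p x ⊆ V₁ := by
            intro y hy
            have h5 := (hs.bip _ _ (mem_nb.1 hy))
            have h6 := hJ2 hx
            rw [Finset.mem_compl] at h6
            tauto
          have hc : (V₁ \ nb p x).card ≤ V₁.card - n / 16 := by
            rw [Finset.card_sdiff_of_subset hnx]
            have := hD x
            omega
          refine le_trans ?_ (Nat.pow_le_pow_right (by norm_num : 0 < 2) hc)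
          rw [← Finset.card_powerset, ← Set.ncard_coe_finset]
          refine Set.ncard_le_ncard_of_injOn Prod.fst ?_ ?_ (Set.toFinite _)
          · rintro ⟨I1, I2⟩ ⟨⟨_, h2⟩, h3⟩
            simp only at h3
            subst h3
            simp only [Finset.mem_coe, Finset.mem_powerset]
            intro y hy
            rw [Finset.mem_sdiff, mem_nb]
            exact ⟨h2.1 hy, fun h => h2.2.2.2.2 y hy x hx h.symm⟩
          · rintro ⟨I1, I2⟩ ⟨_, h3⟩ ⟨I1', I2'⟩ ⟨_, h3'⟩ h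
            simp only at h3 h3' h
            rw [h3, h3', h]
        · have : {a | a ∈ {I | I.2 ∈ small n 512 ∧ I ∈ Ori.mixed (Adj p.1) V₁} ∧ a.2 = J} = ∅ := by
            ext I
            simp only [Set.mem_ofPred_eq, Set.mem_empty_iff_false, iff_false]
            rintro ⟨⟨_, h2⟩, rfl⟩
            exact hJ' ⟨h2.2.2.2.1, h2.2.1⟩
          rw [this]; simp)
    rwa [Set.ncard_coe_finset] at this
  calc _ ≤ _ := Set.ncard_le_ncard hsub (Set.toFinite _)
    _ ≤ _ := Set.ncard_union_le _ _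
    _ ≤ _ := by rw [mul_add]; exact Nat.add_le_add hA hB

/-- symmetric bipartite relations -/
def bipRel (V₁ : Finset (Fin n)) : Set (Fin n → Fin n → Prop) :=
  {A | (∀ x y, A x y → A y x) ∧ ∀ x y, A x y → (x ∈ V₁ ↔ y ∉ V₁)}

lemma card_bipRel_off (V₁ I₁ I₂ : Finset (Fin n)) (h1 : I₁ ⊆ V₁) (h2 : I₂ ⊆ V₁ᶜ) :
    {A | A ∈ bipRel V₁ ∧ ∀ x ∈ I₁, ∀ y ∈ I₂, ¬ A x y}.ncard ≤
      2 ^ (V₁.card * V₁ᶜ.card - I₁.card * I₂.card) := by
  classical
  have hc : ((V₁ ×ˢ V₁ᶜ) \ (I₁ ×ˢ I₂)).card = V₁.card * V₁ᶜ.card - I₁.card * I₂.card := by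
    rw [Finset.card_sdiff_of_subset (Finset.product_subset_product h1 h2), Finset.card_product,
      Finset.card_product]
  rw [← hc, ← Finset.card_powerset, ← Set.ncard_coe_finset]
  refine Set.ncard_le_ncard_of_injOn
    (fun A => ((V₁ ×ˢ V₁ᶜ) \ (I₁ ×ˢ I₂)).filter fun w => A w.1 w.2) ?_ ?_ (Set.toFinite _)
  · intro A _
    simp only [Finset.mem_coe, Finset.mem_powerset]
    exact Finset.filter_subset _ _
  · rintro A ⟨⟨s1, b1⟩, o1⟩ A' ⟨⟨s2, b2⟩, o2⟩ h
    have key : ∀ x ∈ V₁, ∀ y ∈ V₁ᶜ, (A x y ↔ A' x y) := by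
      intro x hx y hy
      by_cases hI : x ∈ I₁ ∧ y ∈ I₂
      · exact ⟨fun h => absurd h (o1 x hI.1 y hI.2), fun h => absurd h (o2 x hI.1 y hI.2)⟩
      · have h3 := Finset.ext_iff.1 h (x, y)
        simp only [Finset.mem_filter, Finset.mem_sdiff, Finset.mem_product, hx, hy, hI, and_self,
          not_false_eq_true, true_and] at h3
        exact h3
    funext x y
    apply propext
    by_cases hx : x ∈ V₁
    · by_cases hy : y ∈ V₁
      · exact ⟨fun h => absurd hy ((b1 x y h).1 hx), fun h => absurd hy ((b2 x y h).1 hx)⟩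
      · exact key x hx y (by rw [Finset.mem_compl]; exact hy)
    · by_cases hy : y ∈ V₁
      · have h4 := key y hy x (by rw [Finset.mem_compl]; exact hx)
        exact ⟨fun h => s2 _ _ (h4.1 (s1 _ _ h)), fun h => s1 _ _ (h4.2 (s2 _ _ h))⟩
      · constructor
        · intro h; exact absurd ((b1 x y h).2 hy) hx
        · intro h; exact absurd ((b2 x y h).2 hy) hx

lemma card_bipRel (V₁ : Finset (Fin n)) : (bipRel V₁).ncard ≤ 2 ^ (V₁.card * V₁ᶜ.card) := by
  have := card_bipRel_off V₁ ∅ ∅ (Finset.empty_subset _) (Finset.empty_subset _)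
  simp only [Finset.notMem_empty, IsEmpty.forall_iff, implies_true, and_true, Finset.card_empty,
    mul_zero, Nat.sub_zero] at this
  exact this

end IdemCount
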