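import Mathlib
import Pool.Agent.Idem.Good
set_option autoImplicit false
open Finset

namespace IdemCount

variable {n : ℕ}

noncomputable def theta (n : ℕ) : ℝ := ((small n 512).card : ℝ) / 2 ^ (n / 16)

lemma theta_nonneg (n : ℕ) : 0 ≤ theta n := by unfold theta; positivity

/-- good structures with side `V₁` without hole -/
def PG (q : ℕ) (V₁ : Finset (Fin n)) : Set (Str (Fin n)) :=
  {p | p ∈ clG n q ∧ Side p V₁ ∧ NoHole p V₁}

lemma card_ab (V₁ : Finset (Fin n)) : V₁.card + V₁ᶜ.card = n := by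
  rw [Finset.card_add_card_compl, Fintype.card_fin]

lemma mixed_real {q : ℕ} {p : Str (Fin n)} {V₁ : Finset (Fin n)} (hp : p ∈ PG q V₁) :
    ((Ori.mixed (Adj p.1) V₁).ncard : ℝ) ≤ theta n * (2 ^ V₁.card + 2 ^ V₁ᶜ.card) := by
  classical
  obtain ⟨h1, h2, h3⟩ := hp
  have hD := (clG_props h1).1
  have hm := mixed_le hD h2 h3
  have ha : n / 16 ≤ V₁ᶜ.card := by
    obtain ⟨x, hx⟩ := h2.hne
    have hnx : nb p x ⊆ V₁ᶜ := by
      intro y hy
      rw [Finset.mem_compl]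
      exact (h2.bip _ _ (mem_nb.1 hy)).1 hx
    have h4 := Finset.card_le_card hnx
    have h5 := hD x
    omega
  have hb : n / 16 ≤ V₁.card := by
    obtain ⟨x, hx⟩ := h2.hne'
    have hnx : nb p x ⊆ V₁ := by
      intro y hy
      have h5 := (h2.bip _ _ (mem_nb.1 hy))
      rw [Finset.mem_compl] at hx
      tauto
    have h4 := Finset.card_le_card hnx
    have h5 := hD x
    omega
  have e1 : (2 : ℝ) ^ (V₁ᶜ.card - n / 16) = 2 ^ V₁ᶜ.card / 2 ^ (n / 16) := by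
    rw [pow_sub₀ _ (by norm_num) ha]; rfl
  have e2 : (2 : ℝ) ^ (V₁.card - n / 16) = 2 ^ V₁.card / 2 ^ (n / 16) := by
    rw [pow_sub₀ _ (by norm_num) hb]; rfl
  calc ((Ori.mixed (Adj p.1) V₁).ncard : ℝ)
      ≤ (((small n 512).card * (2 ^ (V₁ᶜ.card - n / 16) + 2 ^ (V₁.card - n / 16)) : ℕ) : ℝ) := by
        exact_mod_cast hm
    _ = theta n * (2 ^ V₁.card + 2 ^ V₁ᶜ.card) := by
        push_cast
        rw [e1, e2, theta]
        ring

lemma card_PG (q : ℕ) (V₁ : Finset (Fin n)) : ((PG q V₁).ncard : ℝ) ≤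
    2 ^ (V₁.card * V₁ᶜ.card) *
      ((1 + 2 * theta n) * (1 + theta n) * ((2 : ℝ) ^ V₁.card + 2 ^ V₁ᶜ.card) ^ 2) := by
  classical
  set B : ℝ := (1 + 2 * theta n) * (1 + theta n) * ((2 : ℝ) ^ V₁.card + 2 ^ V₁ᶜ.card) ^ 2 with hB
  have hθ := theta_nonneg n
  have hB0 : 0 ≤ B := by positivity
  have h := ncard_le_fiber (PG q V₁) (bipRel V₁) (fun p => Adj p.1) (by
    intro p hp
    exact ⟨fun x y h => h.symm, hp.2.1.bip⟩) ⌊B⌋₊ (by
    intro A hA
    by_cases hne : ∃ p, p ∈ PG q V₁ ∧ Adj p.1 = A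
    swap
    · have : {a | a ∈ PG q V₁ ∧ (fun p : Str (Fin n) => Adj p.1) a = A} = ∅ := by
        ext a
        simp only [Set.mem_ofPred_eq, Set.mem_empty_iff_false, iff_false]
        rintro ⟨h1, h2⟩
        exact hne ⟨a, h1, h2⟩
      rw [this]; simp
    obtain ⟨p0, hp0, rfl⟩ := hne
    have h1 := Ori.card_with_graph_le (V := Fin n) (Adj p0.1) V₁ (fun x y h => h.symm) hp0.2.1.bip
      hp0.2.1.hne hp0.2.1.hne' hp0.2.1.common
    have h2 := mixed_real hp0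
    refine le_trans (Set.ncard_le_ncard ?_ (Set.toFinite _)) (h1.trans (Nat.le_floor ?_))
    · rintro p ⟨h3, h4⟩
      refine ⟨h3.1.1, ?_⟩
      intro x y
      have h5 : Adj p.1 = Adj p0.1 := h4
      rw [h5]
    · push_cast
      set m : ℝ := ((Ori.mixed (Adj p0.1) V₁).ncard : ℝ)
      set s : ℝ := (2 : ℝ) ^ V₁.card + 2 ^ V₁ᶜ.card
      have hs : 0 ≤ s := by positivity
      have hm0 : 0 ≤ m := Nat.cast_nonneg _
      calc (s + 2 * m) * (s + m) ≤ (s + 2 * (theta n * s)) * (s + theta n * s) := by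
            gcongr
        _ = B := by rw [hB]; ring)
  have h3 := card_bipRel V₁
  calc ((PG q V₁).ncard : ℝ) ≤ ((bipRel V₁).ncard : ℝ) * (⌊B⌋₊ : ℝ) := by exact_mod_cast h
    _ ≤ (2 ^ (V₁.card * V₁ᶜ.card) : ℝ) * B := by
        refine mul_le_mul ?_ (Nat.floor_le hB0) (by positivity) (by positivity)
        exact_mod_cast h3

lemma sum_subsets (g : ℕ → ℕ → ℝ) :
    ∑ V₁ : Finset (Fin n), g V₁.card V₁ᶜ.card =
      ∑ b ∈ range (n + 1), (n.choose b : ℝ) * g b (n - b) := by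
  have h := Finset.sum_powerset_apply_card (x := (univ : Finset (Fin n))) (fun b => g b (n - b))
  rw [Finset.powerset_univ, Finset.card_univ, Fintype.card_fin] at h
  simp only [nsmul_eq_mul] at h
  rw [← h]
  refine Finset.sum_congr rfl fun V _ => ?_
  rw [Finset.card_compl, Fintype.card_fin]

theorem card_good (q : ℕ) (hn : 100 * q + 1000 ≤ n) :
    (({p | p ∈ clG n q ∧ ∀ V₁, Side p V₁ → NoHole p V₁} : Set (Str (Fin n))).ncard : ℝ) ≤
      (1 + 2 * theta n) * (1 + theta n) * f n := by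
  classical
  set G : Set (Str (Fin n)) := {p | p ∈ clG n q ∧ ∀ V₁, Side p V₁ → NoHole p V₁} with hG
  have h1 : 2 * G.ncard ≤ ∑ V₁ : Finset (Fin n), (PG q V₁).ncard := by
    have e1 : ∀ V₁ : Finset (Fin n), (G ∩ PG q V₁).ncard = ∑ p ∈ G.toFinset, if p ∈ PG q V₁ then 1 else 0 := by
      intro V₁
      rw [Finset.sum_boole, Set.ncard_eq_toFinset_card']
      simp only [Nat.cast_id]
      congr 1
      ext p
      simp
    calc 2 * G.ncard = ∑ p ∈ G.toFinset, 2 := by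
          rw [Finset.sum_const, smul_eq_mul, Set.ncard_eq_toFinset_card', mul_comm]
      _ ≤ ∑ p ∈ G.toFinset, ∑ V₁ : Finset (Fin n), (if p ∈ PG q V₁ then 1 else 0) := by
          refine Finset.sum_le_sum fun p hp => ?_
          rw [Set.mem_toFinset] at hp
          obtain ⟨V, hV⟩ := clG_side hn hp.1
          have hne : V ≠ Vᶜ := by
            intro h
            obtain ⟨x, hx⟩ := hV.hne
            have h2 := hx
            rw [h, Finset.mem_compl] at h2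
            exact h2 hx
          have hVm : p ∈ PG q V := ⟨hp.1, hV, hp.2 V hV⟩
          have hVm' : p ∈ PG q Vᶜ := ⟨hp.1, hV.compl, hp.2 _ hV.compl⟩
          rw [Finset.sum_boole]
          have : ({V, Vᶜ} : Finset (Finset (Fin n))) ⊆ univ.filter fun V₁ => p ∈ PG q V₁ := by
            intro W hW
            rw [Finset.mem_insert, Finset.mem_singleton] at hW
            rw [Finset.mem_filter]
            rcases hW with rfl | rfl
            · exact ⟨Finset.mem_univ _, hVm⟩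
            · exact ⟨Finset.mem_univ _, hVm'⟩
          have h3 := Finset.card_le_card this
          rw [Finset.card_pair hne] at h3
          exact_mod_cast h3
      _ = ∑ V₁ : Finset (Fin n), ∑ p ∈ G.toFinset, (if p ∈ PG q V₁ then 1 else 0) := Finset.sum_comm
      _ = ∑ V₁ : Finset (Fin n), (G ∩ PG q V₁).ncard := by
          refine Finset.sum_congr rfl fun V _ => (e1 V).symm
      _ ≤ _ := Finset.sum_le_sum fun V _ => Set.ncard_le_ncard Set.inter_subset_right (Set.toFinite _)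
  have h2 : (∑ V₁ : Finset (Fin n), ((PG q V₁).ncard : ℝ)) ≤
      (1 + 2 * theta n) * (1 + theta n) * (2 * f n) := by
    calc _ ≤ ∑ V₁ : Finset (Fin n), (2 : ℝ) ^ (V₁.card * V₁ᶜ.card) *
          ((1 + 2 * theta n) * (1 + theta n) * ((2 : ℝ) ^ V₁.card + 2 ^ V₁ᶜ.card) ^ 2) :=
          Finset.sum_le_sum fun V _ => card_PG q V
      _ = ∑ b ∈ range (n + 1), (n.choose b : ℝ) * ((2 : ℝ) ^ (b * (n - b)) *
          ((1 + 2 * theta n) * (1 + theta n) * ((2 : ℝ) ^ b + 2 ^ (n - b)) ^ 2)) :=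
          sum_subsets (fun a b => (2 : ℝ) ^ (a * b) *
          ((1 + 2 * theta n) * (1 + theta n) * ((2 : ℝ) ^ a + 2 ^ b) ^ 2))
      _ = _ := by
          rw [f]
          rw [← mul_assoc 2 (1 / 2 : ℝ), show (2 : ℝ) * (1 / 2) = 1 by norm_num, one_mul, Finset.mul_sum]
          refine Finset.sum_congr rfl fun b _ => ?_
          ring
  have h3 : (2 : ℝ) * (G.ncard : ℝ) ≤ ∑ V₁ : Finset (Fin n), ((PG q V₁).ncard : ℝ) := by
    exact_mod_cast h1
  nlinarith

/-! ### holes -/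

lemma mixed_trivial (A : Fin n → Fin n → Prop) (V₁ : Finset (Fin n)) :
    (Ori.mixed A V₁).ncard ≤ 2 ^ n := by
  classical
  have : 2 ^ n = (V₁.powerset ×ˢ V₁ᶜ.powerset).card := by
    rw [Finset.card_product, Finset.card_powerset, Finset.card_powerset, ← pow_add, card_ab]
  rw [this, ← Set.ncard_coe_finset]
  refine Set.ncard_le_ncard ?_ (Set.toFinite _)
  intro I hI
  simp only [Finset.coe_product, Set.mem_prod, Finset.mem_coe, Finset.mem_powerset]
  exact ⟨hI.1, hI.2.1⟩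

theorem card_hole (q : ℕ) :
    ({p | p ∈ clG n q ∧ ∃ V₁, Side p V₁ ∧ ¬ NoHole p V₁} : Set (Str (Fin n))).ncard ≤
      (2 ^ n * (2 ^ n * 2 ^ n)) * (2 ^ (n ^ 2 / 4 - n ^ 2 / 262144) * 2 ^ (2 * n + 4)) := by
  classical
  have h := ncard_exists_le (ι := Finset (Fin n) × Finset (Fin n) × Finset (Fin n))
    (fun i (p : Str (Fin n)) => p ∈ X (Fin n) ∧ Side p i.1 ∧ i.2.1 ⊆ i.1 ∧ i.2.2 ⊆ i.1ᶜ ∧
      n ≤ 512 * i.2.1.card ∧ n ≤ 512 * i.2.2.card ∧ ∀ x ∈ i.2.1, ∀ y ∈ i.2.2, ¬ Adj p.1 x y)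
    (2 ^ (n ^ 2 / 4 - n ^ 2 / 262144) * 2 ^ (2 * n + 4)) (by
      rintro ⟨V₁, I₁, I₂⟩
      simp only
      by_cases hc : I₁ ⊆ V₁ ∧ I₂ ⊆ V₁ᶜ ∧ n ≤ 512 * I₁.card ∧ n ≤ 512 * I₂.card
      swap
      · have : {a : Str (Fin n) | a ∈ X (Fin n) ∧ Side a V₁ ∧ I₁ ⊆ V₁ ∧ I₂ ⊆ V₁ᶜ ∧ n ≤ 512 * I₁.card ∧
            n ≤ 512 * I₂.card ∧ ∀ x ∈ I₁, ∀ y ∈ I₂, ¬ Adj a.1 x y} = ∅ := by
          ext a
          simp only [Set.mem_ofPred_eq, Set.mem_empty_iff_false, iff_false]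
          rintro ⟨_, _, h1, h2, h3, h4, _⟩
          exact hc ⟨h1, h2, h3, h4⟩
        rw [this]; simp
      obtain ⟨c1, c2, c3, c4⟩ := hc
      have h1 := ncard_le_fiber {a : Str (Fin n) | a ∈ X (Fin n) ∧ Side a V₁ ∧ I₁ ⊆ V₁ ∧ I₂ ⊆ V₁ᶜ ∧ n ≤ 512 * I₁.card ∧
            n ≤ 512 * I₂.card ∧ ∀ x ∈ I₁, ∀ y ∈ I₂, ¬ Adj a.1 x y}
        {A | A ∈ bipRel V₁ ∧ ∀ x ∈ I₁, ∀ y ∈ I₂, ¬ A x y} (fun p => Adj p.1) (by
          rintro p ⟨h1, h2, _, _, _, _, h3⟩
          exact ⟨⟨fun x y h => h.symm, h2.bip⟩, h3⟩) (2 ^ (2 * n + 4)) (by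
          rintro A -
          by_cases hne : ∃ p : Str (Fin n), p ∈ X (Fin n) ∧ Side p V₁ ∧ Adj p.1 = A
          swap
          · have : {a : Str (Fin n) | a ∈ {a : Str (Fin n) | a ∈ X (Fin n) ∧ Side a V₁ ∧ I₁ ⊆ V₁ ∧ I₂ ⊆ V₁ᶜ ∧ n ≤ 512 * I₁.card ∧
                n ≤ 512 * I₂.card ∧ ∀ x ∈ I₁, ∀ y ∈ I₂, ¬ Adj a.1 x y} ∧ (fun p : Str (Fin n) => Adj p.1) a = A} = ∅ := by
              ext a
              simp only [Set.mem_ofPred_eq, Set.mem_empty_iff_false, iff_false]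
              rintro ⟨⟨h1, h2, _⟩, h3⟩
              exact hne ⟨a, h1, h2, h3⟩
            rw [this]; simp
          obtain ⟨p0, hp0, hs0, rfl⟩ := hne
          have h2 := Ori.card_with_graph_le (V := Fin n) (Adj p0.1) V₁ (fun x y h => h.symm) hs0.bip
            hs0.hne hs0.hne' hs0.common
          refine le_trans (Set.ncard_le_ncard ?_ (Set.toFinite _)) (h2.trans ?_)
          · rintro p ⟨h3, h4⟩
            refine ⟨h3.1, ?_⟩
            intro x y
            have h5 : Adj p.1 = Adj p0.1 := h4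
            rw [h5]
          · have h3 := mixed_trivial (Adj p0.1) V₁
            have h4 : 2 ^ V₁.card ≤ 2 ^ n := Nat.pow_le_pow_right (by norm_num) (by have := card_ab V₁; omega)
            have h5 : 2 ^ V₁ᶜ.card ≤ 2 ^ n := Nat.pow_le_pow_right (by norm_num) (by have := card_ab V₁; omega)
            calc _ ≤ (2 ^ n + 2 ^ n + 2 * 2 ^ n) * (2 ^ n + 2 ^ n + 2 ^ n) := by gcongr
              _ ≤ (4 * 2 ^ n) * (4 * 2 ^ n) := Nat.mul_le_mul (by omega) (by omega)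
              _ = 2 ^ (2 * n + 4) := by ring)
      refine h1.trans (Nat.mul_le_mul_right _ ?_)
      refine (card_bipRel_off V₁ I₁ I₂ c1 c2).trans (Nat.pow_le_pow_right (by norm_num) ?_)
      have h6 := card_ab V₁
      have h7 : V₁.card * V₁ᶜ.card ≤ n ^ 2 / 4 := by
        rw [Nat.le_div_iff_mul_le (by norm_num)]
        have h9 : n ^ 2 = (V₁.card + V₁ᶜ.card) ^ 2 := by rw [h6]
        rw [h9]
        zify
        nlinarith [sq_nonneg ((V₁.card : ℤ) - (V₁ᶜ.card : ℤ))]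
      have h8 : n ^ 2 / 262144 ≤ I₁.card * I₂.card := by
        refine Nat.div_le_of_le_mul ?_
        calc n ^ 2 = n * n := sq n
          _ ≤ (512 * I₁.card) * (512 * I₂.card) := Nat.mul_le_mul c3 c4
          _ = 262144 * (I₁.card * I₂.card) := by ring
      omega)
  have hc : Fintype.card (Finset (Fin n) × Finset (Fin n) × Finset (Fin n)) = 2 ^ n * (2 ^ n * 2 ^ n) := by
    rw [Fintype.card_prod, Fintype.card_prod, Fintype.card_finset, Fintype.card_fin]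
  rw [hc] at h
  refine le_trans (Set.ncard_le_ncard ?_ (Set.toFinite _)) h
  rintro p ⟨h1, V₁, h2, h3⟩
  unfold NoHole at h3
  push Not at h3
  obtain ⟨I₁, I₂, h4, h5, h6, h7, h8⟩ := h3
  exact ⟨(V₁, I₁, I₂), h1.1, h2, h4, h5, h6, h7, h8⟩

end IdemCount
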