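import Mathlib
import Pool.Agent.Idem.Basic
set_option autoImplicit false
open Finset Filter

namespace IdemCount.Fn


theorem two_rpow_nat (k : ℕ) : (2 : ℝ) ^ k = (2 : ℝ) ^ (k : ℝ) := by
  rw [Real.rpow_natCast]

theorem pow_add_pow_le (b m : ℕ) : ((2 : ℝ) ^ b + 2 ^ m) ≤ (2 : ℝ) ^ ((max b m : ℝ) + 1) := by
  have h1 : (2 : ℝ) ^ b ≤ (2 : ℝ) ^ (max b m : ℝ) := by
    rw [two_rpow_nat]
    exact Real.rpow_le_rpow_of_exponent_le (by norm_num) (le_max_left _ _)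
  have h2 : (2 : ℝ) ^ m ≤ (2 : ℝ) ^ (max b m : ℝ) := by
    rw [two_rpow_nat]
    exact Real.rpow_le_rpow_of_exponent_le (by norm_num) (le_max_right _ _)
  rw [Real.rpow_add (by norm_num), Real.rpow_one]
  linarith

theorem sum_choose_real (n : ℕ) : ∑ b ∈ range (n + 1), (n.choose b : ℝ) = 2 ^ n := by
  exact_mod_cast Nat.sum_range_choose n

/-- TARGET 1 -/
theorem f_lower (n : ℕ) : (2 : ℝ) ^ ((n : ℝ) ^ 2 / 4 + 2 * n) / (n + 1) ≤ f n := by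
  have hmid : (2 : ℝ) ^ n / (n + 1) ≤ (n.choose (n / 2) : ℝ) := by
    rw [div_le_iff₀ (by positivity), ← sum_choose_real]
    calc ∑ b ∈ range (n + 1), (n.choose b : ℝ) ≤ ∑ b ∈ range (n + 1), (n.choose (n / 2) : ℝ) := by
          apply Finset.sum_le_sum
          intro b _
          exact_mod_cast Nat.choose_le_middle b n
      _ = (n.choose (n / 2) : ℝ) * (n + 1) := by
          rw [Finset.sum_const, Finset.card_range]; push_cast [nsmul_eq_mul]; ring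
  obtain ⟨b, m, hb, hbm, hq⟩ : ∃ b m : ℕ, b = n / 2 ∧ b + m = n ∧ m ≤ b + 1 ∧ b ≤ m := by
    refine ⟨n / 2, n - n / 2, rfl, ?_, ?_, ?_⟩ <;> omega
  have hm : n - b = m := by omega
  have hexp : (n : ℝ) ^ 2 / 4 - 1 / 4 ≤ (b : ℝ) * m := by
    have : (n : ℝ) = b + m := by exact_mod_cast hbm.symm
    rw [this]
    have h1 : (m : ℝ) ≤ b + 1 := by exact_mod_cast hq.1
    have h2 : (b : ℝ) ≤ m := by exact_mod_cast hq.2
    nlinarith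
  have hterm : (n.choose b : ℝ) * 2 ^ (b * (n - b)) * ((2 : ℝ) ^ b + 2 ^ (n - b)) ^ 2 ≤
      ∑ b ∈ range (n + 1),
        (n.choose b : ℝ) * 2 ^ (b * (n - b)) * ((2 : ℝ) ^ b + 2 ^ (n - b)) ^ 2 := by
    apply Finset.single_le_sum (f := fun b => (n.choose b : ℝ) * 2 ^ (b * (n - b)) *
      ((2 : ℝ) ^ b + 2 ^ (n - b)) ^ 2)
    · intro i _; positivity
    · rw [Finset.mem_range]; omega
  rw [hm] at hterm
  have hsq : 4 * (2 : ℝ) ^ n ≤ ((2 : ℝ) ^ b + 2 ^ m) ^ 2 := by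
    have : (2 : ℝ) ^ n = 2 ^ b * 2 ^ m := by rw [← pow_add, hbm]
    rw [this]
    nlinarith [sq_nonneg ((2 : ℝ) ^ b - 2 ^ m)]
  have hp : (2 : ℝ) ^ ((n : ℝ) ^ 2 / 4) * (1 / 2) ≤ 2 ^ (b * m) := by
    have : (2 : ℝ) ^ (b * m) = (2 : ℝ) ^ ((b : ℝ) * m) := by
      rw [two_rpow_nat]; push_cast; rfl
    rw [this]
    calc (2 : ℝ) ^ ((n : ℝ) ^ 2 / 4) * (1 / 2) = (2 : ℝ) ^ ((n : ℝ) ^ 2 / 4 - 1) := by
          rw [Real.rpow_sub (by norm_num), Real.rpow_one]; ring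
      _ ≤ _ := Real.rpow_le_rpow_of_exponent_le (by norm_num) (by linarith)
  have hgoal : (2 : ℝ) ^ ((n : ℝ) ^ 2 / 4 + 2 * n) / (n + 1) =
      (2 : ℝ) ^ ((n : ℝ) ^ 2 / 4) * (2 ^ n * (2 ^ n / (n + 1))) := by
    rw [Real.rpow_add (by norm_num), show (2 : ℝ) * n = n + n by ring,
      Real.rpow_add (by norm_num), Real.rpow_natCast]
    ring
  rw [hgoal]
  unfold f
  subst hb
  calc (2 : ℝ) ^ ((n : ℝ) ^ 2 / 4) * (2 ^ n * (2 ^ n / (n + 1)))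
      = (1 / 2) * ((2 ^ n / (n + 1)) * ((2 : ℝ) ^ ((n : ℝ) ^ 2 / 4) * (1 / 2)) * (4 * 2 ^ n)) := by
        ring
    _ ≤ (1 / 2) * ((n.choose (n / 2) : ℝ) * 2 ^ (n / 2 * m) *
          ((2 : ℝ) ^ (n / 2) + 2 ^ m) ^ 2) := by
        gcongr
    _ ≤ _ := by gcongr

/-- TARGET 2 -/
theorem f_upper (n : ℕ) : f n ≤ 4 * (2 : ℝ) ^ ((n : ℝ) ^ 2 / 4 + 2 * n) := by
  have key : ∀ b ∈ range (n + 1), (n.choose b : ℝ) * 2 ^ (b * (n - b)) *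
      ((2 : ℝ) ^ b + 2 ^ (n - b)) ^ 2 ≤ (n.choose b : ℝ) * (8 * (2 : ℝ) ^ ((n : ℝ) ^ 2 / 4 + n)) := by
    intro b hb
    rw [Finset.mem_range] at hb
    obtain ⟨m, hm⟩ : ∃ m : ℕ, n = b + m := ⟨n - b, by omega⟩
    have hm' : n - b = m := by omega
    rw [hm', mul_assoc]
    apply mul_le_mul_of_nonneg_left _ (by positivity)
    have h1 : ((2 : ℝ) ^ b + 2 ^ m) ^ 2 ≤ ((2 : ℝ) ^ ((max b m : ℝ) + 1)) ^ 2 := by
      have := pow_add_pow_le b m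
      gcongr
    have h2 : ((2 : ℝ) ^ ((max b m : ℝ) + 1)) ^ 2 = (2 : ℝ) ^ (2 * ((max b m : ℝ) + 1)) := by
      rw [← Real.rpow_natCast, ← Real.rpow_mul (by norm_num)]
      congr 1; push_cast; ring
    have h3 : (2 : ℝ) ^ (b * m) = (2 : ℝ) ^ ((b : ℝ) * m) := by
      rw [two_rpow_nat]; push_cast; rfl
    have h8 : (8 : ℝ) = (2 : ℝ) ^ (3 : ℝ) := by norm_num
    calc (2 : ℝ) ^ (b * m) * ((2 : ℝ) ^ b + 2 ^ m) ^ 2
        ≤ (2 : ℝ) ^ ((b : ℝ) * m) * (2 : ℝ) ^ (2 * ((max b m : ℝ) + 1)) := by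
          rw [← h3, ← h2]; gcongr
      _ = (2 : ℝ) ^ ((b : ℝ) * m + 2 * ((max b m : ℝ) + 1)) := by
          rw [← Real.rpow_add (by norm_num)]
      _ ≤ (2 : ℝ) ^ (3 + ((n : ℝ) ^ 2 / 4 + n)) := by
          apply Real.rpow_le_rpow_of_exponent_le (by norm_num)
          have hn : (n : ℝ) = b + m := by exact_mod_cast hm
          rw [hn]
          rcases le_total (b : ℝ) m with h | h
          · rw [max_eq_right h]; nlinarith [sq_nonneg ((m : ℝ) - b - 2)]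
          · rw [max_eq_left h]; nlinarith [sq_nonneg ((b : ℝ) - m - 2)]
      _ = 8 * (2 : ℝ) ^ ((n : ℝ) ^ 2 / 4 + n) := by
          rw [Real.rpow_add (by norm_num), h8]
  unfold f
  calc (1 / 2) * ∑ b ∈ range (n + 1), (n.choose b : ℝ) * 2 ^ (b * (n - b)) *
        ((2 : ℝ) ^ b + 2 ^ (n - b)) ^ 2
      ≤ (1 / 2) * ∑ b ∈ range (n + 1), (n.choose b : ℝ) * (8 * (2 : ℝ) ^ ((n : ℝ) ^ 2 / 4 + n)) := by
        exact mul_le_mul_of_nonneg_left (Finset.sum_le_sum key) (by norm_num)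
    _ = 4 * (2 : ℝ) ^ ((n : ℝ) ^ 2 / 4 + 2 * n) := by
        rw [← Finset.sum_mul, sum_choose_real, show (n : ℝ) ^ 2 / 4 + 2 * n =
          (n : ℝ) ^ 2 / 4 + n + n by ring, Real.rpow_add (by norm_num) ((n : ℝ) ^ 2 / 4 + n),
          Real.rpow_natCast]
        ring

/-- TARGET 3 (symmetrisation `b ↦ n - b`). -/
theorem f_eq (n : ℕ) : f n = ∑ b ∈ range (n + 1),
    (n.choose b : ℝ) * 2 ^ (n - b) * 2 ^ (b * (n - b)) * ((2 : ℝ) ^ b + 2 ^ (n - b)) := by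
  have hrefl : ∑ b ∈ range (n + 1),
      (n.choose b : ℝ) * 2 ^ (n - b) * 2 ^ (b * (n - b)) * ((2 : ℝ) ^ b + 2 ^ (n - b)) =
      ∑ b ∈ range (n + 1),
      (n.choose b : ℝ) * 2 ^ b * 2 ^ (b * (n - b)) * ((2 : ℝ) ^ b + 2 ^ (n - b)) := by
    rw [← Finset.sum_range_reflect]
    apply Finset.sum_congr rfl
    intro b hb
    rw [Finset.mem_range] at hb
    have e1 : n + 1 - 1 - b = n - b := by omega
    have e2 : n - (n - b) = b := by omega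
    rw [e1, e2, Nat.choose_symm (by omega), mul_comm (n - b) b, add_comm ((2 : ℝ) ^ (n - b))]
  have hsum : f n = (1 / 2) * (∑ b ∈ range (n + 1),
      (n.choose b : ℝ) * 2 ^ (n - b) * 2 ^ (b * (n - b)) * ((2 : ℝ) ^ b + 2 ^ (n - b)) +
      ∑ b ∈ range (n + 1),
      (n.choose b : ℝ) * 2 ^ b * 2 ^ (b * (n - b)) * ((2 : ℝ) ^ b + 2 ^ (n - b))) := by
    unfold f
    rw [← Finset.sum_add_distrib]
    congr 1
    apply Finset.sum_congr rfl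
    intro b _
    ring
  rw [hsum, ← hrefl]
  ring

theorem three_halves_pow (m : ℕ) : (3 / 2 : ℝ) ^ m ≤ (2 : ℝ) ^ ((3 / 5 : ℝ) * m) := by
  have h : (3 / 2 : ℝ) ≤ (2 : ℝ) ^ (3 / 5 : ℝ) := by
    have h5 : (3 / 2 : ℝ) ^ (5 : ℕ) ≤ ((2 : ℝ) ^ (3 / 5 : ℝ)) ^ (5 : ℕ) := by
      rw [← Real.rpow_natCast ((2 : ℝ) ^ (3 / 5 : ℝ)), ← Real.rpow_mul (by norm_num)]
      norm_num
    exact le_of_pow_le_pow_left₀ (by norm_num) (by positivity) h5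
  rw [Real.rpow_mul (by norm_num), Real.rpow_natCast]
  exact pow_le_pow_left₀ (by norm_num) h m

theorem term_bound (b m : ℕ) :
    (2 : ℝ) ^ m * 2 ^ (b * m) + ((2 : ℝ) ^ b + 2 ^ m) *
      (2 * b * 3 ^ m * 2 ^ ((b - 1) * m) + m * 2 ^ m * 2 ^ (b * (m - 1))) ≤
    (1 + 2 * (b + m)) * (2 : ℝ) ^ (((b + m : ℕ) : ℝ) ^ 2 / 4 + 4 / 5 * ((b + m : ℕ) : ℝ) + 4) := by
  set E : ℝ := ((b + m : ℕ) : ℝ) ^ 2 / 4 + 4 / 5 * ((b + m : ℕ) : ℝ) + 4 with hE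
  have hb0 : (0 : ℝ) ≤ b := by positivity
  have hm0 : (0 : ℝ) ≤ m := by positivity
  have hE' : E = ((b : ℝ) + m) ^ 2 / 4 + 4 / 5 * ((b : ℝ) + m) + 4 := by
    rw [hE]; push_cast; ring
  have hmax := pow_add_pow_le b m
  have hmaxE : ∀ x : ℝ, (2 : ℝ) ^ x * (2 : ℝ) ^ ((max b m : ℝ) + 1) =
      (2 : ℝ) ^ (x + ((max b m : ℝ) + 1)) := by
    intro x; rw [← Real.rpow_add (by norm_num)]
  -- first
  have F1 : (2 : ℝ) ^ m * 2 ^ (b * m) ≤ (2 : ℝ) ^ E := by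
    rw [← pow_add, two_rpow_nat]
    apply Real.rpow_le_rpow_of_exponent_le (by norm_num)
    rw [hE']
    push_cast
    nlinarith [sq_nonneg ((m : ℝ) - b - 1)]
  -- second
  have F2 : ((2 : ℝ) ^ b + 2 ^ m) * (2 * b * 3 ^ m * 2 ^ ((b - 1) * m)) ≤ 2 * b * (2 : ℝ) ^ E := by
    rcases Nat.eq_zero_or_pos b with h0 | hpos
    · subst h0; simp
    · obtain ⟨c, rfl⟩ : ∃ c, b = c + 1 := ⟨b - 1, by omega⟩
      have e1 : (c + 1 - 1) * m = c * m := by simp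
      have e2 : (3 : ℝ) ^ m * 2 ^ (c * m) = (3 / 2) ^ m * (2 : ℝ) ^ (((c + 1 : ℕ) : ℝ) * m) := by
        have : (2 : ℝ) ^ (((c + 1 : ℕ) : ℝ) * m) = (2 : ℝ) ^ ((c + 1) * m) := by
          rw [two_rpow_nat]; push_cast; rfl
        rw [this, div_pow, add_mul, pow_add, one_mul]
        field_simp
      have e3 : (3 : ℝ) ^ m * 2 ^ (c * m) ≤ (2 : ℝ) ^ ((3 / 5 : ℝ) * m + ((c + 1 : ℕ) : ℝ) * m) := by
        rw [e2, Real.rpow_add (by norm_num)]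
        gcongr
        exact three_halves_pow m
      rw [e1]
      calc ((2 : ℝ) ^ (c + 1) + 2 ^ m) * (2 * ((c + 1 : ℕ) : ℝ) * 3 ^ m * 2 ^ (c * m))
          = (2 * ((c + 1 : ℕ) : ℝ)) * ((3 ^ m * 2 ^ (c * m)) * ((2 : ℝ) ^ (c + 1) + 2 ^ m)) := by ring
        _ ≤ (2 * ((c + 1 : ℕ) : ℝ)) * ((2 : ℝ) ^ ((3 / 5 : ℝ) * m + ((c + 1 : ℕ) : ℝ) * m) *
              (2 : ℝ) ^ ((max (c + 1 : ℕ) m : ℝ) + 1)) := by gcongr
        _ ≤ (2 * ((c + 1 : ℕ) : ℝ)) * (2 : ℝ) ^ E := by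
            rw [hmaxE]
            apply mul_le_mul_of_nonneg_left _ (by positivity)
            apply Real.rpow_le_rpow_of_exponent_le (by norm_num)
            rw [hE']
            set B : ℝ := ((c + 1 : ℕ) : ℝ) with hB
            rcases le_total B (m : ℝ) with h | h
            · rw [max_eq_right h]; nlinarith [sq_nonneg ((m : ℝ) - B - 16 / 5 ), sq_nonneg ((m : ℝ) - B - 8 / 5)]
            · rw [max_eq_left h]; nlinarith [sq_nonneg (B - (m : ℝ) - 4 / 5), sq_nonneg (B - (m : ℝ) - 8 / 5)]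
  have F3 : ((2 : ℝ) ^ b + 2 ^ m) * (m * 2 ^ m * 2 ^ (b * (m - 1))) ≤ m * (2 : ℝ) ^ E := by
    rcases Nat.eq_zero_or_pos m with h0 | hpos
    · subst h0; simp
    · obtain ⟨c, rfl⟩ : ∃ c, m = c + 1 := ⟨m - 1, by omega⟩
      have e1 : c + 1 - 1 = c := by simp
      rw [e1]
      have e3 : (2 : ℝ) ^ (c + 1) * 2 ^ (b * c) =
          (2 : ℝ) ^ (((c + 1 : ℕ) : ℝ) + (b : ℝ) * ((c + 1 : ℕ) : ℝ) - b) := by
        rw [← pow_add, two_rpow_nat]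
        congr 1
        push_cast; ring
      calc ((2 : ℝ) ^ b + 2 ^ (c + 1)) * (((c + 1 : ℕ) : ℝ) * 2 ^ (c + 1) * 2 ^ (b * c))
          = ((c + 1 : ℕ) : ℝ) * ((2 ^ (c + 1) * 2 ^ (b * c)) * ((2 : ℝ) ^ b + 2 ^ (c + 1))) := by ring
        _ ≤ ((c + 1 : ℕ) : ℝ) * ((2 : ℝ) ^ (((c + 1 : ℕ) : ℝ) + (b : ℝ) * ((c + 1 : ℕ) : ℝ) - b) *
              (2 : ℝ) ^ ((max b (c + 1 : ℕ) : ℝ) + 1)) := by rw [e3]; gcongr
        _ ≤ ((c + 1 : ℕ) : ℝ) * (2 : ℝ) ^ E := by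
            rw [hmaxE]
            apply mul_le_mul_of_nonneg_left _ (by positivity)
            apply Real.rpow_le_rpow_of_exponent_le (by norm_num)
            rw [hE']
            set M : ℝ := ((c + 1 : ℕ) : ℝ) with hM
            rcases le_total (b : ℝ) M with h | h
            · rw [max_eq_right h]; nlinarith [sq_nonneg (M - (b : ℝ) - 3)]
            · rw [max_eq_left h]; nlinarith [sq_nonneg ((b : ℝ) - M - 1)]
  calc (2 : ℝ) ^ m * 2 ^ (b * m) + ((2 : ℝ) ^ b + 2 ^ m) *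
      (2 * b * 3 ^ m * 2 ^ ((b - 1) * m) + m * 2 ^ m * 2 ^ (b * (m - 1)))
      = (2 : ℝ) ^ m * 2 ^ (b * m) + ((2 : ℝ) ^ b + 2 ^ m) * (2 * b * 3 ^ m * 2 ^ ((b - 1) * m)) +
        ((2 : ℝ) ^ b + 2 ^ m) * (m * 2 ^ m * 2 ^ (b * (m - 1))) := by ring
    _ ≤ (2 : ℝ) ^ E + 2 * b * (2 : ℝ) ^ E + m * (2 : ℝ) ^ E := by linarith
    _ ≤ (1 + 2 * (b + m)) * (2 : ℝ) ^ E := by
        have : (0 : ℝ) ≤ m * (2 : ℝ) ^ E := by positivity
        nlinarith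

theorem diff_bound (n : ℕ) (S : ℝ)
    (hS : S = ∑ b ∈ range (n + 1), (n.choose b : ℝ) * (2 ^ b + 2 ^ (n - b) - 1)
        * (2 ^ (n - b) * 2 ^ (b * (n - b))
            - (2 * b * 3 ^ (n - b) * 2 ^ ((b - 1) * (n - b))
                + ((n - b : ℕ) : ℝ) * 2 ^ (n - b) * 2 ^ (b * (n - b - 1))))) :
    f n - S ≤ (1 + 2 * n) * (2 : ℝ) ^ ((n : ℝ) ^ 2 / 4 + 9 / 5 * n + 4) := by
  rw [f_eq, hS, ← Finset.sum_sub_distrib]
  have key : ∀ b ∈ range (n + 1),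
      (n.choose b : ℝ) * 2 ^ (n - b) * 2 ^ (b * (n - b)) * ((2 : ℝ) ^ b + 2 ^ (n - b)) -
      (n.choose b : ℝ) * (2 ^ b + 2 ^ (n - b) - 1)
        * (2 ^ (n - b) * 2 ^ (b * (n - b))
            - (2 * b * 3 ^ (n - b) * 2 ^ ((b - 1) * (n - b))
                + ((n - b : ℕ) : ℝ) * 2 ^ (n - b) * 2 ^ (b * (n - b - 1)))) ≤
      (n.choose b : ℝ) * ((1 + 2 * n) * (2 : ℝ) ^ ((n : ℝ) ^ 2 / 4 + 4 / 5 * n + 4)) := by
    intro b hb
    rw [Finset.mem_range] at hb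
    obtain ⟨m, hm⟩ : ∃ m : ℕ, n = b + m := ⟨n - b, by omega⟩
    have hm' : n - b = m := by omega
    rw [hm']
    have hn : (n : ℝ) = b + m := by exact_mod_cast hm
    have ht := term_bound b m
    rw [← hm] at ht
    rw [← hn] at ht
    have hbad : 0 ≤ (2 * (b : ℝ) * 3 ^ m * 2 ^ ((b - 1) * m) + m * 2 ^ m * 2 ^ (b * (m - 1))) := by
      positivity
    calc (n.choose b : ℝ) * 2 ^ m * 2 ^ (b * m) * ((2 : ℝ) ^ b + 2 ^ m) -
      (n.choose b : ℝ) * (2 ^ b + 2 ^ m - 1)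
        * (2 ^ m * 2 ^ (b * m)
            - (2 * b * 3 ^ m * 2 ^ ((b - 1) * m) + (m : ℝ) * 2 ^ m * 2 ^ (b * (m - 1))))
        = (n.choose b : ℝ) * ((2 : ℝ) ^ m * 2 ^ (b * m) + (((2 : ℝ) ^ b + 2 ^ m) - 1) *
      (2 * b * 3 ^ m * 2 ^ ((b - 1) * m) + m * 2 ^ m * 2 ^ (b * (m - 1)))) := by ring
      _ ≤ (n.choose b : ℝ) * ((2 : ℝ) ^ m * 2 ^ (b * m) + ((2 : ℝ) ^ b + 2 ^ m) *
      (2 * b * 3 ^ m * 2 ^ ((b - 1) * m) + m * 2 ^ m * 2 ^ (b * (m - 1)))) := by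
          apply mul_le_mul_of_nonneg_left _ (by positivity)
          nlinarith
      _ ≤ _ := mul_le_mul_of_nonneg_left ht (by positivity)
  calc _ ≤ ∑ b ∈ range (n + 1),
      (n.choose b : ℝ) * ((1 + 2 * n) * (2 : ℝ) ^ ((n : ℝ) ^ 2 / 4 + 4 / 5 * n + 4)) :=
        Finset.sum_le_sum key
    _ = (1 + 2 * n) * (2 : ℝ) ^ ((n : ℝ) ^ 2 / 4 + 9 / 5 * n + 4) := by
        rw [← Finset.sum_mul, sum_choose_real, show (n : ℝ) ^ 2 / 4 + 9 / 5 * n + 4 =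
          ((n : ℝ) ^ 2 / 4 + 4 / 5 * n + 4) + n by ring,
          Real.rpow_add (by norm_num) ((n : ℝ) ^ 2 / 4 + 4 / 5 * n + 4), Real.rpow_natCast]
        ring

theorem tendsto_aux : Tendsto (fun n : ℕ => 16 * ((1 + 2 * (n : ℝ)) * (n + 1)) *
    (2 : ℝ) ^ (-(1 / 5 : ℝ) * n)) atTop (nhds 0) := by
  set r : ℝ := (2 : ℝ) ^ (-(1 / 5 : ℝ)) with hr
  have hr0 : 0 ≤ r := by positivity
  have hr1 : r < 1 := by
    rw [hr]; exact Real.rpow_lt_one_of_one_lt_of_neg (by norm_num) (by norm_num)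
  have h0 := tendsto_pow_const_mul_const_pow_of_lt_one 0 hr0 hr1
  have h1 := tendsto_pow_const_mul_const_pow_of_lt_one 1 hr0 hr1
  have h2 := tendsto_pow_const_mul_const_pow_of_lt_one 2 hr0 hr1
  have h := ((h2.const_mul 32).add (h1.const_mul 48)).add (h0.const_mul 16)
  simp only [mul_zero, add_zero] at h
  refine h.congr ?_
  intro n
  rw [Real.rpow_mul (by norm_num), Real.rpow_natCast, ← hr]
  ring

/-- TARGET 4 -/
theorem lower_asymp (I : ℕ → ℕ)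
    (hI : ∀ n : ℕ, ∑ b ∈ range (n + 1), (n.choose b : ℤ) * (2 ^ b + 2 ^ (n - b) - 1)
        * (2 ^ (n - b) * 2 ^ (b * (n - b))
            - (2 * b * 3 ^ (n - b) * 2 ^ ((b - 1) * (n - b))
                + ((n - b : ℕ) : ℤ) * 2 ^ (n - b) * 2 ^ (b * (n - b - 1)))) ≤ (I n : ℤ)) :
    ∀ ε : ℝ, 0 < ε → ∀ᶠ n in atTop, (1 - ε) * f n ≤ (I n : ℝ) := by
  intro ε hε
  have hev := (tendsto_aux.eventually (gt_mem_nhds hε))
  filter_upwards [hev] with n hn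
  have h1 : ∑ b ∈ range (n + 1), (n.choose b : ℝ) * (2 ^ b + 2 ^ (n - b) - 1)
        * (2 ^ (n - b) * 2 ^ (b * (n - b))
            - (2 * b * 3 ^ (n - b) * 2 ^ ((b - 1) * (n - b))
                + ((n - b : ℕ) : ℝ) * 2 ^ (n - b) * 2 ^ (b * (n - b - 1)))) ≤ (I n : ℝ) := by
    exact_mod_cast hI n
  have h2 := diff_bound n _ rfl
  have h3 := f_lower n
  have h4 : (1 + 2 * n) * (2 : ℝ) ^ ((n : ℝ) ^ 2 / 4 + 9 / 5 * n + 4) ≤ ε * f n := by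
    calc (1 + 2 * n) * (2 : ℝ) ^ ((n : ℝ) ^ 2 / 4 + 9 / 5 * n + 4)
        = (16 * ((1 + 2 * (n : ℝ)) * (n + 1)) * (2 : ℝ) ^ (-(1 / 5 : ℝ) * n)) *
          ((2 : ℝ) ^ ((n : ℝ) ^ 2 / 4 + 2 * n) / (n + 1)) := by
          have e : (2 : ℝ) ^ ((n : ℝ) ^ 2 / 4 + 9 / 5 * n + 4) =
              16 * (2 : ℝ) ^ (-(1 / 5 : ℝ) * n) * (2 : ℝ) ^ ((n : ℝ) ^ 2 / 4 + 2 * n) := by
            rw [show (16 : ℝ) = (2 : ℝ) ^ (4 : ℝ) by norm_num, ← Real.rpow_add (by norm_num),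
              ← Real.rpow_add (by norm_num)]
            congr 1; ring
          rw [e]
          field_simp
      _ ≤ ε * f n := by
          apply mul_le_mul hn.le h3 (by positivity) hε.le
  linarith

end IdemCount.Fn
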