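import Mathlib
import Pool.Agent.Idem.Count
import Pool.Agent.Idem.Fn
set_option autoImplicit false
open Finset Filter

namespace IdemCount

theorem f_lower (n : ℕ) : (2 : ℝ) ^ ((n : ℝ) ^ 2 / 4 + 2 * n) / (n + 1) ≤ f n := Fn.f_lower n

theorem f_pos (n : ℕ) : 0 < f n :=
  lt_of_lt_of_le (by positivity) (f_lower n)

/-- poly times exponential decay -/
lemma decay (a : ℕ) (C r : ℝ) (hr0 : 0 ≤ r) (hr : r < 1) (δ : ℝ) (hδ : 0 < δ) :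
    ∃ n0 : ℕ, ∀ n ≥ n0, C * (n : ℝ) ^ a * r ^ n ≤ δ := by
  have h := (tendsto_pow_const_mul_const_pow_of_abs_lt_one a (r := r) (by rwa [abs_of_nonneg hr0])).const_mul C
  rw [mul_zero] at h
  have h2 := h.eventually (eventually_le_nhds hδ)
  obtain ⟨n0, hn0⟩ := eventually_atTop.1 h2
  exact ⟨n0, fun n hn => by have := hn0 n hn; rw [mul_assoc]; exact this⟩

theorem theta_small (small512 : ∀ n : ℕ, ((small n 512).card : ℝ) ≤ (2 : ℝ) ^ ((7 / 512 + 1 / 64 : ℝ) * n))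
    (δ : ℝ) (hδ : 0 < δ) : ∃ n0 : ℕ, ∀ n ≥ n0, theta n ≤ δ := by
  obtain ⟨n0, hn0⟩ := decay 0 2 ((2 : ℝ) ^ (-(17 / 512) : ℝ)) (by positivity)
    (Real.rpow_lt_one_of_one_lt_of_neg (by norm_num) (by norm_num)) δ hδ
  refine ⟨n0, fun n hn => le_trans ?_ (hn0 n hn)⟩
  unfold theta
  have h1 : (2 : ℝ) ^ ((n : ℝ) / 16 - 1) ≤ (2 : ℝ) ^ (n / 16) := by
    rw [← Real.rpow_natCast]
    refine Real.rpow_le_rpow_of_exponent_le (by norm_num) ?_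
    have := Nat.div_add_mod n 16
    have h2 := Nat.mod_lt n (show 0 < 16 by norm_num)
    have h3 : (n : ℝ) = 16 * ((n / 16 : ℕ) : ℝ) + ((n % 16 : ℕ) : ℝ) := by exact_mod_cast this.symm
    have h4 : ((n % 16 : ℕ) : ℝ) ≤ 16 := by exact_mod_cast h2.le
    linarith
  calc ((small n 512).card : ℝ) / 2 ^ (n / 16)
      ≤ (2 : ℝ) ^ ((7 / 512 + 1 / 64 : ℝ) * n) / (2 : ℝ) ^ ((n : ℝ) / 16 - 1) := by
        refine div_le_div₀ (by positivity) (small512 n) (by positivity) h1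
    _ = 2 * (n : ℝ) ^ 0 * ((2 : ℝ) ^ (-(17 / 512) : ℝ)) ^ n := by
        rw [← Real.rpow_natCast ((2 : ℝ) ^ (-(17 / 512) : ℝ)), ← Real.rpow_mul (by norm_num), pow_zero, mul_one,
          ← Real.rpow_sub (by norm_num)]
        nth_rewrite 2 [show (2 : ℝ) = (2 : ℝ) ^ (1 : ℝ) by norm_num]
        rw [← Real.rpow_add (by norm_num)]
        congr 1
        ring

theorem hole_small (δ : ℝ) (hδ : 0 < δ) : ∃ n0 : ℕ, ∀ n ≥ n0,
    (((2 ^ n * (2 ^ n * 2 ^ n)) * (2 ^ (n ^ 2 / 4 - n ^ 2 / 262144) * 2 ^ (2 * n + 4)) : ℕ) : ℝ) ≤ δ * f n := by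
  obtain ⟨n0, hn0⟩ := decay 1 (64 * 2) (1 / 2) (by norm_num) (by norm_num) δ hδ
  refine ⟨max n0 (262144 * 4 + 1), fun n hn => ?_⟩
  have hn1 := hn0 n (le_trans (le_max_left _ _) hn)
  have hn2 : 262144 * 4 + 1 ≤ n := le_trans (le_max_right _ _) hn
  have h1 : ((n ^ 2 / 4 - n ^ 2 / 262144 : ℕ) : ℝ) ≤ (n : ℝ) ^ 2 / 4 - (n : ℝ) ^ 2 / 262144 + 1 := by
    have hle : n ^ 2 / 262144 ≤ n ^ 2 / 4 := Nat.div_le_div_left (by norm_num) (by norm_num)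
    rw [Nat.cast_sub hle]
    have e1 : ((n ^ 2 / 4 : ℕ) : ℝ) ≤ (n : ℝ) ^ 2 / 4 := by
      have := Nat.cast_div_le (α := ℝ) (m := n ^ 2) (n := 4)
      push_cast at this; exact this
    have e2 : (n : ℝ) ^ 2 / 262144 - 1 ≤ ((n ^ 2 / 262144 : ℕ) : ℝ) := by
      have h3 := Nat.div_add_mod (n ^ 2) 262144
      have h4 := Nat.mod_lt (n ^ 2) (show 0 < 262144 by norm_num)
      have h5 : ((n : ℝ)) ^ 2 = 262144 * ((n ^ 2 / 262144 : ℕ) : ℝ) + ((n ^ 2 % 262144 : ℕ) : ℝ) := by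
        exact_mod_cast h3.symm
      have h6 : ((n ^ 2 % 262144 : ℕ) : ℝ) ≤ 262144 := by exact_mod_cast h4.le
      linarith
    linarith
  have h2 : (4 : ℝ) * n ≤ (n : ℝ) ^ 2 / 262144 := by
    have : (262144 * 4 + 1 : ℝ) ≤ n := by exact_mod_cast hn2
    rw [le_div_iff₀ (by norm_num)]
    nlinarith
  have hfl := f_lower n
  have hpos : (0 : ℝ) < (n : ℝ) + 1 := by positivity
  have h7 : (((2 ^ n * (2 ^ n * 2 ^ n)) * (2 ^ (n ^ 2 / 4 - n ^ 2 / 262144) * 2 ^ (2 * n + 4)) : ℕ) : ℝ)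
      ≤ (2 : ℝ) ^ ((n : ℝ) ^ 2 / 4 + n + 5) := by
    push_cast
    rw [← pow_add, ← pow_add, ← pow_add, ← pow_add, ← Real.rpow_natCast]
    refine Real.rpow_le_rpow_of_exponent_le (by norm_num) ?_
    push_cast
    push_cast at h1
    linarith
  have h8 : (2 : ℝ) ^ ((n : ℝ) ^ 2 / 4 + n + 5) = 32 * (1 / 2) ^ n * (2 : ℝ) ^ ((n : ℝ) ^ 2 / 4 + 2 * n) := by
    rw [show (n : ℝ) ^ 2 / 4 + n + 5 = ((n : ℝ) ^ 2 / 4 + 2 * n) + 5 + (-(n : ℝ)) by ring,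
      Real.rpow_add (by norm_num), Real.rpow_add (by norm_num), Real.rpow_neg (by norm_num),
      Real.rpow_natCast, one_div, inv_pow]
    norm_num
    ring
  have h9 : (2 : ℝ) ^ ((n : ℝ) ^ 2 / 4 + 2 * n) ≤ (n + 1) * f n := by
    rw [div_le_iff₀ hpos] at hfl; linarith
  calc _ ≤ (2 : ℝ) ^ ((n : ℝ) ^ 2 / 4 + n + 5) := h7
    _ = 32 * (1 / 2) ^ n * (2 : ℝ) ^ ((n : ℝ) ^ 2 / 4 + 2 * n) := h8
    _ ≤ 32 * (1 / 2) ^ n * ((n + 1) * f n) := by gcongr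
    _ ≤ (64 * 2 * (n : ℝ) ^ 1 * (1 / 2) ^ n) * f n := by
        have h10 : (1 : ℝ) ≤ n := by exact_mod_cast (by omega : 1 ≤ n)
        have h11 := f_pos n
        have h12 : (0 : ℝ) ≤ (1 / 2) ^ n * f n := by positivity
        nlinarith
    _ ≤ δ * f n := by
        refine mul_le_mul_of_nonneg_right hn1 (f_pos n).le

end IdemCount
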