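import Mathlib
import Pool.Agent.Idem.Basic
set_option autoImplicit false

namespace IdemCount.Inj



/-- covering relation of `R` -/
def Cov {V : Type*} (R : V → V → Prop) (x y : V) : Prop :=
  R x y ∧ x ≠ y ∧ ∀ z, R x z → R z y → z = x ∨ z = y

theorem _root_.IdemCount.IsIdem.trans {V : Type*} {R : V → V → Prop} (h : IsIdem R) {x y z : V}
    (h1 : R x y) (h2 : R y z) : R x z := (h x z).2 ⟨y, h1, h2⟩

section
variable {V : Type*} {R : V → V → Prop}

theorem Cov.asymm (hA : ∀ x y, R x y → R y x → x = y) {x y : V} (h1 : Cov R x y)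
    (h2 : Cov R y x) : False := h1.2.1 (hA x y h1.1 h2.1)

theorem Cov.short (hI : IsIdem R) {a b c : V} (h1 : Cov R a b) (h2 : Cov R b c)
    (h3 : Cov R a c) : False := by
  rcases h3.2.2 b h1.1 h2.1 with h | h
  · exact h1.2.1 h.symm
  · exact h2.2.1 h

theorem Cov.cyc3 (hI : IsIdem R) (hA : ∀ x y, R x y → R y x → x = y) {a b c : V}
    (h1 : Cov R a b) (h2 : Cov R b c) (h3 : Cov R c a) : False :=
  h3.2.1 (hA a c (hI.trans h1.1 h2.1) h3.1).symm

theorem ok_cov (hI : IsIdem R) (hA : ∀ x y, R x y → R y x → x = y) :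
    Ok (Cov R) (fun x => ¬ R x x) where
  asymm := fun x y h1 h2 => Cov.asymm hA h1 h2
  tri := by
    rintro x y z (h1 | h1) (h2 | h2) (h3 | h3)
    · exact Cov.cyc3 hI hA h1 h2 h3
    · exact Cov.short hI h1 h2 h3
    · exact Cov.short hI h3 h1 h2
    · exact Cov.short hI h3 h2 h1
    · exact Cov.short hI h2 h3 h1
    · exact Cov.short hI h1 h3 h2
    · exact Cov.short hI h2 h1 h3
    · exact Cov.cyc3 hI hA h2 h1 h3
  c4 := by
    intro a b c d h1 h2 h3 h4
    rcases h4.2.2 b h1.1 (hI.trans h2.1 h3.1) with h | h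
    · exact h1.2.1 h.symm
    · subst h
      exact Cov.asymm hA h2 h3
  cyc := by
    intro a b c d h1 h2 h3 h4
    have := hA a c (hI.trans h1.1 h2.1) (hI.trans h3.1 h4.1)
    subst this
    exact Cov.asymm hA h1 h2
  indep := by
    rintro x y h ⟨hx, hy⟩
    obtain ⟨z, hz1, hz2⟩ := (hI x y).1 h.1
    rcases h.2.2 z hz1 hz2 with h' | h'
    · subst h'; exact hx hz1
    · subst h'; exact hy hz2

theorem transGen_cov [Finite V] (hI : IsIdem R) (hA : ∀ x y, R x y → R y x → x = y) :
    ∀ (n : ℕ) (x y : V), x ≠ y → R x y →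
      ({z | z ≠ x ∧ z ≠ y ∧ R x z ∧ R z y} : Set V).ncard = n →
      Relation.TransGen (Cov R) x y := by
  intro n
  induction n using Nat.strong_induction_on with
  | _ n ih =>
    intro x y hxy hR hn
    by_cases hE : ∀ z, R x z → R z y → z = x ∨ z = y
    · exact Relation.TransGen.single ⟨hR, hxy, hE⟩
    · push Not at hE
      obtain ⟨z, hxz, hzy, hzx', hzy'⟩ := hE
      have h1 : ({w | w ≠ x ∧ w ≠ z ∧ R x w ∧ R w z} : Set V).ncard < n := by
        rw [← hn]
        apply Set.ncard_lt_ncard _ (Set.toFinite _)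
        refine (Set.ssubset_iff_of_subset ?_).2 ⟨z, ⟨hzx', hzy', hxz, hzy⟩, ?_⟩
        · rintro w ⟨hw1, hw2, hw3, hw4⟩
          refine ⟨hw1, ?_, hw3, hI.trans hw4 hzy⟩
          rintro rfl
          exact hw2 (hA _ _ hw4 hzy)
        · rintro ⟨_, h, _⟩
          exact h rfl
      have h2 : ({w | w ≠ z ∧ w ≠ y ∧ R z w ∧ R w y} : Set V).ncard < n := by
        rw [← hn]
        apply Set.ncard_lt_ncard _ (Set.toFinite _)
        refine (Set.ssubset_iff_of_subset ?_).2 ⟨z, ⟨hzx', hzy', hxz, hzy⟩, ?_⟩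
        · rintro w ⟨hw1, hw2, hw3, hw4⟩
          refine ⟨?_, hw2, hI.trans hxz hw3, hw4⟩
          rintro rfl
          exact hw1 (hA _ _ hxz hw3)
        · rintro ⟨h, _⟩
          exact h rfl
      exact (ih _ h1 x z hzx'.symm hxz rfl).trans (ih _ h2 z y hzy' hzy rfl)

theorem rel_of_transGen (hI : IsIdem R) {x y : V} (h : Relation.TransGen (Cov R) x y) :
    R x y := by
  induction h with
  | single h => exact h.1
  | tail _ h ih => exact hI.trans ih h.1

theorem rel_iff_transGen [Finite V] (hI : IsIdem R) (hA : ∀ x y, R x y → R y x → x = y)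
    {x y : V} (hxy : x ≠ y) : R x y ↔ Relation.TransGen (Cov R) x y :=
  ⟨fun h => transGen_cov hI hA _ x y hxy h rfl, rel_of_transGen hI⟩

end

/-- TARGET 1: antisymmetric idempotent relations inject into `Ok` structures. -/
theorem card_antisymm_le (V : Type*) [Finite V] :
    Nat.card {R : V → V → Prop // IsIdem R ∧ ∀ x y, R x y → R y x → x = y}
      ≤ Nat.card {p : (V → V → Prop) × (V → Prop) // Ok p.1 p.2} := by
  let f : {R : V → V → Prop // IsIdem R ∧ ∀ x y, R x y → R y x → x = y} →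
      {p : (V → V → Prop) × (V → Prop) // Ok p.1 p.2} :=
    fun R => ⟨(Cov R.1, fun x => ¬ R.1 x x), ok_cov R.2.1 R.2.2⟩
  have hf : Function.Injective f := by
    rintro ⟨R, hI, hA⟩ ⟨S, hI', hA'⟩ h
    have h1 : Cov R = Cov S := congrArg (fun p => p.1.1) h
    have h2 : (fun x => ¬ R x x) = (fun x => ¬ S x x) := congrArg (fun p => p.1.2) h
    apply Subtype.ext
    funext x y
    apply propext
    by_cases hxy : x = y
    · subst hxy
      exact not_iff_not.1 (iff_of_eq (congrFun h2 x))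
    · show R x y ↔ S x y
      rw [rel_iff_transGen hI hA hxy, rel_iff_transGen hI' hA' hxy, h1]
  exact Nat.card_le_card_of_injective f hf

/-- restriction of `R` to the complement of `y` -/
def restr {n : ℕ} (R : Fin (n+1) → Fin (n+1) → Prop) (y : Fin (n+1)) :
    Fin n → Fin n → Prop := fun a b => R (y.succAbove a) (y.succAbove b)

theorem twin_left {V : Type*} {R : V → V → Prop} (hI : IsIdem R) {x y : V}
    (h1 : R x y) (h2 : R y x) (z : V) : R x z ↔ R y z :=
  ⟨fun h => hI.trans h2 h, fun h => hI.trans h1 h⟩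

theorem twin_right {V : Type*} {R : V → V → Prop} (hI : IsIdem R) {x y : V}
    (h1 : R x y) (h2 : R y x) (z : V) : R z x ↔ R z y :=
  ⟨fun h => hI.trans h h1, fun h => hI.trans h h2⟩

theorem restr_idem {n : ℕ} {R : Fin (n+1) → Fin (n+1) → Prop} (hI : IsIdem R)
    {x y : Fin (n+1)} (hxy : x ≠ y) (h1 : R x y) (h2 : R y x) : IsIdem (restr R y) := by
  intro a b
  constructor
  · intro h
    obtain ⟨z, hz1, hz2⟩ := (hI _ _).1 h
    by_cases hz : z = y
    · subst hz
      obtain ⟨x', rfl⟩ := Fin.exists_succAbove_eq hxy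
      exact ⟨x', (twin_right hI h1 h2 _).2 hz1, (twin_left hI h1 h2 _).2 hz2⟩
    · obtain ⟨z', rfl⟩ := Fin.exists_succAbove_eq hz
      exact ⟨z', hz1, hz2⟩
  · rintro ⟨z, hz1, hz2⟩
    exact (hI _ _).2 ⟨_, hz1, hz2⟩

theorem rel_collapse {n : ℕ} {R : Fin (n+1) → Fin (n+1) → Prop} (hI : IsIdem R)
    {x y : Fin (n+1)} (h1 : R x y) (h2 : R y x) (a b : Fin (n+1)) :
    R a b ↔ R (if a = y then x else a) (if b = y then x else b) := by
  have e1 : R a b ↔ R (if a = y then x else a) b := by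
    split_ifs with h
    · subst h; exact (twin_left hI h1 h2 b).symm
    · exact Iff.rfl
  rw [e1]
  split_ifs with h h' h'
  · subst h'; exact (twin_right hI h1 h2 _).symm
  · exact Iff.rfl
  · subst h'; exact (twin_right hI h1 h2 _).symm
  · exact Iff.rfl

/-- TARGET 2: idempotent relations that are not antisymmetric. -/
theorem card_not_antisymm_le (n : ℕ) :
    Nat.card {R : Fin (n+1) → Fin (n+1) → Prop // IsIdem R ∧ ¬ ∀ x y, R x y → R y x → x = y}
      ≤ (n+1)^2 * Nat.card {R : Fin n → Fin n → Prop // IsIdem R} := by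
  classical
  have key : ∀ R : {R : Fin (n+1) → Fin (n+1) → Prop //
      IsIdem R ∧ ¬ ∀ x y, R x y → R y x → x = y},
      ∃ p : Fin (n+1) × Fin (n+1), p.1 ≠ p.2 ∧ R.1 p.1 p.2 ∧ R.1 p.2 p.1 := by
    rintro ⟨R, hI, hA⟩
    push Not at hA
    obtain ⟨x, y, h1, h2, h3⟩ := hA
    exact ⟨(x, y), h3, h1, h2⟩
  choose g hg using key
  let f : {R : Fin (n+1) → Fin (n+1) → Prop // IsIdem R ∧ ¬ ∀ x y, R x y → R y x → x = y} →
      (Fin (n+1) × Fin (n+1)) × {R : Fin n → Fin n → Prop // IsIdem R} :=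
    fun R => (g R, ⟨restr R.1 (g R).2, restr_idem R.2.1 (hg R).1 (hg R).2.1 (hg R).2.2⟩)
  have hf : Function.Injective f := by
    intro R S h
    have e1 : g R = g S := congrArg Prod.fst h
    have e2 : restr R.1 (g R).2 = restr S.1 (g S).2 := congrArg (fun p => p.2.1) h
    obtain ⟨r1, r2, r3⟩ := hg R
    obtain ⟨s1, s2, s3⟩ := hg S
    rw [← e1] at s1 s2 s3 e2
    apply Subtype.ext
    funext a b
    apply propext
    rw [rel_collapse R.2.1 r2 r3 a b, rel_collapse S.2.1 s2 s3 a b]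
    have ha : (if a = (g R).2 then (g R).1 else a) ≠ (g R).2 := by
      split_ifs with h
      · exact r1
      · exact h
    have hb : (if b = (g R).2 then (g R).1 else b) ≠ (g R).2 := by
      split_ifs with h
      · exact r1
      · exact h
    obtain ⟨a', ha'⟩ := Fin.exists_succAbove_eq ha
    obtain ⟨b', hb'⟩ := Fin.exists_succAbove_eq hb
    rw [← ha', ← hb']
    exact iff_of_eq (congrFun (congrFun e2 a') b')
  have := Nat.card_le_card_of_injective f hf
  rw [Nat.card_prod, Nat.card_prod, Nat.card_eq_fintype_card (α := Fin (n+1)),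
    Fintype.card_fin, ← sq] at this
  exact this

/-- TARGET 3: combination. -/
theorem card_idem_le (n : ℕ) :
    Nat.card {R : Fin (n+1) → Fin (n+1) → Prop // IsIdem R}
      ≤ Nat.card {p : (Fin (n+1) → Fin (n+1) → Prop) × (Fin (n+1) → Prop) // Ok p.1 p.2}
        + (n+1)^2 * Nat.card {R : Fin n → Fin n → Prop // IsIdem R} := by
  classical
  refine le_trans ?_ (Nat.add_le_add (card_antisymm_le (Fin (n+1))) (card_not_antisymm_le n))
  rw [← Nat.card_sum]
  let f : {R : Fin (n+1) → Fin (n+1) → Prop // IsIdem R} →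
      {R : Fin (n+1) → Fin (n+1) → Prop // IsIdem R ∧ ∀ x y, R x y → R y x → x = y} ⊕
      {R : Fin (n+1) → Fin (n+1) → Prop // IsIdem R ∧ ¬ ∀ x y, R x y → R y x → x = y} :=
    fun R => if h : ∀ x y, R.1 x y → R.1 y x → x = y then Sum.inl ⟨R.1, R.2, h⟩
      else Sum.inr ⟨R.1, R.2, h⟩
  have hf : Function.Injective f := by
    intro R S h
    apply Subtype.ext
    by_cases h1 : ∀ x y, R.1 x y → R.1 y x → x = y <;>
    by_cases h2 : ∀ x y, S.1 x y → S.1 y x → x = y
    · simp only [f, dif_pos h1, dif_pos h2, Sum.inl.injEq, Subtype.mk.injEq] at h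
      exact h
    · simp only [f, dif_pos h1, dif_neg h2, reduceCtorEq] at h
    · simp only [f, dif_neg h1, dif_pos h2, reduceCtorEq] at h
    · simp only [f, dif_neg h1, dif_neg h2, Sum.inr.injEq, Subtype.mk.injEq] at h
      exact h
  exact Nat.card_le_card_of_injective f hf

end IdemCount.Inj
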