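import Mathlib
import Pool.Agent.Idem.Basic
set_option autoImplicit false
open Finset

namespace IdemCount.Low


private def rel {V : Type*} (N l u : V → Prop) (k : V → V → Prop) (x y : V) : Prop :=
  (x = y ∧ ¬ N x) ∨ (l x ∧ k x y) ∨ (u y ∧ k y x) ∨ (l x ∧ u y ∧ ∃ b, k x b ∧ k y b)

private structure Cfg {V : Type*} (B l u : V → Prop) (k : V → V → Prop) : Prop where
  hl : ∀ x, l x → ¬ B x
  hu : ∀ x, u x → ¬ B x
  hlu : ∀ x, ¬ B x → l x ∨ u x
  hd : ∀ x, l x → u x → False
  hk1 : ∀ x y, k x y → ¬ B x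
  hk2 : ∀ x y, k x y → B y

private structure Good {V : Type*} (B l u : V → Prop) (k : V → V → Prop) : Prop where
  g1 : ∀ b, B b → ∃ x, l x ∧ k x b
  g2 : ∀ b, B b → ∃ x, u x ∧ k x b
  g3 : ∀ x, ¬ B x → ∃ b, k x b

private lemma rel_idem {V : Type*} {B N l u : V → Prop} {k : V → V → Prop} (h : Cfg B l u k)
    (hN : (∀ x, N x → B x) ∨ (∀ x, N x → ¬ B x)) : IsIdem (rel N l u k) := by
  intro x y
  constructor
  · rintro (⟨rfl, hx⟩ | ⟨hlx, hk⟩ | ⟨huy, hk⟩ | ⟨hlx, huy, b, hb1, hb2⟩)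
    · exact ⟨x, Or.inl ⟨rfl, hx⟩, Or.inl ⟨rfl, hx⟩⟩
    · rcases hN with hN | hN
      · exact ⟨x, Or.inl ⟨rfl, fun hn => h.hl x hlx (hN x hn)⟩, Or.inr (Or.inl ⟨hlx, hk⟩)⟩
      · exact ⟨y, Or.inr (Or.inl ⟨hlx, hk⟩), Or.inl ⟨rfl, fun hn => hN y hn (h.hk2 _ _ hk)⟩⟩
    · rcases hN with hN | hN
      · exact ⟨y, Or.inr (Or.inr (Or.inl ⟨huy, hk⟩)), Or.inl ⟨rfl, fun hn => h.hu y huy (hN y hn)⟩⟩
      · exact ⟨x, Or.inl ⟨rfl, fun hn => hN x hn (h.hk2 _ _ hk)⟩, Or.inr (Or.inr (Or.inl ⟨huy, hk⟩))⟩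
    · rcases hN with hN | hN
      · exact ⟨x, Or.inl ⟨rfl, fun hn => h.hl x hlx (hN x hn)⟩,
          Or.inr (Or.inr (Or.inr ⟨hlx, huy, b, hb1, hb2⟩))⟩
      · exact ⟨b, Or.inr (Or.inl ⟨hlx, hb1⟩), Or.inr (Or.inr (Or.inl ⟨huy, hb2⟩))⟩
  · rintro ⟨z, h1, h2⟩
    rcases h1 with ⟨rfl, hx⟩ | ⟨hlx, hk⟩ | ⟨huz, hk⟩ | ⟨hlx, huz, b, hb1, hb2⟩
    · exact h2
    · rcases h2 with ⟨rfl, hx⟩ | ⟨hlz, hk'⟩ | ⟨huy, hk'⟩ | ⟨hlz, huy, b, hb1, hb2⟩
      · exact Or.inr (Or.inl ⟨hlx, hk⟩)
      · exact absurd (h.hk2 _ _ hk) (h.hl _ hlz)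
      · exact Or.inr (Or.inr (Or.inr ⟨hlx, huy, z, hk, hk'⟩))
      · exact absurd (h.hk2 _ _ hk) (h.hl _ hlz)
    · rcases h2 with ⟨rfl, hx⟩ | ⟨hlz, hk'⟩ | ⟨huy, hk'⟩ | ⟨hlz, huy, b, hb1, hb2⟩
      · exact Or.inr (Or.inr (Or.inl ⟨huz, hk⟩))
      · exact (h.hd _ hlz huz).elim
      · exact absurd (h.hk2 _ _ hk') (h.hu _ huz)
      · exact (h.hd _ hlz huz).elim
    · rcases h2 with ⟨rfl, hx⟩ | ⟨hlz, hk'⟩ | ⟨huy, hk'⟩ | ⟨hlz, huy, b, hb1, hb2⟩
      · exact Or.inr (Or.inr (Or.inr ⟨hlx, huz, b, hb1, hb2⟩))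
      · exact (h.hd _ hlz huz).elim
      · exact absurd (h.hk2 _ _ hk') (h.hu _ huz)
      · exact (h.hd _ hlz huz).elim

private lemma rel_self {V : Type*} {B N l u : V → Prop} {k : V → V → Prop} (h : Cfg B l u k)
    (x : V) : rel N l u k x x ↔ ¬ N x := by
  constructor
  · rintro (⟨-, hx⟩ | ⟨hlx, hk⟩ | ⟨huy, hk⟩ | ⟨hlx, huy, b, hb1, hb2⟩)
    · exact hx
    · exact absurd (h.hk2 _ _ hk) (h.hk1 _ _ hk)
    · exact absurd (h.hk2 _ _ hk) (h.hk1 _ _ hk)
    · exact (h.hd _ hlx huy).elim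
  · intro hx
    exact Or.inl ⟨rfl, hx⟩

private lemma not_in_of_l {V : Type*} {B N l u : V → Prop} {k : V → V → Prop} (h : Cfg B l u k)
    {x y : V} (hl : l x) (hxy : y ≠ x) : ¬ rel N l u k y x := by
  rintro (⟨h1, hx⟩ | ⟨hlx, hk⟩ | ⟨huy, hk⟩ | ⟨hlx, huy, b, hb1, hb2⟩)
  · exact hxy h1
  · exact absurd (h.hk2 _ _ hk) (h.hl _ hl)
  · exact (h.hd _ hl huy).elim
  · exact (h.hd _ hl huy).elim

private lemma not_out_of_u {V : Type*} {B N l u : V → Prop} {k : V → V → Prop} (h : Cfg B l u k)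
    {x y : V} (hu : u x) (hxy : y ≠ x) : ¬ rel N l u k x y := by
  rintro (⟨h1, hx⟩ | ⟨hlx, hk⟩ | ⟨huy, hk⟩ | ⟨hlx, huy, b, hb1, hb2⟩)
  · exact hxy h1.symm
  · exact (h.hd _ hlx hu).elim
  · exact absurd (h.hk2 _ _ hk) (h.hu _ hu)
  · exact (h.hd _ hlx hu).elim

private def mid {V : Type*} (R : V → V → Prop) (x : V) : Prop :=
  (∃ y, y ≠ x ∧ R y x) ∧ (∃ y, y ≠ x ∧ R x y)

private lemma mid_rel {V : Type*} {B N l u : V → Prop} {k : V → V → Prop} (h : Cfg B l u k)
    (g : Good B l u k) (x : V) : mid (rel N l u k) x ↔ B x := by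
  constructor
  · rintro ⟨⟨y, hy, h1⟩, ⟨z, hz, h2⟩⟩
    by_contra hB
    rcases h.hlu x hB with hl | hu
    · exact not_in_of_l h hl hy h1
    · exact not_out_of_u h hu hz h2
  · intro hB
    obtain ⟨y, hy1, hy2⟩ := g.g1 x hB
    obtain ⟨z, hz1, hz2⟩ := g.g2 x hB
    refine ⟨⟨y, ?_, Or.inr (Or.inl ⟨hy1, hy2⟩)⟩, ⟨z, ?_, Or.inr (Or.inr (Or.inl ⟨hz1, hz2⟩))⟩⟩
    · rintro rfl; exact h.hk1 _ _ hy2 hB
    · rintro rfl; exact h.hk1 _ _ hz2 hB

private lemma l_iff {V : Type*} {B N l u : V → Prop} {k : V → V → Prop} (h : Cfg B l u k)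
    (g : Good B l u k) (x : V) (hx : ¬ B x) : l x ↔ ∃ y, y ≠ x ∧ rel N l u k x y := by
  constructor
  · intro hl
    obtain ⟨b, hb⟩ := g.g3 x hx
    refine ⟨b, ?_, Or.inr (Or.inl ⟨hl, hb⟩)⟩
    rintro rfl; exact hx (h.hk2 _ _ hb)
  · rintro ⟨y, hy, h1⟩
    rcases h.hlu x hx with hl | hu
    · exact hl
    · exact absurd h1 (not_out_of_u h hu hy)

private lemma k_iff {V : Type*} {B N l u : V → Prop} {k : V → V → Prop} (h : Cfg B l u k)
    (x y : V) (hx : ¬ B x) (hy : B y) :
    k x y ↔ (l x ∧ rel N l u k x y) ∨ (¬ l x ∧ rel N l u k y x) := by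
  have hxy : x ≠ y := by rintro rfl; exact hx hy
  constructor
  · intro hk
    by_cases hl : l x
    · exact Or.inl ⟨hl, Or.inr (Or.inl ⟨hl, hk⟩)⟩
    · have hu : u x := (h.hlu x hx).resolve_left hl
      exact Or.inr ⟨hl, Or.inr (Or.inr (Or.inl ⟨hu, hk⟩))⟩
  · rintro (⟨hl, h1⟩ | ⟨hl, h1⟩)
    · rcases h1 with ⟨h1, -⟩ | ⟨-, hk⟩ | ⟨huy, hk⟩ | ⟨hlx, huy, b, hb1, hb2⟩
      · exact absurd h1 hxy
      · exact hk
      · exact absurd hy (h.hu _ huy)
      · exact absurd hy (h.hu _ huy)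
    · rcases h1 with ⟨h1, -⟩ | ⟨hly, hk⟩ | ⟨huy, hk⟩ | ⟨hly, huy, b, hb1, hb2⟩
      · exact absurd h1.symm hxy
      · exact absurd hy (h.hl _ hly)
      · exact hk
      · exact absurd hy (h.hl _ hly)

section count
variable {n : ℕ} (B : Finset (Fin n))

private abbrev Co := {x : Fin n // x ∉ B} → Bool × ({x : Fin n // x ∈ B} → Bool)

private def fl (f : Co B) (x : Fin n) : Prop := ∃ hx : x ∉ B, (f ⟨x, hx⟩).1 = true
private def fu (f : Co B) (x : Fin n) : Prop := ∃ hx : x ∉ B, (f ⟨x, hx⟩).1 = false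
private def fk (f : Co B) (x y : Fin n) : Prop :=
  ∃ (hx : x ∉ B) (hy : y ∈ B), (f ⟨x, hx⟩).2 ⟨y, hy⟩ = true

private lemma cfg (f : Co B) : Cfg (fun x => x ∈ B) (fl B f) (fu B f) (fk B f) where
  hl := fun x hx => hx.1
  hu := fun x hx => hx.1
  hlu := fun x hx => by
    cases h : (f ⟨x, hx⟩).1
    · exact Or.inr ⟨hx, h⟩
    · exact Or.inl ⟨hx, h⟩
  hd := fun x h1 h2 => by
    obtain ⟨a, ha⟩ := h1
    obtain ⟨b, hb⟩ := h2
    rw [ha] at hb
    exact absurd hb (by decide)
  hk1 := fun x y h => h.1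
  hk2 := fun x y h => h.2.1

private lemma co_ext {f f' : Co B} (h1 : ∀ x, x ∉ B → (fl B f x ↔ fl B f' x))
    (h2 : ∀ x y, x ∉ B → y ∈ B → (fk B f x y ↔ fk B f' x y)) : f = f' := by
  funext ⟨x, hx⟩
  apply Prod.ext
  · have := h1 x hx
    simp only [fl, hx, not_false_eq_true, exists_true_left] at this
    exact Bool.eq_iff_iff.mpr this
  · funext ⟨y, hy⟩
    have := h2 x y hx hy
    simp only [fk, hx, hy, not_false_eq_true, exists_true_left] at this
    exact Bool.eq_iff_iff.mpr this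

private lemma card_fun_eq {α : Type*} [Fintype α] [DecidableEq α] (a : α) (v : Bool) :
    (univ.filter (fun g : α → Bool => g a = v)).card = 2 ^ (Fintype.card α - 1) := by
  have : (univ.filter (fun g : α → Bool => g a = v)) =
      Fintype.piFinset (fun i => if i = a then {v} else univ) := by
    ext g
    simp only [mem_filter, mem_univ, true_and, Fintype.mem_piFinset]
    constructor
    · intro h i
      split_ifs with hi
      · subst hi; simpa using h
      · exact mem_univ _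
    · intro h
      simpa using h a
  rw [this, Fintype.card_piFinset]
  have h2 : ∀ i, (if i = a then ({v} : Finset Bool) else univ).card = if i = a then 1 else 2 := by
    intro i; split_ifs <;> simp
  simp only [h2]
  rw [Finset.prod_ite]
  simp only [prod_const_one, one_mul, prod_const]
  congr 1
  rw [Finset.filter_ne' univ a, Finset.card_erase_of_mem (mem_univ a), Finset.card_univ]

private lemma card_pair {α : Type*} [Fintype α] [DecidableEq α] (a : α) (v : Bool) :
    (univ.filter (fun p : Bool × (α → Bool) => p.1 = v → p.2 a = false)).card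
      = 3 * 2 ^ (Fintype.card α - 1) := by
  have h1 : (univ.filter (fun p : Bool × (α → Bool) => p.1 = v → p.2 a = false)) =
      ({v} ×ˢ (univ.filter (fun g : α → Bool => g a = false))) ∪ ({!v} ×ˢ univ) := by
    ext ⟨p, g⟩
    simp only [mem_filter, mem_univ, true_and, mem_union, mem_product, mem_singleton, and_true]
    cases p <;> cases v <;> simp
  rw [h1, card_union_of_disjoint, card_product, card_product, card_fun_eq]
  · simp only [card_singleton, one_mul, card_univ, Fintype.card_fun, Fintype.card_bool]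
    obtain ⟨m, hm⟩ : ∃ m, Fintype.card α = m + 1 :=
      ⟨Fintype.card α - 1, by have := Fintype.card_pos_iff.mpr ⟨a⟩; omega⟩
    rw [hm]
    simp [pow_succ]
    ring
  · rw [Finset.disjoint_left]
    rintro ⟨p, g⟩ h2 h3
    simp only [mem_product, mem_singleton] at h2 h3
    rw [h2.1] at h3
    cases v <;> simp at h3

private lemma card_bad1 (b : {x : Fin n // x ∈ B}) (v : Bool) :
    (univ.filter (fun f : Co B => ∀ c, (f c).1 = v → (f c).2 b = false)).card
      = (3 * 2 ^ (B.card - 1)) ^ (n - B.card) := by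
  classical
  have h1 : (univ.filter (fun f : Co B => ∀ c, (f c).1 = v → (f c).2 b = false)) =
      Fintype.piFinset (fun _ : {x : Fin n // x ∉ B} =>
        univ.filter (fun p : Bool × ({x : Fin n // x ∈ B} → Bool) => p.1 = v → p.2 b = false)) := by
    ext f
    simp [Fintype.mem_piFinset]
  rw [h1, Fintype.card_piFinset]
  simp only [card_pair, prod_const, card_univ]
  rw [Fintype.card_coe, Fintype.card_subtype_compl, Fintype.card_fin, Fintype.card_coe]

private lemma card_bad3 (c : {x : Fin n // x ∉ B}) :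
    (univ.filter (fun f : Co B => ∀ b, (f c).2 b = false)).card
      = 2 * (2 * 2 ^ B.card) ^ (n - B.card - 1) := by
  classical
  have h1 : (univ.filter (fun f : Co B => ∀ b, (f c).2 b = false)) =
      Fintype.piFinset (fun c' : {x : Fin n // x ∉ B} => if c' = c then
        (univ ×ˢ {fun _ => false} : Finset (Bool × ({x : Fin n // x ∈ B} → Bool))) else univ) := by
    ext f
    simp only [mem_filter, mem_univ, true_and, Fintype.mem_piFinset]
    constructor
    · intro h c'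
      split_ifs with hc
      · subst hc
        simp only [mem_product, mem_univ, mem_singleton, true_and]
        funext b; exact h b
      · exact mem_univ _
    · intro h b
      have := h c
      simp only [if_true, mem_product, mem_univ, mem_singleton, true_and] at this
      rw [this]
  rw [h1, Fintype.card_piFinset]
  have h2 : ∀ c' : {x : Fin n // x ∉ B}, (if c' = c then
        (univ ×ˢ {fun _ => false} : Finset (Bool × ({x : Fin n // x ∈ B} → Bool))) else univ).card
        = if c' = c then 2 else 2 * 2 ^ B.card := by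
    intro c'
    split_ifs
    · simp
    · simp [Fintype.card_prod]
  simp only [h2]
  rw [Finset.prod_ite, prod_const, prod_const, Finset.filter_eq' univ c, if_pos (mem_univ c),
    card_singleton, pow_one, Finset.filter_ne' univ c, Finset.card_erase_of_mem (mem_univ c),
    Finset.card_univ, Fintype.card_subtype_compl, Fintype.card_fin, Fintype.card_coe]

private def goodC (f : Co B) : Prop :=
  (∀ b, ∃ c, (f c).1 = true ∧ (f c).2 b = true) ∧ (∀ b, ∃ c, (f c).1 = false ∧ (f c).2 b = true) ∧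
    (∀ c, ∃ b, (f c).2 b = true)

private lemma good_of (f : Co B) (h : goodC B f) :
    Good (fun x => x ∈ B) (fl B f) (fu B f) (fk B f) where
  g1 := fun b hb => by
    obtain ⟨⟨c, hc⟩, h1, h2⟩ := h.1 ⟨b, hb⟩
    exact ⟨c, ⟨hc, h1⟩, hc, hb, h2⟩
  g2 := fun b hb => by
    obtain ⟨⟨c, hc⟩, h1, h2⟩ := h.2.1 ⟨b, hb⟩
    exact ⟨c, ⟨hc, h1⟩, hc, hb, h2⟩
  g3 := fun c hc => by
    obtain ⟨⟨b, hb⟩, h1⟩ := h.2.2 ⟨c, hc⟩
    exact ⟨b, hc, hb, h1⟩

open Classical in
private lemma card_good :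
    ((2 ^ (n - B.card) * 2 ^ (B.card * (n - B.card)) : ℤ)
            - (2 * B.card * 3 ^ (n - B.card) * 2 ^ ((B.card - 1) * (n - B.card))
                + ((n - B.card : ℕ) : ℤ) * 2 ^ (n - B.card) * 2 ^ (B.card * (n - B.card - 1))))
      ≤ ((univ.filter (fun f : Co B => goodC B f)).card : ℤ) := by
  have hcov : (univ : Finset (Co B)) ⊆ (univ.filter (fun f : Co B => goodC B f)) ∪
      ((univ.biUnion (fun b => univ.filter (fun f : Co B => ∀ c, (f c).1 = true → (f c).2 b = false))) ∪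
      ((univ.biUnion (fun b => univ.filter (fun f : Co B => ∀ c, (f c).1 = false → (f c).2 b = false))) ∪
      (univ.biUnion (fun c => univ.filter (fun f : Co B => ∀ b, (f c).2 b = false))))) := by
    intro f _
    simp only [mem_union, mem_filter, mem_univ, true_and, mem_biUnion]
    by_contra hcon
    push Not at hcon
    obtain ⟨h0, h1, h2, h3⟩ := hcon
    apply h0
    refine ⟨fun b => ?_, fun b => ?_, fun c => ?_⟩
    · obtain ⟨c, hc1, hc2⟩ := h1 b
      exact ⟨c, hc1, by simpa using hc2⟩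
    · obtain ⟨c, hc1, hc2⟩ := h2 b
      exact ⟨c, hc1, by simpa using hc2⟩
    · obtain ⟨b, hb⟩ := h3 c
      exact ⟨b, by simpa using hb⟩
  have hcard := card_le_card hcov
  have e1 : (univ : Finset (Co B)).card = (2 * 2 ^ B.card) ^ (n - B.card) := by
    rw [card_univ, Fintype.card_fun, Fintype.card_prod, Fintype.card_fun, Fintype.card_bool,
      Fintype.card_subtype_compl, Fintype.card_fin, Fintype.card_coe]
  have cB : Fintype.card {x : Fin n // x ∈ B} = B.card := Fintype.card_coe B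
  have cC : Fintype.card {x : Fin n // x ∉ B} = n - B.card := by
    rw [Fintype.card_subtype_compl, Fintype.card_fin, Fintype.card_coe]
  have hb1 : (univ.biUnion (fun b => univ.filter
      (fun f : Co B => ∀ c, (f c).1 = true → (f c).2 b = false))).card
      ≤ B.card * (3 * 2 ^ (B.card - 1)) ^ (n - B.card) := by
    refine card_biUnion_le.trans ?_
    simp only [card_bad1, sum_const, card_univ, smul_eq_mul]
    rw [cB]
  have hb2 : (univ.biUnion (fun b => univ.filter
      (fun f : Co B => ∀ c, (f c).1 = false → (f c).2 b = false))).card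
      ≤ B.card * (3 * 2 ^ (B.card - 1)) ^ (n - B.card) := by
    refine card_biUnion_le.trans ?_
    simp only [card_bad1, sum_const, card_univ, smul_eq_mul]
    rw [cB]
  have hb3 : (univ.biUnion (fun c => univ.filter
      (fun f : Co B => ∀ b, (f c).2 b = false))).card
      ≤ (n - B.card) * (2 * (2 * 2 ^ B.card) ^ (n - B.card - 1)) := by
    refine card_biUnion_le.trans ?_
    simp only [card_bad3, sum_const, card_univ, smul_eq_mul]
    rw [cC]
  have hfin : (2 * 2 ^ B.card) ^ (n - B.card) ≤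
      (univ.filter (fun f : Co B => goodC B f)).card +
      (2 * (B.card * (3 * 2 ^ (B.card - 1)) ^ (n - B.card)) +
        (n - B.card) * (2 * (2 * 2 ^ B.card) ^ (n - B.card - 1))) := by
    rw [← e1]
    refine hcard.trans ((card_union_le _ _).trans ?_)
    have := (card_union_le (univ.biUnion (fun b => univ.filter (fun f : Co B => ∀ c, (f c).1 = true → (f c).2 b = false)))
      ((univ.biUnion (fun b => univ.filter (fun f : Co B => ∀ c, (f c).1 = false → (f c).2 b = false))) ∪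
      (univ.biUnion (fun c => univ.filter (fun f : Co B => ∀ b, (f c).2 b = false)))))
    have h2 := card_union_le (univ.biUnion (fun b => univ.filter (fun f : Co B => ∀ c, (f c).1 = false → (f c).2 b = false)))
      (univ.biUnion (fun c => univ.filter (fun f : Co B => ∀ b, (f c).2 b = false)))
    omega
  have hz : ((2 * 2 ^ B.card) ^ (n - B.card) : ℤ) ≤
      ((univ.filter (fun f : Co B => goodC B f)).card : ℤ) +
      (2 * (B.card * (3 * 2 ^ (B.card - 1)) ^ (n - B.card)) +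
        ((n - B.card : ℕ) : ℤ) * (2 * (2 * 2 ^ B.card) ^ (n - B.card - 1))) := by
    exact_mod_cast hfin
  have t1 : ((2 * 2 ^ B.card) ^ (n - B.card) : ℤ) =
      2 ^ (n - B.card) * 2 ^ (B.card * (n - B.card)) := by rw [mul_pow, ← pow_mul]
  have t2 : ((3 * 2 ^ (B.card - 1)) ^ (n - B.card) : ℤ) =
      3 ^ (n - B.card) * 2 ^ ((B.card - 1) * (n - B.card)) := by rw [mul_pow, ← pow_mul]
  have t3 : ((n - B.card : ℕ) : ℤ) * (2 * (2 * 2 ^ B.card) ^ (n - B.card - 1)) =
      ((n - B.card : ℕ) : ℤ) * 2 ^ (n - B.card) * 2 ^ (B.card * (n - B.card - 1)) := by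
    rcases Nat.eq_zero_or_pos (n - B.card) with h | h
    · rw [h]; simp
    · obtain ⟨m, hm⟩ : ∃ m, n - B.card = m + 1 := ⟨n - B.card - 1, by omega⟩
      rw [hm, Nat.add_sub_cancel, mul_pow, ← pow_mul, pow_succ]
      ring
  rw [t1, t2, t3] at hz
  linarith

open Classical in
private noncomputable def Ns : Finset (Finset (Fin n)) := B.powerset ∪ (Bᶜ).powerset

private lemma card_Ns : ((Ns B).card : ℤ) = 2 ^ B.card + 2 ^ (n - B.card) - 1 := by
  classical
  have h := card_union_add_card_inter B.powerset (Bᶜ).powerset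
  have h1 : B.powerset ∩ (Bᶜ).powerset = {∅} := by
    ext s
    simp only [mem_inter, mem_powerset, mem_singleton]
    constructor
    · rintro ⟨h1, h2⟩
      rw [← subset_empty, ← inter_compl B]
      exact subset_inter h1 h2
    · rintro rfl
      exact ⟨empty_subset _, empty_subset _⟩
  rw [h1, card_singleton, card_powerset, card_powerset, card_compl, Fintype.card_fin] at h
  have h2 : (Ns B).card + 1 = 2 ^ B.card + 2 ^ (n - B.card) := by
    rw [← h]
    unfold Ns
    congr!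
  have h3 : ((Ns B).card : ℤ) + 1 = 2 ^ B.card + 2 ^ (n - B.card) := by exact_mod_cast h2
  linarith

private def toRel (p : Co B × Finset (Fin n)) : Fin n → Fin n → Prop :=
  rel (fun x => x ∈ p.2) (fl B p.1) (fu B p.1) (fk B p.1)

private lemma mem_Ns (N : Finset (Fin n)) (h : N ∈ Ns B) :
    (∀ x, x ∈ N → x ∈ B) ∨ (∀ x, x ∈ N → ¬ x ∈ B) := by
  classical
  unfold Ns at h
  rw [mem_union, mem_powerset, mem_powerset] at h
  rcases h with h | h
  · exact Or.inl fun x hx => h hx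
  · exact Or.inr fun x hx => by simpa using h hx

open Classical in
private lemma fibre_ge :
    (univ.filter (fun f : Co B => goodC B f)).card * (Ns B).card ≤
      ((univ.filter (fun R : Fin n → Fin n → Prop => IsIdem R)).filter
        (fun R => univ.filter (mid R) = B)).card := by
  rw [← card_product]
  apply card_le_card_of_injOn (toRel B)
  · rintro ⟨f, N⟩ hp
    rw [mem_coe, mem_product, mem_filter] at hp
    obtain ⟨⟨-, hf⟩, hN⟩ := hp
    rw [mem_coe, mem_filter, mem_filter]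
    refine ⟨⟨mem_univ _, rel_idem (cfg B f) (mem_Ns B N hN)⟩, ?_⟩
    ext x
    rw [mem_filter]
    have := mid_rel (N := fun x => x ∈ N) (cfg B f) (good_of B f hf) x
    simp only [mem_univ, true_and]
    exact this
  · rintro ⟨f, N⟩ hp ⟨f', N'⟩ hp' heq
    rw [mem_coe, mem_product, mem_filter] at hp hp'
    obtain ⟨⟨-, hf⟩, hN⟩ := hp
    obtain ⟨⟨-, hf'⟩, hN'⟩ := hp'
    simp only at hf hf' hN hN'
    simp only [toRel] at heq
    have hl : ∀ x, x ∉ B → (fl B f x ↔ fl B f' x) := by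
      intro x hx
      rw [l_iff (N := fun x => x ∈ N) (cfg B f) (good_of B f hf) x hx,
        l_iff (N := fun x => x ∈ N') (cfg B f') (good_of B f' hf') x hx, heq]
    have hk : ∀ x y, x ∉ B → y ∈ B → (fk B f x y ↔ fk B f' x y) := by
      intro x y hx hy
      rw [k_iff (N := fun x => x ∈ N) (cfg B f) x y hx hy,
        k_iff (N := fun x => x ∈ N') (cfg B f') x y hx hy, heq, hl x hx]
    have hff : f = f' := co_ext B hl hk
    have hNN : N = N' := by
      ext x
      have h1 := rel_self (N := fun x => x ∈ N) (cfg B f) x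
      have h2 := rel_self (N := fun x => x ∈ N') (cfg B f') x
      rw [heq] at h1
      exact not_iff_not.mp (h1.symm.trans h2)
    rw [hff, hNN]

end count

/-- TARGET: number of idempotent relations that come from three-level posets with middle level `B`
(`b = |B|`).  `total - bad` for every `B`. -/
theorem card_idem_ge (n : ℕ) :
    ∑ b ∈ range (n + 1), (n.choose b : ℤ) * (2 ^ b + 2 ^ (n - b) - 1)
        * (2 ^ (n - b) * 2 ^ (b * (n - b))
            - (2 * b * 3 ^ (n - b) * 2 ^ ((b - 1) * (n - b))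
                + ((n - b : ℕ) : ℤ) * 2 ^ (n - b) * 2 ^ (b * (n - b - 1))))
      ≤ (Nat.card {R : Fin n → Fin n → Prop // IsIdem R} : ℤ) := by
  classical
  have h0 : Nat.card {R : Fin n → Fin n → Prop // IsIdem R} =
      (univ.filter (fun R : Fin n → Fin n → Prop => IsIdem R)).card := by
    rw [Nat.card_eq_fintype_card, Fintype.card_subtype]
  have h1 := card_eq_sum_card_fiberwise (s := univ.filter (fun R : Fin n → Fin n → Prop => IsIdem R))
    (t := (univ : Finset (Finset (Fin n)))) (f := fun R => univ.filter (mid R))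
    (fun _ _ => mem_coe.mpr (mem_univ _))
  rw [h0, h1]
  push_cast
  have h2 := Finset.sum_powerset_apply_card (x := (univ : Finset (Fin n))) (fun b : ℕ => ((2 ^ b + 2 ^ (n - b) - 1)
        * (2 ^ (n - b) * 2 ^ (b * (n - b))
            - (2 * b * 3 ^ (n - b) * 2 ^ ((b - 1) * (n - b))
                + ((n - b : ℕ) : ℤ) * 2 ^ (n - b) * 2 ^ (b * (n - b - 1)))) : ℤ))
  rw [card_univ, Fintype.card_fin, powerset_univ] at h2
  have h3 : ∑ b ∈ range (n + 1), (n.choose b : ℤ) * (2 ^ b + 2 ^ (n - b) - 1)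
        * (2 ^ (n - b) * 2 ^ (b * (n - b))
            - (2 * b * 3 ^ (n - b) * 2 ^ ((b - 1) * (n - b))
                + ((n - b : ℕ) : ℤ) * 2 ^ (n - b) * 2 ^ (b * (n - b - 1)))) =
      ∑ b ∈ range (n + 1), n.choose b • (((2 ^ b + 2 ^ (n - b) - 1)
        * (2 ^ (n - b) * 2 ^ (b * (n - b))
            - (2 * b * 3 ^ (n - b) * 2 ^ ((b - 1) * (n - b))
                + ((n - b : ℕ) : ℤ) * 2 ^ (n - b) * 2 ^ (b * (n - b - 1)))) : ℤ)) := by
    apply sum_congr rfl
    intro b _
    rw [nsmul_eq_mul, mul_assoc]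
  rw [h3, ← h2]
  apply sum_le_sum
  intro B _
  have h4 := fibre_ge B
  have h5 := card_good B
  have h6 := card_Ns B
  have h7 : (0 : ℤ) ≤ (Ns B).card := Int.natCast_nonneg _
  rw [← h6]
  calc ((Ns B).card : ℤ) * _ ≤ ((Ns B).card : ℤ) *
        ((univ.filter (fun f : Co B => goodC B f)).card : ℤ) := mul_le_mul_of_nonneg_left h5 h7
    _ = (((univ.filter (fun f : Co B => goodC B f)).card * (Ns B).card : ℕ) : ℤ) := by
        push_cast; ring
    _ ≤ _ := by exact_mod_cast h4

end IdemCount.Low
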