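import Mathlib
import Pool.Agent.Idem.Classes2
set_option autoImplicit false
open Finset Filter

namespace IdemCount.Mas



/-- TARGET 1: general principle: removing `k` vertices and paying `2^(c n)` with `c < k/2` is
negligible. -/
theorem master (f_lower : ∀ n : ℕ, (2 : ℝ) ^ ((n : ℝ) ^ 2 / 4 + 2 * n) / (n + 1) ≤ f n)
    (f_upper : ∀ n : ℕ, f n ≤ 4 * (2 : ℝ) ^ ((n : ℝ) ^ 2 / 4 + 2 * n))
    (k a : ℕ) (C c : ℝ) (hk : 1 ≤ k) (hC : 0 ≤ C) (hc : c < (k : ℝ) / 2)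
    (δ : ℝ) (hδ : 0 < δ) :
    ∃ n0 : ℕ, ∀ n ≥ n0, ∀ K : ℝ, 0 ≤ K → ∀ x : ℕ → ℕ, (∀ m < n, (x m : ℝ) ≤ K * f m) →
      C * (n : ℝ) ^ a * (2 : ℝ) ^ (c * n) * (x (n - k) : ℝ) ≤ δ * K * f n := by
  obtain ⟨r, hr⟩ : ∃ r : ℝ, r = (2 : ℝ) ^ (c - (k : ℝ) / 2) := ⟨_, rfl⟩
  have hr0 : 0 < r := by rw [hr]; positivity
  have hr1 : r < 1 := by
    rw [hr]
    exact Real.rpow_lt_one_of_one_lt_of_neg (by norm_num) (by linarith)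
  obtain ⟨B, hB⟩ : ∃ B : ℝ, B = 4 * C * (2 : ℝ) ^ ((k : ℝ) ^ 2 / 4 - 2 * k) := ⟨_, rfl⟩
  have hB0 : 0 ≤ B := by rw [hB]; positivity
  have ht := tendsto_pow_const_mul_const_pow_of_lt_one (a + 1) hr0.le hr1
  have ht2 : Tendsto (fun n : ℕ => (2 * B) * ((n : ℝ) ^ (a + 1) * r ^ n)) atTop (nhds 0) := by
    simpa using ht.const_mul (2 * B)
  obtain ⟨n1, hn1⟩ := eventually_atTop.mp (ht2.eventually_le_const hδ)
  refine ⟨max n1 k, fun n hn K hK x hx => ?_⟩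
  have hnk : k ≤ n := le_trans (le_max_right _ _) hn
  have hn1' := hn1 n (le_trans (le_max_left _ _) hn)
  have hnpos : 1 ≤ n := le_trans hk hnk
  have hnR : (1 : ℝ) ≤ n := by exact_mod_cast hnpos
  have hx1 : (x (n - k) : ℝ) ≤ K * (4 * (2 : ℝ) ^ (((n - k : ℕ) : ℝ) ^ 2 / 4 + 2 * ((n - k : ℕ) : ℝ))) :=
    le_trans (hx (n - k) (by omega)) (mul_le_mul_of_nonneg_left (f_upper _) hK)
  rw [Nat.cast_sub hnk] at hx1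
  have hfl : (2 : ℝ) ^ ((n : ℝ) ^ 2 / 4 + 2 * n) ≤ f n * (n + 1) := by
    have := f_lower n
    rwa [div_le_iff₀ (by positivity)] at this
  have hf0 : 0 ≤ f n := by
    have h1 : 0 < (2 : ℝ) ^ ((n : ℝ) ^ 2 / 4 + 2 * n) / (n + 1) := by positivity
    exact (h1.le).trans (f_lower n)
  have hpow : (2 : ℝ) ^ (c * n) * (2 : ℝ) ^ (((n : ℝ) - k) ^ 2 / 4 + 2 * ((n : ℝ) - k)) =
      (2 : ℝ) ^ ((k : ℝ) ^ 2 / 4 - 2 * k) * r ^ n * (2 : ℝ) ^ ((n : ℝ) ^ 2 / 4 + 2 * n) := by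
    have hrn : r ^ n = (2 : ℝ) ^ ((c - (k : ℝ) / 2) * n) := by
      rw [Real.rpow_mul (by norm_num), Real.rpow_natCast, hr]
    rw [hrn, ← Real.rpow_add (by norm_num),
      ← Real.rpow_add (by norm_num), ← Real.rpow_add (by norm_num)]
    congr 1
    ring
  calc C * (n : ℝ) ^ a * (2 : ℝ) ^ (c * n) * (x (n - k) : ℝ)
      ≤ C * (n : ℝ) ^ a * (2 : ℝ) ^ (c * n) *
        (K * (4 * (2 : ℝ) ^ (((n : ℝ) - k) ^ 2 / 4 + 2 * ((n : ℝ) - k)))) :=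
        mul_le_mul_of_nonneg_left hx1 (by positivity)
    _ = K * (4 * C) * (n : ℝ) ^ a *
        ((2 : ℝ) ^ (c * n) * (2 : ℝ) ^ (((n : ℝ) - k) ^ 2 / 4 + 2 * ((n : ℝ) - k))) := by ring
    _ = K * B * (n : ℝ) ^ a * r ^ n * (2 : ℝ) ^ ((n : ℝ) ^ 2 / 4 + 2 * n) := by
        rw [hpow, hB]; ring
    _ ≤ K * B * (n : ℝ) ^ a * r ^ n * (f n * (n + 1)) :=
        mul_le_mul_of_nonneg_left hfl (by positivity)
    _ ≤ K * B * (n : ℝ) ^ a * r ^ n * (f n * (2 * n)) := by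
        refine mul_le_mul_of_nonneg_left (mul_le_mul_of_nonneg_left (by linarith) hf0)
          (by positivity)
    _ = ((2 * B) * ((n : ℝ) ^ (a + 1) * r ^ n)) * (K * f n) := by ring
    _ ≤ δ * (K * f n) := mul_le_mul_of_nonneg_right hn1' (by positivity)
    _ = δ * K * f n := by ring

theorem bound_B_gen (f_lower : ∀ n : ℕ, (2 : ℝ) ^ ((n : ℝ) ^ 2 / 4 + 2 * n) / (n + 1) ≤ f n)
    (f_upper : ∀ n : ℕ, f n ≤ 4 * (2 : ℝ) ^ ((n : ℝ) ^ 2 / 4 + 2 * n))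
    (k B : ℕ) (hk : 1 ≤ k) (E : ℕ → ℕ) (c : ℝ) (hE : ∀ n, (E n : ℝ) + n ≤ c * n)
    (hc : c < (k : ℝ) / 2)
    (δ : ℝ) (hδ : 0 < δ) :
    ∃ n0 : ℕ, ∀ n ≥ n0, ∀ K : ℝ, 0 ≤ K → ∀ x : ℕ → ℕ, (∀ m < n, (x m : ℝ) ≤ K * f m) →
      (((n.choose k * 2 ^ n) * (x (n - k) * (2 ^ (E n) * B)) : ℕ) : ℝ) ≤ δ * K * f n := by
  obtain ⟨n0, hn0⟩ := master f_lower f_upper k k (B : ℝ) c hk (by positivity) hc δ hδ
  refine ⟨n0, fun n hn K hK x hx => le_trans ?_ (hn0 n hn K hK x hx)⟩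
  have h1 : ((n.choose k : ℕ) : ℝ) ≤ (n : ℝ) ^ k := by
    exact_mod_cast Nat.choose_le_pow n k
  have h2 : (2 : ℝ) ^ n * (2 : ℝ) ^ (E n) ≤ (2 : ℝ) ^ (c * n) := by
    rw [← Real.rpow_natCast, ← Real.rpow_natCast, ← Real.rpow_add (by norm_num)]
    exact Real.rpow_le_rpow_of_exponent_le (by norm_num) (by linarith [hE n])
  push_cast
  calc ((n.choose k : ℕ) : ℝ) * 2 ^ n * ((x (n - k) : ℝ) * (2 ^ (E n) * (B : ℝ)))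
      = ((n.choose k : ℕ) : ℝ) * ((2 : ℝ) ^ n * (2 : ℝ) ^ (E n)) * ((B : ℝ) * (x (n - k) : ℝ)) := by ring
    _ ≤ (n : ℝ) ^ k * (2 : ℝ) ^ (c * n) * ((B : ℝ) * (x (n - k) : ℝ)) :=
        mul_le_mul_of_nonneg_right (mul_le_mul h1 h2 (by positivity) (by positivity)) (by positivity)
    _ = (B : ℝ) * (n : ℝ) ^ k * (2 : ℝ) ^ (c * n) * (x (n - k) : ℝ) := by ring

/-- TARGET 2 (class B), from `master` with k = 4000, c = 1999, a = 4000. -/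
theorem bound_B (f_lower : ∀ n : ℕ, (2 : ℝ) ^ ((n : ℝ) ^ 2 / 4 + 2 * n) / (n + 1) ≤ f n)
    (f_upper : ∀ n : ℕ, f n ≤ 4 * (2 : ℝ) ^ ((n : ℝ) ^ 2 / 4 + 2 * n))
    (δ : ℝ) (hδ : 0 < δ) :
    ∃ n0 : ℕ, ∀ n ≥ n0, ∀ K : ℝ, 0 ≤ K → ∀ x : ℕ → ℕ, (∀ m < n, (x m : ℝ) ≤ K * f m) →
      (((n.choose 4000 * 2 ^ n) * (x (n - 4000) *
        (2 ^ (4000 * (999 * n / 2000)) * (2 ^ (4000 * 32) * 2 ^ (4000 * 4000) * 2 ^ 4000))) : ℕ) : ℝ)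
        ≤ δ * K * f n := by
  obtain ⟨k, hk⟩ : ∃ k : ℕ, k = 4000 := ⟨_, rfl⟩
  obtain ⟨B, hB⟩ : ∃ B : ℕ, B = 2 ^ (4000 * 32) * 2 ^ (4000 * 4000) * 2 ^ 4000 := ⟨_, rfl⟩
  rw [← hB, ← hk]
  refine bound_B_gen f_lower f_upper k B (by omega) (fun n => k * (999 * n / 2000)) 1999 ?_ ?_ δ hδ
  · intro n
    have h : k * (999 * n / 2000) + n ≤ 1999 * n := by
      rw [hk]; omega
    exact_mod_cast h
  · rw [hk]; norm_num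

theorem bound_C_gen (f_lower : ∀ n : ℕ, (2 : ℝ) ^ ((n : ℝ) ^ 2 / 4 + 2 * n) / (n + 1) ≤ f n)
    (f_upper : ∀ n : ℕ, f n ≤ 4 * (2 : ℝ) ^ ((n : ℝ) ^ 2 / 4 + 2 * n))
    (k B : ℕ)
    (δ : ℝ) (hδ : 0 < δ) :
    ∃ n0 : ℕ, ∀ n ≥ n0, ∀ K : ℝ, 0 ≤ K → ∀ x : ℕ → ℕ, (∀ m < n, (x m : ℝ) ≤ K * f m) →
      (((n * n * (n.choose k * n.choose k)) * (x (n - 2) *
        (rootC n * B)) : ℕ) : ℝ)
        ≤ δ * K * f n := by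
  obtain ⟨n0, hn0⟩ := master f_lower f_upper 2 (2 + 2 * k) (16 * (B : ℝ)) (4999 / 5000)
    (by norm_num) (by positivity) (by norm_num) δ hδ
  refine ⟨n0, fun n hn K hK x hx => le_trans ?_ (hn0 n hn K hK x hx)⟩
  have h1 : ((n.choose k : ℕ) : ℝ) ≤ (n : ℝ) ^ k := by
    exact_mod_cast Nat.choose_le_pow n k
  have h2 : (rootC n : ℝ) ≤ 16 * (2 : ℝ) ^ ((4999 / 5000 : ℝ) * n) := by
    have h3 : (rootC n : ℝ) ≤ (2 : ℝ) ^ ((4999 * (n : ℝ) + 20000) / 5000) := by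
      unfold rootC
      exact Nat.floor_le (by positivity)
    refine h3.trans (le_of_eq ?_)
    have h16 : (16 : ℝ) = (2 : ℝ) ^ (4 : ℝ) := by
      have : (2 : ℝ) ^ (4 : ℝ) = (2 : ℝ) ^ (4 : ℕ) := by
        rw [← Real.rpow_natCast]; norm_num
      rw [this]; norm_num
    rw [h16, ← Real.rpow_add (by norm_num)]
    congr 1
    ring
  push_cast
  calc (n : ℝ) * n * (((n.choose k : ℕ) : ℝ) * ((n.choose k : ℕ) : ℝ)) *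
        ((x (n - 2) : ℝ) * ((rootC n : ℝ) * (B : ℝ)))
      = (n : ℝ) * n * (((n.choose k : ℕ) : ℝ) * ((n.choose k : ℕ) : ℝ)) * (rootC n : ℝ) *
        ((B : ℝ) * (x (n - 2) : ℝ)) := by ring
    _ ≤ (n : ℝ) * n * ((n : ℝ) ^ k * (n : ℝ) ^ k) * (16 * (2 : ℝ) ^ ((4999 / 5000 : ℝ) * n)) *
        ((B : ℝ) * (x (n - 2) : ℝ)) := by
        refine mul_le_mul_of_nonneg_right (mul_le_mul ?_ h2 (by positivity) (by positivity))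
          (by positivity)
        exact mul_le_mul_of_nonneg_left (mul_le_mul h1 h1 (by positivity) (by positivity))
          (by positivity)
    _ = 16 * (B : ℝ) * (n : ℝ) ^ (2 + 2 * k) * (2 : ℝ) ^ ((4999 / 5000 : ℝ) * n) *
        (x (n - 2) : ℝ) := by ring

/-- TARGET 3 (class C), from `master` with k = 2, c = 4999/5000, a = 2 + 2 * 4000. -/
theorem bound_C (f_lower : ∀ n : ℕ, (2 : ℝ) ^ ((n : ℝ) ^ 2 / 4 + 2 * n) / (n + 1) ≤ f n)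
    (f_upper : ∀ n : ℕ, f n ≤ 4 * (2 : ℝ) ^ ((n : ℝ) ^ 2 / 4 + 2 * n))
    (δ : ℝ) (hδ : 0 < δ) :
    ∃ n0 : ℕ, ∀ n ≥ n0, ∀ K : ℝ, 0 ≤ K → ∀ x : ℕ → ℕ, (∀ m < n, (x m : ℝ) ≤ K * f m) →
      (((n * n * (n.choose 4000 * n.choose 4000)) * (x (n - 2) *
        (rootC n * (2 ^ (2 * 32) * 2 ^ (2 * 2) * 2 ^ 2))) : ℕ) : ℝ)
        ≤ δ * K * f n :=
  bound_C_gen f_lower f_upper 4000 _ δ hδ

end IdemCount.Mas
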