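import Mathlib
import Pool.Agent.Idem.Classes2
set_option autoImplicit false
open Finset Filter

namespace IdemCount.Sma



lemma pow_le_aux {y : ℝ} (hy : 0 ≤ y) {q : ℕ} (hq : 0 < q) (h : y ^ q ≤ 2) (n : ℕ) :
    y ^ n ≤ (2 : ℝ) ^ ((1 / q : ℝ) * n) := by
  have h1 : y ≤ (2 : ℝ) ^ (1 / q : ℝ) := by
    have e : y = (y ^ q) ^ (1 / q : ℝ) := by
      rw [← Real.rpow_natCast y q, ← Real.rpow_mul hy]
      have : (q : ℝ) * (1 / q) = 1 := by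
        have : (q : ℝ) ≠ 0 := by positivity
        field_simp
      rw [this, Real.rpow_one]
    rw [e]
    exact Real.rpow_le_rpow (by positivity) h (by positivity)
  calc y ^ n ≤ ((2 : ℝ) ^ (1 / q : ℝ)) ^ n := pow_le_pow_left₀ hy h1 n
    _ = _ := by rw [← Real.rpow_natCast, ← Real.rpow_mul (by norm_num)]

lemma small_card (n k j : ℕ) (hk : 0 < k) :
    ((small n k).card : ℝ) ≤ (1 + 1 / 2 ^ j : ℝ) ^ n * (2 : ℝ) ^ ((j / k : ℝ) * n) := by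
  set x : ℝ := 1 / 2 ^ j with hx
  have hx0 : 0 < x := by positivity
  have hx1 : x ≤ 1 := by
    rw [hx, div_le_one (by positivity)]
    exact one_le_pow₀ (by norm_num)
  have hxr : x = (2 : ℝ) ^ (-(j : ℝ)) := by
    rw [hx, Real.rpow_neg (by norm_num), Real.rpow_natCast, one_div]
  have hk0 : (0 : ℝ) < k := by exact_mod_cast hk
  have h1 : ∀ Γ ∈ small n k, (2 : ℝ) ^ (-((j / k : ℝ) * n)) ≤ x ^ Γ.card := by
    intro Γ hΓ
    have hc : k * Γ.card ≤ n := (Finset.mem_filter.1 hΓ).2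
    have hc' : (k : ℝ) * Γ.card ≤ n := by exact_mod_cast hc
    rw [hxr, ← Real.rpow_natCast, ← Real.rpow_mul (by norm_num)]
    apply Real.rpow_le_rpow_of_exponent_le (by norm_num)
    have : (Γ.card : ℝ) ≤ n / k := by rw [le_div_iff₀ hk0]; linarith
    have hj : (0 : ℝ) ≤ j := Nat.cast_nonneg j
    calc -((j / k : ℝ) * n) = -(j * (n / k)) := by ring
      _ ≤ -(j * Γ.card) := by
        apply neg_le_neg
        apply mul_le_mul_of_nonneg_left this hj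
      _ = _ := by ring
  have h2 : ((small n k).card : ℝ) * (2 : ℝ) ^ (-((j / k : ℝ) * n)) ≤ (1 + x) ^ n := by
    calc ((small n k).card : ℝ) * (2 : ℝ) ^ (-((j / k : ℝ) * n))
        = ∑ Γ ∈ small n k, (2 : ℝ) ^ (-((j / k : ℝ) * n)) := by
          rw [Finset.sum_const, nsmul_eq_mul]
      _ ≤ ∑ Γ ∈ small n k, x ^ Γ.card := Finset.sum_le_sum h1
      _ ≤ ∑ Γ : Finset (Fin n), x ^ Γ.card := by
          apply Finset.sum_le_sum_of_subset_of_nonneg (Finset.subset_univ _)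
          intro i _ _; positivity
      _ = (1 + x) ^ n := by
          have := Finset.sum_pow_mul_eq_add_pow x 1 (univ : Finset (Fin n))
          rw [Finset.powerset_univ] at this
          simp only [one_pow, mul_one, Finset.card_univ, Fintype.card_fin] at this
          rw [this, add_comm]
  have h3 : 0 < (2 : ℝ) ^ ((j / k : ℝ) * n) := Real.rpow_pos_of_pos (by norm_num) _
  calc ((small n k).card : ℝ)
      = ((small n k).card : ℝ) * (2 : ℝ) ^ (-((j / k : ℝ) * n)) * (2 : ℝ) ^ ((j / k : ℝ) * n) := by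
        rw [mul_assoc, ← Real.rpow_add (by norm_num)]
        simp
    _ ≤ _ := by gcongr

/-- TARGET 1 -/
theorem small16 (n : ℕ) : ((small n 16).card : ℝ) ≤ (2 : ℝ) ^ ((3 / 16 + 1 / 5 : ℝ) * n) := by
  refine (small_card n 16 3 (by norm_num)).trans ?_
  have h := pow_le_aux (y := (1 + 1 / 2 ^ 3 : ℝ)) (by norm_num) (q := 5) (by norm_num)
    (by norm_num) n
  calc (1 + 1 / 2 ^ 3 : ℝ) ^ n * (2 : ℝ) ^ (((3 : ℕ) / (16 : ℕ) : ℝ) * n)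
      ≤ (2 : ℝ) ^ ((1 / (5 : ℕ) : ℝ) * n) * (2 : ℝ) ^ (((3 : ℕ) / (16 : ℕ) : ℝ) * n) := by gcongr
    _ = _ := by
      rw [← Real.rpow_add (by norm_num)]
      congr 1
      push_cast
      ring

/-- TARGET 2 -/
theorem small512 (n : ℕ) : ((small n 512).card : ℝ) ≤ (2 : ℝ) ^ ((7 / 512 + 1 / 64 : ℝ) * n) := by
  refine (small_card n 512 7 (by norm_num)).trans ?_
  have h := pow_le_aux (y := (1 + 1 / 2 ^ 7 : ℝ)) (by norm_num) (q := 64) (by norm_num)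
    (by norm_num) n
  calc (1 + 1 / 2 ^ 7 : ℝ) ^ n * (2 : ℝ) ^ (((7 : ℕ) / (512 : ℕ) : ℝ) * n)
      ≤ (2 : ℝ) ^ ((1 / (64 : ℕ) : ℝ) * n) * (2 : ℝ) ^ (((7 : ℕ) / (512 : ℕ) : ℝ) * n) := by gcongr
    _ = _ := by
      rw [← Real.rpow_add (by norm_num)]
      congr 1
      push_cast
      ring

/-- TARGET 3 (class A): from `master` with k = 1, c = 9/20, a = 1. -/
theorem bound_A
    (master : ∀ (k a : ℕ) (C c : ℝ), 1 ≤ k → 0 ≤ C → c < (k : ℝ) / 2 → ∀ (δ : ℝ), 0 < δ →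
      ∃ n0 : ℕ, ∀ n ≥ n0, ∀ K : ℝ, 0 ≤ K → ∀ x : ℕ → ℕ, (∀ m < n, (x m : ℝ) ≤ K * f m) →
      C * (n : ℝ) ^ a * (2 : ℝ) ^ (c * n) * (x (n - k) : ℝ) ≤ δ * K * f n)
    (δ : ℝ) (hδ : 0 < δ) :
    ∃ n0 : ℕ, ∀ n ≥ n0, ∀ K : ℝ, 0 ≤ K → ∀ x : ℕ → ℕ, (∀ m < n, (x m : ℝ) ≤ K * f m) →
      ((n * (x (n - 1) * ((small n 16).card * (2 ^ (n / 16) * 4))) : ℕ) : ℝ)
        ≤ δ * K * f n := by
  obtain ⟨n0, h⟩ := master 1 1 4 (9 / 20) le_rfl (by norm_num) (by norm_num) δ hδ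
  refine ⟨n0, fun n hn K hK x hx => (le_trans ?_ (h n hn K hK x hx))⟩
  have h1 := small16 n
  have h2 : (2 : ℝ) ^ (n / 16 : ℕ) ≤ (2 : ℝ) ^ ((1 / 16 : ℝ) * n) := by
    rw [← Real.rpow_natCast]
    apply Real.rpow_le_rpow_of_exponent_le (by norm_num)
    have : ((n / 16 : ℕ) : ℝ) ≤ (n : ℝ) / 16 := by
      have := @Nat.cast_div_le ℝ _ _ _ n 16
      simpa using this
    linarith
  have h3 : (2 : ℝ) ^ ((9 / 20 : ℝ) * n) =
      (2 : ℝ) ^ ((3 / 16 + 1 / 5 : ℝ) * n) * (2 : ℝ) ^ ((1 / 16 : ℝ) * n) := by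
    rw [← Real.rpow_add (by norm_num)]
    congr 1
    ring
  rw [h3]
  push_cast
  have hn0 : (0 : ℝ) ≤ n := Nat.cast_nonneg n
  have hx0 : (0 : ℝ) ≤ x (n - 1) := Nat.cast_nonneg _
  calc (n : ℝ) * (x (n - 1) * ((small n 16).card * ((2 : ℝ) ^ (n / 16) * 4)))
      ≤ (n : ℝ) * (x (n - 1) * ((2 : ℝ) ^ ((3 / 16 + 1 / 5 : ℝ) * n) *
        ((2 : ℝ) ^ ((1 / 16 : ℝ) * n) * 4))) := by gcongr
    _ = _ := by ring

/-- TARGET 4 (class E2): from `master` with k = 1, c = 0.47, a = 2 + 4000. -/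
theorem bound_E2
    (master : ∀ (k a : ℕ) (C c : ℝ), 1 ≤ k → 0 ≤ C → c < (k : ℝ) / 2 → ∀ (δ : ℝ), 0 < δ →
      ∃ n0 : ℕ, ∀ n ≥ n0, ∀ K : ℝ, 0 ≤ K → ∀ x : ℕ → ℕ, (∀ m < n, (x m : ℝ) ≤ K * f m) →
      C * (n : ℝ) ^ a * (2 : ℝ) ^ (c * n) * (x (n - k) : ℝ) ≤ δ * K * f n)
    (δ : ℝ) (hδ : 0 < δ) :
    ∃ n0 : ℕ, ∀ n ≥ n0, ∀ K : ℝ, 0 ≤ K → ∀ x : ℕ → ℕ, (∀ m < n, (x m : ℝ) ≤ K * f m) →
      (((n * n * n.choose 4000) * (x (n - 1) *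
      (((small n 512).card * 2 ^ (n - 999 * n / 2000 - n / 16 + 1)) * (2 ^ 32 * 4))) : ℕ) : ℝ)
        ≤ δ * K * f n := by
  generalize 4000 = A
  obtain ⟨n0, h⟩ := master 1 (2 + A) (2 ^ 37) (1 - 999 / 2000 - 1 / 16 + (7 / 512 + 1 / 64))
    le_rfl (by norm_num) (by norm_num) δ hδ
  refine ⟨n0, fun n hn K hK x hx => (le_trans ?_ (h n hn K hK x hx))⟩
  have h1 := small512 n
  have h2 : (2 : ℝ) ^ (n - 999 * n / 2000 - n / 16 + 1 : ℕ) ≤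
      (2 : ℝ) ^ ((1 - 999 / 2000 - 1 / 16 : ℝ) * n) * 2 ^ 3 := by
    rw [← Real.rpow_natCast, ← Real.rpow_natCast 2 3, ← Real.rpow_add (by norm_num)]
    apply Real.rpow_le_rpow_of_exponent_le (by norm_num)
    have e1 : (999 * n / 2000) * 2000 + 1999 ≥ 999 * n := by omega
    have e2 : (n / 16) * 16 + 15 ≥ n := by omega
    have e3 : (n - 999 * n / 2000 - n / 16 + 1) + 999 * n / 2000 + n / 16 = n + 1 := by omega
    have e1' : ((999 * n / 2000 : ℕ) : ℝ) * 2000 + 1999 ≥ 999 * n := by exact_mod_cast e1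
    have e2' : ((n / 16 : ℕ) : ℝ) * 16 + 15 ≥ n := by exact_mod_cast e2
    have e3' : ((n - 999 * n / 2000 - n / 16 + 1 : ℕ) : ℝ) + ((999 * n / 2000 : ℕ) : ℝ) +
        ((n / 16 : ℕ) : ℝ) = n + 1 := by exact_mod_cast e3
    push_cast at e3' ⊢
    linarith
  have h3 : (2 : ℝ) ^ ((1 - 999 / 2000 - 1 / 16 + (7 / 512 + 1 / 64) : ℝ) * n) =
      (2 : ℝ) ^ ((7 / 512 + 1 / 64 : ℝ) * n) * (2 : ℝ) ^ ((1 - 999 / 2000 - 1 / 16 : ℝ) * n) := by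
    rw [← Real.rpow_add (by norm_num)]
    congr 1
    ring
  have h4 : ((n.choose A : ℕ) : ℝ) ≤ (n : ℝ) ^ A := by
    exact_mod_cast Nat.choose_le_pow n A
  rw [h3]
  push_cast
  have hn0 : (0 : ℝ) ≤ n := Nat.cast_nonneg n
  have hx0 : (0 : ℝ) ≤ x (n - 1) := Nat.cast_nonneg _
  calc (n : ℝ) * n * (n.choose A) * (x (n - 1) *
        (((small n 512).card * (2 : ℝ) ^ (n - 999 * n / 2000 - n / 16 + 1)) * 17179869184))
      ≤ (n : ℝ) * n * (n : ℝ) ^ A * (x (n - 1) *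
        (((2 : ℝ) ^ ((7 / 512 + 1 / 64 : ℝ) * n) *
          ((2 : ℝ) ^ ((1 - 999 / 2000 - 1 / 16 : ℝ) * n) * 2 ^ 3)) * 17179869184)) := by
        gcongr
    _ = 2 ^ 37 * (n : ℝ) ^ (2 + A) * ((2 : ℝ) ^ ((7 / 512 + 1 / 64 : ℝ) * n) *
          (2 : ℝ) ^ ((1 - 999 / 2000 - 1 / 16 : ℝ) * n)) * x (n - 1) := by
      rw [pow_add (n : ℝ) 2 A]
      ring

/-- TARGET 5 (class E3): from `master` with k = 1, c = 1 - 999/2000 - 1/512, a = 3 + 4000. -/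
theorem bound_E3
    (master : ∀ (k a : ℕ) (C c : ℝ), 1 ≤ k → 0 ≤ C → c < (k : ℝ) / 2 → ∀ (δ : ℝ), 0 < δ →
      ∃ n0 : ℕ, ∀ n ≥ n0, ∀ K : ℝ, 0 ≤ K → ∀ x : ℕ → ℕ, (∀ m < n, (x m : ℝ) ≤ K * f m) →
      C * (n : ℝ) ^ a * (2 : ℝ) ^ (c * n) * (x (n - k) : ℝ) ≤ δ * K * f n)
    (δ : ℝ) (hδ : 0 < δ) :
    ∃ n0 : ℕ, ∀ n ≥ n0, ∀ K : ℝ, 0 ≤ K → ∀ x : ℕ → ℕ, (∀ m < n, (x m : ℝ) ≤ K * f m) →
      (((n * n * n * n.choose 4000) * (x (n - 1) *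
      ((2 ^ (n - 999 * n / 2000 - n / 512 + 1)) * (2 ^ 32 * 4))) : ℕ) : ℝ)
        ≤ δ * K * f n := by
  generalize 4000 = A
  obtain ⟨n0, h⟩ := master 1 (3 + A) (2 ^ 37) (1 - 999 / 2000 - 1 / 512)
    le_rfl (by norm_num) (by norm_num) δ hδ
  refine ⟨n0, fun n hn K hK x hx => (le_trans ?_ (h n hn K hK x hx))⟩
  have h2 : (2 : ℝ) ^ (n - 999 * n / 2000 - n / 512 + 1 : ℕ) ≤
      (2 : ℝ) ^ ((1 - 999 / 2000 - 1 / 512 : ℝ) * n) * 2 ^ 3 := by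
    rw [← Real.rpow_natCast, ← Real.rpow_natCast 2 3, ← Real.rpow_add (by norm_num)]
    apply Real.rpow_le_rpow_of_exponent_le (by norm_num)
    have e1 : (999 * n / 2000) * 2000 + 1999 ≥ 999 * n := by omega
    have e2 : (n / 512) * 512 + 511 ≥ n := by
      have h5 := Nat.div_add_mod n 512
      have h6 := Nat.mod_lt n (show 0 < 512 by norm_num)
      linarith
    have e3 : (n - 999 * n / 2000 - n / 512 + 1) + 999 * n / 2000 + n / 512 = n + 1 := by omega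
    have e1' : ((999 * n / 2000 : ℕ) : ℝ) * 2000 + 1999 ≥ 999 * n := by exact_mod_cast e1
    have e2' : ((n / 512 : ℕ) : ℝ) * 512 + 511 ≥ n := by exact_mod_cast e2
    have e3' : ((n - 999 * n / 2000 - n / 512 + 1 : ℕ) : ℝ) + ((999 * n / 2000 : ℕ) : ℝ) +
        ((n / 512 : ℕ) : ℝ) = n + 1 := by exact_mod_cast e3
    push_cast at e3' ⊢
    linarith
  have h4 : ((n.choose A : ℕ) : ℝ) ≤ (n : ℝ) ^ A := by
    exact_mod_cast Nat.choose_le_pow n A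
  push_cast
  have hn0 : (0 : ℝ) ≤ n := Nat.cast_nonneg n
  have hx0 : (0 : ℝ) ≤ x (n - 1) := Nat.cast_nonneg _
  calc (n : ℝ) * n * n * (n.choose A) * (x (n - 1) *
        ((2 : ℝ) ^ (n - 999 * n / 2000 - n / 512 + 1) * 17179869184))
      ≤ (n : ℝ) * n * n * (n : ℝ) ^ A * (x (n - 1) *
        (((2 : ℝ) ^ ((1 - 999 / 2000 - 1 / 512 : ℝ) * n) * 2 ^ 3) * 17179869184)) := by
        gcongr
    _ = 2 ^ 37 * (n : ℝ) ^ (3 + A) * (2 : ℝ) ^ ((1 - 999 / 2000 - 1 / 512 : ℝ) * n) *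
          x (n - 1) := by
      rw [pow_add (n : ℝ) 3 A]
      ring

end IdemCount.Sma
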