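import Mathlib
import Pool.Agent.Idem.Final
import Pool.Agent.Idem.Master
import Pool.Agent.Idem.Smalls
import Pool.Agent.Idem.Inject
import Pool.Agent.Idem.Lower
set_option autoImplicit false
open Finset Filter

namespace IdemCount

lemma xn_split (n : ℕ) : xn n ≤ (clA n).ncard + (clB n 4000).ncard + (clC n 4000).ncard
    + (clE2 n 4000).ncard + (clE3 n 4000).ncard
    + ({p | p ∈ clG n 4000 ∧ ∀ V₁, Side p V₁ → NoHole p V₁} : Set (Str (Fin n))).ncard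
    + ({p | p ∈ clG n 4000 ∧ ∃ V₁, Side p V₁ ∧ ¬ NoHole p V₁} : Set (Str (Fin n))).ncard := by
  generalize 4000 = q
  have hsub : X (Fin n) ⊆ clA n ∪ clB n q ∪ clC n q ∪ clE2 n q ∪ clE3 n q ∪
      {p | p ∈ clG n q ∧ ∀ V₁, Side p V₁ → NoHole p V₁} ∪
      {p | p ∈ clG n q ∧ ∃ V₁, Side p V₁ ∧ ¬ NoHole p V₁} := by
    intro p hp
    simp only [Set.mem_union, Set.mem_ofPred_eq]
    by_cases h1 : p ∈ clA n
    · tauto
    by_cases h2 : p ∈ clB n q
    · tauto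
    by_cases h3 : p ∈ clC n q
    · tauto
    by_cases h4 : p ∈ clE2 n q
    · tauto
    by_cases h5 : p ∈ clE3 n q
    · tauto
    have h6 : p ∈ clG n q := ⟨hp, h1, h2, h3, h4, h5⟩
    by_cases h7 : ∃ V₁, Side p V₁ ∧ ¬ NoHole p V₁
    · right; exact ⟨h6, h7⟩
    · left; right
      refine ⟨h6, fun V₁ hV => ?_⟩
      by_contra h8
      exact h7 ⟨V₁, hV, h8⟩
  refine (Set.ncard_le_ncard hsub (Set.toFinite _)).trans ?_
  refine (Set.ncard_union_le _ _).trans (Nat.add_le_add_right ?_ _)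
  refine (Set.ncard_union_le _ _).trans (Nat.add_le_add_right ?_ _)
  refine (Set.ncard_union_le _ _).trans (Nat.add_le_add_right ?_ _)
  refine (Set.ncard_union_le _ _).trans (Nat.add_le_add_right ?_ _)
  refine (Set.ncard_union_le _ _).trans (Nat.add_le_add_right ?_ _)
  exact Set.ncard_union_le _ _

/-- one step estimate -/
theorem step (δ : ℝ) (hδ : 0 < δ) : ∃ n0 : ℕ, ∀ n ≥ n0, ∀ K : ℝ, 0 ≤ K →
    (∀ m < n, (xn m : ℝ) ≤ K * f m) →
    (xn n : ℝ) ≤ (5 * δ * K + δ + (1 + 2 * δ) * (1 + δ)) * f n := by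
  have hmaster := Mas.master Fn.f_lower Fn.f_upper
  obtain ⟨nA, hA⟩ := Sma.bound_A (fun k a C c h1 h2 h3 δ h4 => hmaster k a C c h1 h2 h3 δ h4) δ hδ
  obtain ⟨nB, hB⟩ := Mas.bound_B Fn.f_lower Fn.f_upper δ hδ
  obtain ⟨nC, hC⟩ := Mas.bound_C Fn.f_lower Fn.f_upper δ hδ
  obtain ⟨nE2, hE2⟩ := Sma.bound_E2 (fun k a C c h1 h2 h3 δ h4 => hmaster k a C c h1 h2 h3 δ h4) δ hδ
  obtain ⟨nE3, hE3⟩ := Sma.bound_E3 (fun k a C c h1 h2 h3 δ h4 => hmaster k a C c h1 h2 h3 δ h4) δ hδ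
  obtain ⟨nH, hH⟩ := hole_small δ hδ
  obtain ⟨nT, hT⟩ := theta_small Sma.small512 δ hδ
  refine ⟨nA + nB + nC + nE2 + nE3 + nH + nT + 500000, ?_⟩
  intro n hn K hK hx
  have a1 := hA n (by omega) K hK xn hx
  have a2 := hB n (by omega) K hK xn hx
  have a3 := hC n (by omega) K hK xn hx
  have a4 := hE2 n (by omega) K hK xn hx
  have a5 := hE3 n (by omega) K hK xn hx
  have a6 := hH n (by omega)
  have a7 := hT n (by omega)
  have b1 : ((clA n).ncard : ℝ) ≤ δ * K * f n := le_trans (by exact_mod_cast card_clA n) a1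
  have b2 : ((clB n 4000).ncard : ℝ) ≤ δ * K * f n :=
    le_trans (Nat.cast_le.2 (card_clB n 4000 (by omega))) a2
  have b3 : ((clC n 4000).ncard : ℝ) ≤ δ * K * f n :=
    le_trans (Nat.cast_le.2 (card_clC n 4000 (by omega))) a3
  have b4 : ((clE2 n 4000).ncard : ℝ) ≤ δ * K * f n :=
    le_trans (Nat.cast_le.2 (card_clE2 n 4000 (by omega) (by omega))) a4
  have b5 : ((clE3 n 4000).ncard : ℝ) ≤ δ * K * f n :=
    le_trans (Nat.cast_le.2 (card_clE3 n 4000 (by omega) (by omega))) a5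
  have b6 : ((({p | p ∈ clG n 4000 ∧ ∃ V₁, Side p V₁ ∧ ¬ NoHole p V₁} : Set (Str (Fin n))).ncard : ℕ) : ℝ) ≤ δ * f n :=
    le_trans (Nat.cast_le.2 (card_hole (n := n) 4000)) a6
  have b7 := card_good (n := n) 4000 (by omega)
  have hf := f_pos n
  have hθ := theta_nonneg n
  have b8 : (1 + 2 * theta n) * (1 + theta n) * f n ≤ (1 + 2 * δ) * (1 + δ) * f n := by
    gcongr
  have hs : (xn n : ℝ) ≤ ((clA n).ncard : ℝ) + ((clB n 4000).ncard : ℝ) + ((clC n 4000).ncard : ℝ)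
    + ((clE2 n 4000).ncard : ℝ) + ((clE3 n 4000).ncard : ℝ)
    + ((({p | p ∈ clG n 4000 ∧ ∀ V₁, Side p V₁ → NoHole p V₁} : Set (Str (Fin n))).ncard : ℕ) : ℝ)
    + ((({p | p ∈ clG n 4000 ∧ ∃ V₁, Side p V₁ ∧ ¬ NoHole p V₁} : Set (Str (Fin n))).ncard : ℕ) : ℝ) := by
    exact_mod_cast xn_split n
  calc (xn n : ℝ) ≤ _ := hs
    _ ≤ δ * K * f n + δ * K * f n + δ * K * f n + δ * K * f n + δ * K * f n +
        (1 + 2 * δ) * (1 + δ) * f n + δ * f n := by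
        have := b7.trans b8
        linarith
    _ = _ := by ring

/-- induction principle: a sequence satisfying a contraction type bound is `O(f)` -/
lemma induct (x : ℕ → ℕ) (n0 : ℕ) (h : ∀ n ≥ n0, ∀ K : ℝ, 0 ≤ K → (∀ m < n, (x m : ℝ) ≤ K * f m) →
    (x n : ℝ) ≤ (K / 2 + 2) * f n) : ∃ K : ℝ, 0 ≤ K ∧ ∀ n, (x n : ℝ) ≤ K * f n := by
  obtain ⟨K0, hK0⟩ : ∃ K0 : ℝ, ∀ m < n0, (x m : ℝ) ≤ K0 * f m := by
    refine ⟨∑ m ∈ range n0, (x m : ℝ) / f m, fun m hm => ?_⟩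
    have h1 : (x m : ℝ) / f m ≤ ∑ m ∈ range n0, (x m : ℝ) / f m :=
      Finset.single_le_sum (f := fun m => (x m : ℝ) / f m)
        (fun i _ => div_nonneg (Nat.cast_nonneg _) (f_pos i).le) (Finset.mem_range.2 hm)
    rwa [div_le_iff₀ (f_pos m)] at h1
  refine ⟨max K0 4, le_trans (by norm_num) (le_max_right _ _), ?_⟩
  intro n
  induction n using Nat.strong_induction_on with
  | _ n ih =>
    by_cases hn : n < n0
    · exact (hK0 n hn).trans (mul_le_mul_of_nonneg_right (le_max_left _ _) (f_pos n).le)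
    · push Not at hn
      refine (h n hn (max K0 4) (le_trans (by norm_num) (le_max_right _ _)) ih).trans ?_
      refine mul_le_mul_of_nonneg_right ?_ (f_pos n).le
      have := le_max_right K0 4
      linarith

theorem xn_bound : ∃ K : ℝ, 0 ≤ K ∧ ∀ n, (xn n : ℝ) ≤ K * f n := by
  obtain ⟨n0, h⟩ := step (1 / 10) (by norm_num)
  refine induct xn n0 fun n hn K hK hx => (h n hn K hK hx).trans ?_
  refine mul_le_mul_of_nonneg_right ?_ (f_pos n).le
  linarith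

theorem xn_asymp (ε : ℝ) (hε : 0 < ε) : ∃ n0 : ℕ, ∀ n ≥ n0, (xn n : ℝ) ≤ (1 + ε) * f n := by
  obtain ⟨K, hK, hx⟩ := xn_bound
  set δ : ℝ := min 1 (ε / (5 * K + 6)) with hδdef
  have hδ : 0 < δ := by
    rw [hδdef]; exact lt_min one_pos (by positivity)
  obtain ⟨n0, h⟩ := step δ hδ
  refine ⟨n0, fun n hn => (h n hn K hK (fun m _ => hx m)).trans ?_⟩
  refine mul_le_mul_of_nonneg_right ?_ (f_pos n).le
  have h1 : δ ≤ 1 := min_le_left _ _
  have h2 : δ * (5 * K + 6) ≤ ε := by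
    have : δ ≤ ε / (5 * K + 6) := min_le_right _ _
    rwa [le_div_iff₀ (by positivity)] at this
  nlinarith

/-- number of idempotent relations -/
noncomputable def idn (n : ℕ) : ℕ := Nat.card {R : Fin n → Fin n → Prop // IsIdem R}

lemma idn_le (n : ℕ) : idn (n + 1) ≤ xn (n + 1) + (n + 1) ^ 2 * idn n := by
  have := Inj.card_idem_le n
  exact this

theorem idn_step (δ : ℝ) (hδ : 0 < δ) : ∃ n0 : ℕ, ∀ n ≥ n0, ∀ K : ℝ, 0 ≤ K →
    (∀ m < n, (idn m : ℝ) ≤ K * f m) → (idn n : ℝ) ≤ (1 + δ + δ * K) * f n := by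
  obtain ⟨n1, h1⟩ := xn_asymp δ hδ
  obtain ⟨n2, h2⟩ := Mas.master Fn.f_lower Fn.f_upper 1 2 1 0 le_rfl (by norm_num) (by norm_num) δ hδ
  refine ⟨n1 + n2 + 1, ?_⟩
  intro n hn K hK hx
  have a1 := h1 n (by omega)
  have a2 := h2 n (by omega) K hK idn hx
  obtain ⟨m, rfl⟩ : ∃ m, n = m + 1 := ⟨n - 1, by omega⟩
  have a3 := idn_le m
  have a4 : (idn (m + 1) : ℝ) ≤ xn (m + 1) + ((m + 1 : ℕ) : ℝ) ^ 2 * idn m := by exact_mod_cast a3
  simp only [zero_mul, Real.rpow_zero, one_mul, mul_one, Nat.add_sub_cancel] at a2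
  calc (idn (m + 1) : ℝ) ≤ _ := a4
    _ ≤ (1 + δ) * f (m + 1) + δ * K * f (m + 1) := add_le_add a1 a2
    _ = _ := by ring

theorem idn_bound : ∃ K : ℝ, 0 ≤ K ∧ ∀ n, (idn n : ℝ) ≤ K * f n := by
  obtain ⟨n0, h⟩ := idn_step (1 / 2) (by norm_num)
  refine induct idn n0 fun n hn K hK hx => (h n hn K hK hx).trans ?_
  refine mul_le_mul_of_nonneg_right ?_ (f_pos n).le
  linarith

theorem idn_asymp (ε : ℝ) (hε : 0 < ε) : ∃ n0 : ℕ, ∀ n ≥ n0, (idn n : ℝ) ≤ (1 + ε) * f n := by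
  obtain ⟨K, hK, hx⟩ := idn_bound
  set δ : ℝ := ε / (1 + K) with hδdef
  have hδ : 0 < δ := by rw [hδdef]; positivity
  obtain ⟨n0, h⟩ := idn_step δ hδ
  refine ⟨n0, fun n hn => (h n hn K hK (fun m _ => hx m)).trans ?_⟩
  refine mul_le_mul_of_nonneg_right ?_ (f_pos n).le
  have h2 : δ * (1 + K) = ε := by rw [hδdef]; field_simp
  linarith

theorem tendsto_idn : Tendsto (fun n : ℕ => (idn n : ℝ) / f n) atTop (nhds 1) := by
  rw [Metric.tendsto_atTop]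
  intro ε hε
  obtain ⟨n1, h1⟩ := idn_asymp (ε / 2) (by positivity)
  have h2 := Fn.lower_asymp idn (fun n => Low.card_idem_ge n) (ε / 2) (by positivity)
  obtain ⟨n2, h2⟩ := eventually_atTop.1 h2
  refine ⟨max n1 n2, fun n hn => ?_⟩
  have a1 := h1 n (le_trans (le_max_left _ _) hn)
  have a2 := h2 n (le_trans (le_max_right _ _) hn)
  have hf := f_pos n
  rw [Real.dist_eq, abs_lt]
  constructor
  · have : 1 - ε / 2 ≤ (idn n : ℝ) / f n := by rwa [le_div_iff₀ hf]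
    linarith
  · have : (idn n : ℝ) / f n ≤ 1 + ε / 2 := by rwa [div_le_iff₀ hf]
    linarith

end IdemCount
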