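import Mathlib
import Pool.Agent.Idem.Main
set_option autoImplicit false
open Finset Filter

namespace IdemCount

lemma sup_bool {n : ℕ} (g : Fin n → Bool) : (univ.sup g = true) ↔ ∃ k, g k = true := by
  have h : ∀ x : Bool, x = true ↔ (⊥ : Bool) < x := by decide
  rw [h, Finset.lt_sup_iff]
  constructor
  · rintro ⟨k, _, hk⟩; exact ⟨k, (h _).2 hk⟩
  · rintro ⟨k, hk⟩; exact ⟨k, mem_univ _, (h _).1 hk⟩

theorem card_matrix (n : ℕ) :
    Nat.card {A : Matrix (Fin n) (Fin n) Bool //
      ∀ i j, (univ.sup fun k => A i k ⊓ A k j) = A i j} = idn n := by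
  classical
  refine Nat.card_congr
    { toFun := fun A => ⟨fun x y => A.1 x y = true, ?_⟩
      invFun := fun R => ⟨fun x y => decide (R.1 x y), ?_⟩
      left_inv := ?_
      right_inv := ?_ }
  · intro x y
    have h := A.2 x y
    show (A.1 x y = true) ↔ ∃ z, A.1 x z = true ∧ A.1 z y = true
    rw [← h, sup_bool]
    refine exists_congr fun k => ?_
    have : ∀ a b : Bool, (a ⊓ b = true) ↔ (a = true ∧ b = true) := by decide
    exact this _ _
  · intro x y
    have key : ∀ a b : Bool, (a = true ↔ b = true) → a = b := by decide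
    apply key
    rw [sup_bool]
    have : ∀ a b : Bool, (a ⊓ b = true) ↔ (a = true ∧ b = true) := by decide
    simp only [this, decide_eq_true_eq]
    exact (R.2 x y).symm
  · intro A
    apply Subtype.ext
    funext x y
    simp
  · intro R
    apply Subtype.ext
    funext x y
    simp

end IdemCount
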